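import Pool.Agent.H99.StrDefs

/-!
Heat kernel computations: the variance function of the stationary pinned string.
-/

open MeasureTheory ProbabilityTheory Set Filter Topology
open scoped NNReal ENNReal

namespace Pool.Agent.H99.Str

lemma heatKernel_nonneg (t x : ℝ) : 0 ≤ heatKernel t x := by
  unfold heatKernel; positivity

lemma heatKernel_neg (t x : ℝ) : heatKernel t (-x) = heatKernel t x := by
  unfold heatKernel; ring_nf

lemma heatKernel_sub_comm (t x y : ℝ) : heatKernel t (x - y) = heatKernel t (y - x) := by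
  rw [← heatKernel_neg]; ring_nf

lemma heatKernel_of_nonpos {t : ℝ} (ht : t ≤ 0) (x : ℝ) : heatKernel t x = 0 := by
  unfold heatKernel
  have : 4 * Real.pi * t ≤ 0 := by
    have := Real.pi_pos
    nlinarith
  rw [Real.sqrt_eq_zero_of_nonpos this, div_zero]

lemma heatKernel_zero_right (t : ℝ) : heatKernel t 0 = 1 / Real.sqrt (4 * Real.pi * t) := by
  unfold heatKernel; simp

lemma heatKernel_anti_abs {t : ℝ} (ht : 0 < t) {x y : ℝ} (h : |x| ≤ |y|) :
    heatKernel t y ≤ heatKernel t x := by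
  unfold heatKernel
  have h2 : x ^ 2 ≤ y ^ 2 := sq_le_sq.mpr h
  gcongr

lemma heatKernel_le_zero {t : ℝ} (ht : 0 < t) (x : ℝ) : heatKernel t x ≤ heatKernel t 0 :=
  heatKernel_anti_abs ht (by simp)

lemma continuousOn_heatKernel_time (x : ℝ) : ContinuousOn (fun t => heatKernel t x) (Ioi 0) := by
  unfold heatKernel
  refine ContinuousOn.div ?_ ?_ ?_
  · refine Real.continuous_exp.comp_continuousOn ?_
    refine ContinuousOn.div continuousOn_const (by fun_prop) ?_
    intro t ht
    have : (0:ℝ) < t := ht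
    positivity
  · fun_prop
  · intro t ht
    have : (0:ℝ) < t := ht
    positivity

lemma measurable_heatKernel : Measurable fun p : ℝ × ℝ => heatKernel p.1 p.2 := by
  unfold heatKernel; fun_prop

lemma continuous_heatKernel_space (t : ℝ) : Continuous (fun x => heatKernel t x) := by
  unfold heatKernel; fun_prop

/-- The semigroup property. -/
lemma integral_heatKernel_mul {a b : ℝ} (ha : 0 < a) (hb : 0 < b) (x y : ℝ) :
    ∫ z : ℝ, heatKernel a (x - z) * heatKernel b (y - z) = heatKernel (a + b) (x - y) := by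
  have hpi := Real.pi_pos
  set B : ℝ := (a + b) / (4 * a * b) with hB
  have hBpos : 0 < B := by positivity
  set z0 : ℝ := (b * x + a * y) / (a + b) with hz0
  have hab : a + b ≠ 0 := by positivity
  have key : ∀ z : ℝ, heatKernel a (x - z) * heatKernel b (y - z) =
      (Real.exp (-((x - y) ^ 2) / (4 * (a + b))) / (Real.sqrt (4 * Real.pi * a) *
        Real.sqrt (4 * Real.pi * b))) * Real.exp (-B * (z - z0) ^ 2) := by
    intro z
    unfold heatKernel
    rw [div_mul_div_comm, ← Real.exp_add, div_mul_eq_mul_div, ← Real.exp_add]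
    congr 2
    rw [hB, hz0]
    field_simp
    ring
  simp_rw [key]
  rw [integral_const_mul, integral_sub_right_eq_self (fun z => Real.exp (-B * z ^ 2)) z0,
    integral_gaussian]
  unfold heatKernel
  rw [div_mul_eq_mul_div, mul_div_assoc]
  congr 1
  rw [← Real.sqrt_mul (by positivity), ← Real.sqrt_div (by positivity), eq_comm,
    ← one_div, ← Real.sqrt_one, ← Real.sqrt_div (by positivity)]
  congr 1
  rw [hB]
  field_simp

/-- `G_t(x) ≤ t^{-1/2}`. -/
lemma heatKernel_le_rpow {t : ℝ} (ht : 0 < t) (x : ℝ) : heatKernel t x ≤ t ^ (-(1/2) : ℝ) := by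
  refine (heatKernel_le_zero ht x).trans ?_
  rw [heatKernel_zero_right, Real.rpow_neg ht.le, ← Real.sqrt_eq_rpow, one_div]
  have h3 := Real.pi_gt_three
  have : Real.sqrt t ≤ Real.sqrt (4 * Real.pi * t) := Real.sqrt_le_sqrt (by nlinarith)
  have h0 : 0 < Real.sqrt t := Real.sqrt_pos.mpr ht
  gcongr

lemma heatKernel_zero_anti {s t : ℝ} (hs : 0 < s) (hst : s ≤ t) :
    heatKernel t 0 ≤ heatKernel s 0 := by
  rw [heatKernel_zero_right, heatKernel_zero_right]
  have hpi := Real.pi_pos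
  have h0 : 0 < Real.sqrt (4 * Real.pi * s) := Real.sqrt_pos.mpr (by positivity)
  gcongr

/-- The increment of the heat kernel appearing in the variance function. -/
noncomputable def Vint (τ z u : ℝ) : ℝ := heatKernel u 0 - heatKernel (u + τ) z

lemma Vint_nonneg {τ u : ℝ} (hτ : 0 ≤ τ) (hu : 0 < u) (z : ℝ) : 0 ≤ Vint τ z u := by
  unfold Vint
  have h1 := heatKernel_le_zero (t := u + τ) (by positivity) z
  have h2 := heatKernel_zero_anti hu (show u ≤ u + τ by linarith)
  linarith

lemma Vint_le_one {τ u : ℝ} (hu : 0 < u) (z : ℝ) : Vint τ z u ≤ u ^ (-(1/2) : ℝ) := by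
  unfold Vint
  have h1 := heatKernel_le_rpow hu 0
  have h2 := heatKernel_nonneg (u + τ) z
  linarith

lemma Vint_le_two {τ u : ℝ} (hτ : 0 ≤ τ) (hu : 0 < u) (z : ℝ) :
    Vint τ z u ≤ (τ + z ^ 2) * u ^ (-(3/2) : ℝ) := by
  have h3 := Real.pi_gt_three
  have hpi := Real.pi_pos
  unfold Vint
  rw [heatKernel_zero_right]
  unfold heatKernel
  set s : ℝ := Real.sqrt (4 * Real.pi * u) with hs
  set s' : ℝ := Real.sqrt (4 * Real.pi * (u + τ)) with hs'
  have hs0 : 0 < s := Real.sqrt_pos.mpr (by positivity)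
  have hss' : s ≤ s' := Real.sqrt_le_sqrt (by nlinarith)
  have hs0' : 0 < s' := lt_of_lt_of_le hs0 hss'
  have hsq : s ^ 2 = 4 * Real.pi * u := Real.sq_sqrt (by positivity)
  have hsq' : s' ^ 2 = 4 * Real.pi * (u + τ) := Real.sq_sqrt (by positivity)
  have hexp : 1 + -(z ^ 2) / (4 * (u + τ)) ≤ Real.exp (-(z ^ 2) / (4 * (u + τ))) := by
    have := Real.add_one_le_exp (-(z ^ 2) / (4 * (u + τ))); linarith
  have hw : z ^ 2 / (4 * (u + τ)) ≤ z ^ 2 / (4 * u) := by
    have : (0:ℝ) ≤ z ^ 2 := by positivity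
    gcongr; linarith
  have e1 : 1 / s - Real.exp (-(z ^ 2) / (4 * (u + τ))) / s' ≤
      (1 / s - 1 / s') + (z ^ 2 / (4 * u)) / s' := by
    have : (1 - z ^ 2 / (4 * u)) / s' ≤ Real.exp (-(z ^ 2) / (4 * (u + τ))) / s' := by
      gcongr
      rw [neg_div] at hexp ⊢
      linarith
    have e : (1 - z ^ 2 / (4 * u)) / s' = 1 / s' - (z ^ 2 / (4 * u)) / s' := by ring
    linarith
  have e2 : 1 / s - 1 / s' ≤ (τ / (2 * u)) / s := by
    rw [div_sub_div _ _ hs0.ne' hs0'.ne', one_mul, mul_one, div_div, div_le_div_iff₀ (by positivity)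
      (by positivity)]
    have h4 : (s' - s) * (s' + s) = 4 * Real.pi * τ := by nlinarith
    have h5 : (s' - s) * (2 * s ^ 2) ≤ (s' - s) * ((s' + s) * s') := by
      apply mul_le_mul_of_nonneg_left _ (by linarith)
      nlinarith
    have h6 : (s' - s) * (2 * s ^ 2) ≤ 4 * Real.pi * τ * s' := by
      calc _ ≤ _ := h5
        _ = ((s' - s) * (s' + s)) * s' := by ring
        _ = _ := by rw [h4]
    rw [hsq] at h6
    have h7 : (s' - s) * (2 * u) ≤ τ * s' := by
      have : 4 * Real.pi * ((s' - s) * (2 * u)) ≤ 4 * Real.pi * (τ * s') := by nlinarith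
      exact le_of_mul_le_mul_left this (by positivity)
    nlinarith
  have e3 : (z ^ 2 / (4 * u)) / s' ≤ (z ^ 2 / (4 * u)) / s := by
    gcongr
  have e4 : u ^ (-(3/2) : ℝ) = 1 / (u * Real.sqrt u) := by
    rw [Real.rpow_neg hu.le, one_div, Real.sqrt_eq_rpow]
    congr 1
    rw [show (3/2 : ℝ) = 1 + 1/2 by norm_num, Real.rpow_add hu, Real.rpow_one]
  have hsu : Real.sqrt u ≤ s := Real.sqrt_le_sqrt (by nlinarith)
  have hsu0 : 0 < Real.sqrt u := Real.sqrt_pos.mpr hu
  calc _ ≤ _ := e1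
    _ ≤ (τ / (2 * u)) / s + (z ^ 2 / (4 * u)) / s := add_le_add e2 e3
    _ = ((τ / 2 + z ^ 2 / 4) / u) / s := by field_simp
    _ ≤ ((τ / 2 + z ^ 2 / 4) / u) / Real.sqrt u := by gcongr
    _ ≤ ((τ + z ^ 2) / u) / Real.sqrt u := by
        gcongr
        · linarith
        · nlinarith [sq_nonneg z]
    _ = _ := by rw [e4]; field_simp

lemma measurable_Vint (τ z : ℝ) : Measurable (Vint τ z) := by
  unfold Vint
  have := measurable_heatKernel
  exact (this.comp (measurable_id.prodMk measurable_const)).sub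
    (this.comp ((measurable_id.add_const τ).prodMk measurable_const))

lemma integrableOn_Vint {τ : ℝ} (hτ : 0 ≤ τ) (z : ℝ) : IntegrableOn (Vint τ z) (Ioi 0) := by
  rw [← Ioc_union_Ioi_eq_Ioi (zero_le_one' ℝ)]
  refine IntegrableOn.union ?_ ?_
  · have h : IntegrableOn (fun u : ℝ => u ^ (-(1/2) : ℝ)) (Ioc 0 1) := by
      rw [← intervalIntegrable_iff_integrableOn_Ioc_of_le zero_le_one]
      exact intervalIntegral.intervalIntegrable_rpow' (by norm_num)
    refine Integrable.mono' h (measurable_Vint τ z).aestronglyMeasurable ?_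
    refine (ae_restrict_mem measurableSet_Ioc).mono fun u hu => ?_
    rw [Real.norm_eq_abs, abs_of_nonneg (Vint_nonneg hτ hu.1 z)]
    exact Vint_le_one hu.1 z
  · have h : IntegrableOn (fun u : ℝ => (τ + z ^ 2) * u ^ (-(3/2) : ℝ)) (Ioi 1) :=
      (integrableOn_Ioi_rpow_of_lt (by norm_num) zero_lt_one).const_mul _
    refine Integrable.mono' h (measurable_Vint τ z).aestronglyMeasurable ?_
    refine (ae_restrict_mem measurableSet_Ioi).mono fun u hu => ?_
    have hu0 : (0:ℝ) < u := lt_trans zero_lt_one hu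
    rw [Real.norm_eq_abs, abs_of_nonneg (Vint_nonneg hτ hu0 z)]
    exact Vint_le_two hτ hu0 z

/-- The variance function of the string. -/
noncomputable def Vf (τ z : ℝ) : ℝ := ∫ u in Ioi (0:ℝ), Vint τ z u

lemma Vf_nonneg {τ : ℝ} (hτ : 0 ≤ τ) (z : ℝ) : 0 ≤ Vf τ z :=
  setIntegral_nonneg measurableSet_Ioi fun _ hu => Vint_nonneg hτ hu z

lemma Vf_neg (τ z : ℝ) : Vf τ (-z) = Vf τ z := by
  unfold Vf Vint; simp_rw [heatKernel_neg]

lemma Vf_abs (τ z : ℝ) : Vf τ |z| = Vf τ z := by
  rcases abs_choice z with h | h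
  · rw [h]
  · rw [h, Vf_neg]

lemma Vf_zero_zero : Vf 0 0 = 0 := by
  unfold Vf Vint; simp

end Pool.Agent.H99.Str
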