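import Pool.Agent.H99.StrA

/-!
The variance function of the stationary pinned string: exact relations and bounds.
-/

open MeasureTheory ProbabilityTheory Set Filter Topology
open scoped NNReal ENNReal Interval

namespace Pool.Agent.H99.Str

lemma intervalIntegrable_heatKernel (z : ℝ) {a b : ℝ} (ha : 0 ≤ a) (hb : 0 ≤ b) :
    IntervalIntegrable (fun v => heatKernel v z) volume a b := by
  have h : IntervalIntegrable (fun v : ℝ => v ^ (-(1/2) : ℝ)) volume a b :=
    intervalIntegral.intervalIntegrable_rpow' (by norm_num)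
  refine h.mono_fun ?_ ?_
  · exact (measurable_heatKernel.comp (measurable_id.prodMk measurable_const)).aestronglyMeasurable
  · refine (ae_restrict_mem measurableSet_uIoc).mono fun v hv => ?_
    have hv0 : 0 < v := by
      rcases Set.mem_uIoc.mp hv with h | h
      · linarith [h.1]
      · linarith [h.1]
    show ‖heatKernel v z‖ ≤ ‖v ^ (-(1/2) : ℝ)‖
    rw [Real.norm_eq_abs, abs_of_nonneg (heatKernel_nonneg v z), Real.norm_eq_abs,
      abs_of_nonneg (by positivity)]
    exact heatKernel_le_rpow hv0 z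

lemma Vf_sub {a b : ℝ} (ha : 0 ≤ a) (hab : a ≤ b) (z : ℝ) :
    Vf b z - Vf a z = ∫ v in a..b, heatKernel v z := by
  have hb : 0 ≤ b := ha.trans hab
  have hia := integrableOn_Vint ha z
  have hib := integrableOn_Vint hb z
  have hint : IntegrableOn (fun u => heatKernel (u + a) z - heatKernel (u + b) z) (Ioi 0) := by
    have := hib.sub hia
    refine this.congr (Eventually.of_forall fun u => ?_)
    simp only [Vint, Pi.sub_apply]; ring
  have h1 : Vf b z - Vf a z = ∫ u in Ioi (0:ℝ), (heatKernel (u + a) z - heatKernel (u + b) z) := by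
    unfold Vf
    rw [← integral_sub hib hia]
    refine integral_congr_ae (Eventually.of_forall fun u => ?_)
    simp only [Vint]; ring
  have h2 := intervalIntegral_tendsto_integral_Ioi 0 hint tendsto_id
  rw [← h1] at h2
  have h3 : ∀ R : ℝ, 0 ≤ R → ∫ u in (0:ℝ)..R, (heatKernel (u + a) z - heatKernel (u + b) z) =
      (∫ v in a..b, heatKernel v z) - ∫ v in (R + a)..(R + b), heatKernel v z := by
    intro R hR
    have i1 : IntervalIntegrable (fun u => heatKernel (u + a) z) volume 0 R := by
      have := (intervalIntegrable_heatKernel z ha (show 0 ≤ R + a by positivity)).comp_add_right a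
      simpa using this
    have i2 : IntervalIntegrable (fun u => heatKernel (u + b) z) volume 0 R := by
      have := (intervalIntegrable_heatKernel z hb (show 0 ≤ R + b by positivity)).comp_add_right b
      simpa using this
    rw [intervalIntegral.integral_sub i1 i2,
      intervalIntegral.integral_comp_add_right (fun v => heatKernel v z) a,
      intervalIntegral.integral_comp_add_right (fun v => heatKernel v z) b]
    rw [zero_add, zero_add]
    have j1 := intervalIntegrable_heatKernel z ha (show 0 ≤ R + a by positivity)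
    have j2 := intervalIntegrable_heatKernel z hb (show 0 ≤ R + b by positivity)
    have j3 := intervalIntegrable_heatKernel z ha hb
    have j4 := intervalIntegrable_heatKernel z (show 0 ≤ R + a by positivity)
      (show 0 ≤ R + b by positivity)
    have e1 := intervalIntegral.integral_add_adjacent_intervals j1 j4
    have e2 := intervalIntegral.integral_add_adjacent_intervals j3 j2
    linarith
  have h4 : Tendsto (fun R : ℝ => (∫ v in a..b, heatKernel v z) -
      ∫ v in (R + a)..(R + b), heatKernel v z) atTop (𝓝 ((∫ v in a..b, heatKernel v z) - 0)) := by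
    refine tendsto_const_nhds.sub ?_
    have hlim : Tendsto (fun R : ℝ => R ^ (-(1/2) : ℝ) * (b - a)) atTop (𝓝 (0 * (b - a))) :=
      (tendsto_rpow_neg_atTop (by norm_num)).mul_const _
    rw [zero_mul] at hlim
    refine squeeze_zero_norm' ?_ hlim
    filter_upwards [eventually_gt_atTop 0] with R hR
    have := intervalIntegral.norm_integral_le_of_norm_le_const (a := R + a) (b := R + b)
      (f := fun v => heatKernel v z) (C := R ^ (-(1/2) : ℝ)) ?_
    · refine this.trans (le_of_eq ?_)
      congr 1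
      rw [show R + b - (R + a) = b - a by ring, abs_of_nonneg (by linarith)]
    · intro v hv
      rw [Set.uIoc_of_le (by linarith)] at hv
      have hRv : R ≤ v := by linarith [hv.1]
      have hv0 : 0 < v := by linarith
      rw [Real.norm_eq_abs, abs_of_nonneg (heatKernel_nonneg v z)]
      refine (heatKernel_le_rpow hv0 z).trans ?_
      exact Real.rpow_le_rpow_of_nonpos hR hRv (by norm_num)
  rw [sub_zero] at h4
  refine tendsto_nhds_unique h2 ?_
  refine h4.congr' ?_
  filter_upwards [eventually_ge_atTop 0] with R hR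
  exact (h3 R hR).symm

lemma Vf_mono_time {a b : ℝ} (ha : 0 ≤ a) (hab : a ≤ b) (z : ℝ) : Vf a z ≤ Vf b z := by
  have := Vf_sub ha hab z
  have h : 0 ≤ ∫ v in a..b, heatKernel v z :=
    intervalIntegral.integral_nonneg hab fun v _ => heatKernel_nonneg v z
  linarith

/-- `∫_a^b G_v(0) dv = (√b - √a)/√π`. -/
lemma integral_heatKernel_zero {a b : ℝ} (ha : 0 ≤ a) (hab : a ≤ b) :
    ∫ v in a..b, heatKernel v 0 = (Real.sqrt b - Real.sqrt a) / Real.sqrt Real.pi := by
  have hb : 0 ≤ b := ha.trans hab
  have hpi := Real.pi_pos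
  have e : ∀ v ∈ uIcc a b, heatKernel v 0 = (1 / (2 * Real.sqrt Real.pi)) * v ^ (-(1/2) : ℝ) := by
    intro v hv
    rw [uIcc_of_le hab] at hv
    have hv0 : 0 ≤ v := ha.trans hv.1
    rw [heatKernel_zero_right, Real.rpow_neg hv0, ← Real.sqrt_eq_rpow,
      Real.sqrt_mul (by positivity), Real.sqrt_mul (by norm_num), show (4:ℝ) = 2 ^ 2 by norm_num,
      Real.sqrt_sq (by norm_num)]
    rw [← one_div, ← mul_div_mul_comm]
    norm_num
  rw [intervalIntegral.integral_congr e, intervalIntegral.integral_const_mul,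
    integral_rpow (Or.inl (by norm_num))]
  rw [show (-(1/2) + 1 : ℝ) = 1/2 by norm_num, ← Real.sqrt_eq_rpow, ← Real.sqrt_eq_rpow]
  have : Real.sqrt Real.pi ≠ 0 := by positivity
  field_simp

lemma integral_heatKernel_le {a b : ℝ} (ha : 0 ≤ a) (hab : a ≤ b) (z : ℝ) :
    ∫ v in a..b, heatKernel v z ≤ (Real.sqrt b - Real.sqrt a) / Real.sqrt Real.pi := by
  rw [← integral_heatKernel_zero ha hab]
  have hb : 0 ≤ b := ha.trans hab
  refine intervalIntegral.integral_mono_on_of_le_Ioo hab (intervalIntegrable_heatKernel z ha hb)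
    (intervalIntegrable_heatKernel 0 ha hb) fun v hv => ?_
  exact heatKernel_le_zero (lt_of_le_of_lt ha hv.1) z

/-- the constant `κ = V(0,1)` (it equals `1/2`). -/
noncomputable def kap : ℝ := Vf 0 1

lemma Vf_zero_left (z : ℝ) : Vf 0 z = kap * |z| := by
  rcases eq_or_ne z 0 with rfl | hz
  · simp [Vf_zero_zero]
  have hz2 : 0 < z ^ 2 := by positivity
  unfold kap Vf
  have h := integral_comp_mul_left_Ioi (fun u => Vint 0 z u) 0 hz2
  rw [mul_zero] at h
  have h2 : ∀ w ∈ Ioi (0:ℝ), Vint 0 z (z ^ 2 * w) = |z|⁻¹ * Vint 0 1 w := by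
    intro w hw
    have hw0 : (0:ℝ) < w := hw
    have hpi := Real.pi_pos
    have habs : Real.sqrt (z ^ 2) = |z| := Real.sqrt_sq_eq_abs z
    have hsq : Real.sqrt (4 * Real.pi * (z ^ 2 * w)) = |z| * Real.sqrt (4 * Real.pi * w) := by
      rw [show 4 * Real.pi * (z ^ 2 * w) = z ^ 2 * (4 * Real.pi * w) by ring,
        Real.sqrt_mul hz2.le, habs]
    have hex : -(z ^ 2) / (4 * (z ^ 2 * w)) = -(1 ^ 2) / (4 * w) := by
      field_simp
    simp only [Vint, heatKernel, add_zero]
    rw [hsq, hex]
    have h0 : |z| ≠ 0 := abs_ne_zero.mpr hz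
    have h1 : Real.sqrt (4 * Real.pi * w) ≠ 0 := by positivity
    field_simp
    simp
  rw [setIntegral_congr_fun measurableSet_Ioi h2, integral_const_mul, smul_eq_mul] at h
  have h0 : |z| ≠ 0 := abs_ne_zero.mpr hz
  have h3 : z ^ 2 = |z| * |z| := by rw [← sq, sq_abs]
  rw [h3] at h
  field_simp at h
  linarith

lemma kap_pos : 0 < kap := by
  unfold kap Vf
  have hint := integrableOn_Vint (le_refl (0:ℝ)) 1
  rw [setIntegral_pos_iff_support_of_nonneg_ae]
  · have hsub : Ioi (0:ℝ) ⊆ Function.support (Vint 0 1) ∩ Ioi 0 := by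
      intro u hu
      refine ⟨?_, hu⟩
      have hu0 : (0:ℝ) < u := hu
      have hpi := Real.pi_pos
      have : heatKernel (u + 0) 1 < heatKernel u 0 := by
        unfold heatKernel
        rw [add_zero]
        have : 0 < Real.sqrt (4 * Real.pi * u) := Real.sqrt_pos.mpr (by positivity)
        apply div_lt_div_of_pos_right _ this
        apply Real.exp_lt_exp.mpr
        simp only [one_pow, ne_eq, OfNat.ofNat_ne_zero, not_false_eq_true, zero_pow, neg_zero,
          zero_div]
        apply div_neg_of_neg_of_pos <;> linarith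
      simp only [Function.mem_support, Vint]
      linarith
    refine lt_of_lt_of_le ?_ (measure_mono hsub)
    simp
  · exact (ae_restrict_mem measurableSet_Ioi).mono fun u hu => Vint_nonneg le_rfl hu 1
  · exact hint

lemma Vf_eq {τ : ℝ} (hτ : 0 ≤ τ) (z : ℝ) : Vf τ z = kap * |z| + ∫ v in (0:ℝ)..τ, heatKernel v z := by
  have := Vf_sub le_rfl hτ z
  rw [Vf_zero_left] at this
  linarith

lemma Vf_le {τ : ℝ} (hτ : 0 ≤ τ) (z : ℝ) : Vf τ z ≤ kap * |z| + Real.sqrt τ / Real.sqrt Real.pi := by
  rw [Vf_eq hτ z]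
  have := integral_heatKernel_le le_rfl hτ z
  simp only [Real.sqrt_zero, sub_zero] at this
  linarith

lemma Vf_ge_space {τ : ℝ} (hτ : 0 ≤ τ) (z : ℝ) : kap * |z| ≤ Vf τ z := by
  rw [← Vf_zero_left]; exact Vf_mono_time le_rfl hτ z

lemma Vf_mono_space {τ : ℝ} (hτ : 0 ≤ τ) {z z' : ℝ} (h : |z| ≤ |z'|) : Vf τ z ≤ Vf τ z' := by
  unfold Vf
  refine setIntegral_mono_on (integrableOn_Vint hτ z) (integrableOn_Vint hτ z') measurableSet_Ioi
    fun u hu => ?_
  have hu0 : (0:ℝ) < u := hu
  have := heatKernel_anti_abs (t := u + τ) (by positivity) h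
  simp only [Vint]; linarith

lemma Vf_ge_time {τ : ℝ} (hτ : 0 ≤ τ) (z : ℝ) : Real.sqrt τ / Real.sqrt Real.pi ≤ Vf τ z := by
  refine le_trans (le_of_eq ?_) (Vf_mono_space hτ (z := 0) (z' := z) (by simp))
  have h := Vf_sub le_rfl hτ 0
  rw [Vf_zero_zero, integral_heatKernel_zero le_rfl hτ] at h
  simp only [Real.sqrt_zero, sub_zero] at h
  exact h.symm

lemma Vf_space_lip {τ : ℝ} (hτ : 0 ≤ τ) (z z' : ℝ) : |Vf τ z - Vf τ z'| ≤ kap * |z - z'| := by
  have hk := kap_pos
  have main : ∀ a b : ℝ, |a| ≤ |b| → Vf τ b - Vf τ a ≤ kap * (|b| - |a|) := by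
    intro a b hab
    rw [Vf_eq hτ a, Vf_eq hτ b]
    have : ∫ v in (0:ℝ)..τ, heatKernel v b ≤ ∫ v in (0:ℝ)..τ, heatKernel v a := by
      refine intervalIntegral.integral_mono_on_of_le_Ioo hτ
        (intervalIntegrable_heatKernel b le_rfl hτ)
        (intervalIntegrable_heatKernel a le_rfl hτ) fun v hv => ?_
      exact heatKernel_anti_abs hv.1 hab
    linarith
  have htri : ∀ a b : ℝ, |b| - |a| ≤ |b - a| := fun a b => abs_sub_abs_le_abs_sub b a
  rcases le_total |z| |z'| with h | h
  · have h1 := main z z' h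
    have h2 := Vf_mono_space hτ h
    have h3 : kap * (|z'| - |z|) ≤ kap * |z - z'| := by
      rw [abs_sub_comm z z']
      exact mul_le_mul_of_nonneg_left (htri z z') hk.le
    rw [abs_sub_comm, abs_of_nonneg (by linarith)]
    linarith
  · have h1 := main z' z h
    have h2 := Vf_mono_space hτ h
    have h3 : kap * (|z| - |z'|) ≤ kap * |z - z'| :=
      mul_le_mul_of_nonneg_left (htri z' z) hk.le
    rw [abs_of_nonneg (by linarith)]
    linarith

lemma Vf_time_lip {a b : ℝ} (ha : 0 ≤ a) (hb : 0 ≤ b) (z : ℝ) :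
    |Vf a z - Vf b z| ≤ Real.sqrt |a - b| / Real.sqrt Real.pi := by
  have main : ∀ a b : ℝ, 0 ≤ a → a ≤ b → Vf b z - Vf a z ≤ Real.sqrt (b - a) / Real.sqrt Real.pi := by
    intro a b ha hab
    rw [Vf_sub ha hab]
    refine (integral_heatKernel_le ha hab z).trans ?_
    have hb : 0 ≤ b := ha.trans hab
    have : Real.sqrt b ≤ Real.sqrt a + Real.sqrt (b - a) := by
      rw [Real.sqrt_le_left (by positivity)]
      have h1 := Real.sq_sqrt ha
      have h2 := Real.sq_sqrt (show 0 ≤ b - a by linarith)
      have h3 : 0 ≤ Real.sqrt a * Real.sqrt (b - a) := by positivity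
      nlinarith
    gcongr
    linarith
  rcases le_total a b with h | h
  · have h1 := main a b ha h
    have h2 := Vf_mono_time ha h z
    rw [abs_sub_comm, abs_of_nonneg (by linarith), abs_sub_comm a b, abs_of_nonneg (by linarith)]
    linarith
  · have h1 := main b a hb h
    have h2 := Vf_mono_time hb h z
    rw [abs_of_nonneg (by linarith), abs_of_nonneg (show 0 ≤ a - b by linarith)]
    linarith

end Pool.Agent.H99.Str
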