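import Pool.Agent.H99.StrB

/-!
The covariance of the stationary pinned string in terms of the variance function.
-/

open MeasureTheory ProbabilityTheory Set Filter Topology
open scoped NNReal ENNReal Interval

namespace Pool.Agent.H99.Str

lemma integrable_heatKernel {t : ℝ} (ht : 0 < t) (x : ℝ) :
    Integrable (fun y => heatKernel t (x - y)) := by
  have h : Integrable (fun y => heatKernel t y) := by
    unfold heatKernel
    refine Integrable.div_const ?_ _
    have := integrable_exp_neg_mul_sq (b := 1 / (4 * t)) (by positivity)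
    refine this.congr (Eventually.of_forall fun y => ?_)
    show Real.exp _ = Real.exp _
    congr 1; ring
  exact h.comp_sub_left x

lemma integral_heatKernel_one {t : ℝ} (ht : 0 < t) (x : ℝ) :
    ∫ y : ℝ, heatKernel t (x - y) = 1 := by
  rw [integral_sub_left_eq_self (fun y => heatKernel t y)]
  unfold heatKernel
  rw [integral_div]
  have hpi := Real.pi_pos
  have : ∀ y : ℝ, Real.exp (-(y ^ 2) / (4 * t)) = Real.exp (-(1 / (4 * t)) * y ^ 2) := by
    intro y; congr 1; ring
  simp_rw [this]
  rw [integral_gaussian]
  rw [show Real.pi / (1 / (4 * t)) = 4 * Real.pi * t by field_simp]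
  exact div_self (Real.sqrt_ne_zero'.mpr (by positivity))

lemma integrable_heatKernel_mul {a b : ℝ} (ha : 0 < a) (hb : 0 < b) (x y : ℝ) :
    Integrable (fun z => heatKernel a (x - z) * heatKernel b (y - z)) := by
  refine (integrable_heatKernel hb y).bdd_mul (c := heatKernel a 0) ?_ ?_
  · exact ((continuous_heatKernel_space a).comp (continuous_const.sub continuous_id)).aestronglyMeasurable
  · refine Eventually.of_forall fun z => ?_
    rw [Real.norm_eq_abs, abs_of_nonneg (heatKernel_nonneg _ _)]
    exact heatKernel_le_zero ha _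

lemma initKernel_eq {t r : ℝ} (ht : 0 ≤ t) (hr : 0 < r) (x z : ℝ) :
    initKernel t x r z = heatKernel (t + r) (x - z) - heatKernel r (0 - z) := by
  have h0 : heatKernel r (0 - z) = heatKernel r z := by rw [zero_sub, heatKernel_neg]
  unfold initKernel
  split_ifs with h
  · rw [h, zero_add, h0]
  · have ht' : 0 < t := lt_of_le_of_ne ht (Ne.symm h)
    have e : ∀ y : ℝ, heatKernel t (x - y) * (heatKernel r (y - z) - heatKernel r z) =
        heatKernel t (x - y) * heatKernel r (z - y) - heatKernel t (x - y) * heatKernel r z := by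
      intro y; rw [heatKernel_sub_comm r y z]; ring
    simp_rw [e]
    rw [integral_sub (integrable_heatKernel_mul ht' hr x z)
      ((integrable_heatKernel ht' x).mul_const _), integral_heatKernel_mul ht' hr,
      integral_mul_const, integral_heatKernel_one ht', one_mul, h0]

lemma integral_initKernel_mul {t s r : ℝ} (ht : 0 ≤ t) (hs : 0 ≤ s) (hr : 0 < r) (x y : ℝ) :
    ∫ z : ℝ, initKernel t x r z * initKernel s y r z =
      Vint t x (2 * r) + Vint s y (2 * r) - Vint (t + s) (x - y) (2 * r) := by
  have htr : 0 < t + r := by positivity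
  have hsr : 0 < s + r := by positivity
  have e : ∀ z : ℝ, initKernel t x r z * initKernel s y r z =
      heatKernel (t + r) (x - z) * heatKernel (s + r) (y - z)
        - heatKernel (t + r) (x - z) * heatKernel r (0 - z)
        - heatKernel (s + r) (y - z) * heatKernel r (0 - z)
        + heatKernel r (0 - z) * heatKernel r (0 - z) := by
    intro z
    rw [initKernel_eq ht hr, initKernel_eq hs hr]; ring
  simp_rw [e]
  have i1 := integrable_heatKernel_mul htr hsr x y
  have i2 := integrable_heatKernel_mul htr hr x 0
  have i3 := integrable_heatKernel_mul hsr hr y 0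
  have i4 := integrable_heatKernel_mul hr hr 0 0
  have i12 : Integrable (fun z => heatKernel (t + r) (x - z) * heatKernel (s + r) (y - z)
        - heatKernel (t + r) (x - z) * heatKernel r (0 - z)) := i1.sub i2
  have i123 : Integrable (fun z => heatKernel (t + r) (x - z) * heatKernel (s + r) (y - z)
        - heatKernel (t + r) (x - z) * heatKernel r (0 - z)
        - heatKernel (s + r) (y - z) * heatKernel r (0 - z)) := i12.sub i3
  rw [integral_add i123 i4, integral_sub i12 i3, integral_sub i1 i2,
    integral_heatKernel_mul htr hsr, integral_heatKernel_mul htr hr, integral_heatKernel_mul hsr hr,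
    integral_heatKernel_mul hr hr]
  unfold Vint
  rw [sub_zero, sub_zero, sub_zero, show t + r + (s + r) = 2 * r + (t + s) by ring,
    show t + r + r = 2 * r + t by ring, show s + r + r = 2 * r + s by ring,
    show r + r = 2 * r by ring]
  ring

lemma initCov_eq {t s : ℝ} (ht : 0 ≤ t) (hs : 0 ≤ s) (x y : ℝ) :
    ∫ r in Ioi (0:ℝ), ∫ z : ℝ, initKernel t x r z * initKernel s y r z =
      (Vf t x + Vf s y - Vf (t + s) (x - y)) / 2 := by
  have h1 : ∫ r in Ioi (0:ℝ), ∫ z : ℝ, initKernel t x r z * initKernel s y r z =
      ∫ r in Ioi (0:ℝ), (fun u => Vint t x u + Vint s y u - Vint (t + s) (x - y) u) (2 * r) :=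
    setIntegral_congr_fun measurableSet_Ioi fun r hr => integral_initKernel_mul ht hs hr x y
  rw [h1, integral_comp_mul_left_Ioi (fun u => Vint t x u + Vint s y u - Vint (t + s) (x - y) u) 0
    (by norm_num : (0:ℝ) < 2)]
  have i1 := integrableOn_Vint ht x
  have i2 := integrableOn_Vint hs y
  have i3 := integrableOn_Vint (add_nonneg ht hs) (x - y)
  have i12 : IntegrableOn (fun u => Vint t x u + Vint s y u) (Ioi 0) := i1.add i2
  rw [mul_zero, integral_sub i12 i3, integral_add i1 i2, smul_eq_mul]
  unfold Vf
  ring

lemma integral_noiseKernel_mul {t s : ℝ} (r : ℝ) (x y : ℝ) :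
    ∫ z : ℝ, noiseKernel t x r z * noiseKernel s y r z =
      if r < min t s then heatKernel (t + s - 2 * r) (x - y) else 0 := by
  unfold noiseKernel
  by_cases h1 : r < t
  · by_cases h2 : r < s
    · simp only [h1, h2, if_true, lt_min_iff, and_self]
      rw [integral_heatKernel_mul (by linarith) (by linarith)]
      congr 1; ring
    · simp [h1, h2]
  · simp [h1]

lemma noiseCov_eq {t s : ℝ} (ht : 0 ≤ t) (hs : 0 ≤ s) (x y : ℝ) :
    ∫ r in Ioi (0:ℝ), ∫ z : ℝ, noiseKernel t x r z * noiseKernel s y r z =
      (Vf (t + s) (x - y) - Vf |t - s| (x - y)) / 2 := by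
  simp_rw [integral_noiseKernel_mul]
  have hm : 0 ≤ min t s := le_min ht hs
  have h1 : ∫ r in Ioi (0:ℝ), (if r < min t s then heatKernel (t + s - 2 * r) (x - y) else 0) =
      ∫ r in Ioi (0:ℝ), (Iio (min t s)).indicator (fun r => heatKernel (t + s - 2 * r) (x - y)) r := by
    congr 1
  rw [h1, setIntegral_indicator measurableSet_Iio, Ioi_inter_Iio, ← integral_Ioc_eq_integral_Ioo,
    ← intervalIntegral.integral_of_le hm]
  rw [intervalIntegral.integral_comp_sub_mul (fun v => heatKernel v (x - y)) (by norm_num : (2:ℝ) ≠ 0)]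
  have e1 : t + s - 2 * min t s = |t - s| := by
    rcases le_total t s with h | h
    · rw [min_eq_left h, abs_sub_comm, abs_of_nonneg (by linarith)]; ring
    · rw [min_eq_right h, abs_of_nonneg (by linarith)]; ring
  rw [e1, mul_zero, sub_zero, ← Vf_sub (abs_nonneg _), smul_eq_mul]
  · ring
  · rw [abs_le]; constructor <;> linarith

/-- The covariance of the string. -/
lemma stringCov_eq {t s : ℝ} (ht : 0 ≤ t) (hs : 0 ≤ s) (x y : ℝ) :
    stringCov t x s y = (Vf t x + Vf s y - Vf |t - s| (x - y)) / 2 := by
  unfold stringCov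
  rw [initCov_eq ht hs, noiseCov_eq ht hs]
  ring

end Pool.Agent.H99.Str
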