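import Pool.Agent.H99.StrE

/-!
Small ball estimate on a space-time cell.
-/

open MeasureTheory ProbabilityTheory Set Filter Topology
open scoped NNReal ENNReal Interval

namespace Pool.Agent.H99.Str

variable {Ω : Type*} [MeasurableSpace Ω] {P : Measure Ω} {d : ℕ}

/-- regression coefficient -/
noncomputable def alph (q0 q : ℝ≥0 × ℝ) : ℝ := KK q q0 / Vq q0

/-- coefficient vectors: `none` is the value at `q0`, `some q` the residual at `q`. -/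
noncomputable def cc (q0 : ℝ≥0 × ℝ) : Option (ℝ≥0 × ℝ) → (ℝ≥0 × ℝ) →₀ ℝ
  | none => Finsupp.single q0 1
  | some q => Finsupp.single q 1 - (alph q0 q) • Finsupp.single q0 1

/-- grid points of a cell -/
noncomputable def gpt (F : ℝ≥0) (q0 : ℝ≥0 × ℝ) (j a b : ℕ) : ℝ≥0 × ℝ :=
  (q0.1 + F ^ 4 * ((a : ℝ≥0) / 4 ^ j), q0.2 + (F : ℝ) ^ 2 * ((b : ℝ) / 2 ^ j))

/-- residual field -/
noncomputable def Yf (X : Fin d → ℝ≥0 × ℝ → Ω → ℝ) (q0 : ℝ≥0 × ℝ) (i : Fin d) (q : ℝ≥0 × ℝ) (ω : Ω) : ℝ :=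
  lc (fun q => X i q ω) (cc q0 (some q))

omit [MeasurableSpace Ω] in
lemma Yf_eq (X : Fin d → ℝ≥0 × ℝ → Ω → ℝ) (q0 : ℝ≥0 × ℝ) (i : Fin d) (q : ℝ≥0 × ℝ) (ω : Ω) :
    Yf X q0 i q ω = X i q ω - alph q0 q * X i q0 ω := by
  simp [Yf, cc, lc_sub]

lemma GP.cg_lc {X : Fin d → ℝ≥0 × ℝ → Ω → ℝ} (h : GP X KK P) (i : Fin d) (u : (ℝ≥0 × ℝ) →₀ ℝ) :
    CG (fun ω => lc (fun q => X i q ω) u) (BK KK u u) P :=
  (h.comb (fun _ : Unit => u)).cg i ()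

lemma BK_inc_le {q0 : ℝ≥0 × ℝ} (h0 : 0 < Vq q0) (q r : ℝ≥0 × ℝ) :
    BK KK (cc q0 (some q) - cc q0 (some r)) (cc q0 (some q) - cc q0 (some r)) ≤ Vd q r := by
  simp only [cc, map_sub, map_smul, BK_single_single, smul_eq_mul, LinearMap.sub_apply,
    LinearMap.smul_apply, one_mul, KK_self, KK_comm q0 q, KK_comm q0 r, KK_comm r q]
  have hq : KK q q0 = alph q0 q * Vq q0 := by unfold alph; field_simp
  have hr : KK r q0 = alph q0 r * Vq q0 := by unfold alph; field_simp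
  have hqr : KK q r = (Vq q + Vq r - Vd q r) / 2 := rfl
  rw [hq, hr, hqr]
  nlinarith [mul_nonneg (sq_nonneg (alph q0 q - alph q0 r)) h0.le]

lemma BK_res_zero {q0 : ℝ≥0 × ℝ} (h0 : 0 < Vq q0) (q : ℝ≥0 × ℝ) :
    BK KK (cc q0 none) (cc q0 (some q)) = 0 := by
  simp only [cc, map_sub, map_smul, BK_single_single, smul_eq_mul, one_mul, KK_self,
    KK_comm q0 q]
  have hq : KK q q0 = alph q0 q * Vq q0 := by unfold alph; field_simp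
  rw [hq]; ring

lemma inc_moment {X : Fin d → ℝ≥0 × ℝ → Ω → ℝ} (h : GP X KK P) {q0 : ℝ≥0 × ℝ} (h0 : 0 < Vq q0)
    (i : Fin d) (q r : ℝ≥0 × ℝ) (p : ℕ) :
    ∫⁻ ω, ‖Yf X q0 i q ω - Yf X q0 i r ω‖ₑ ^ p ∂P ≤ gaussMom p * ENNReal.ofReal (Real.sqrt (Vd q r)) ^ p := by
  have h1 := (h.cg_lc i (cc q0 (some q) - cc q0 (some r))).moment p
  simp only [lc_sub] at h1
  unfold Yf
  rw [h1]
  gcongr
  exact BK_inc_le h0 q r

lemma Vd_gpt_le (F : ℝ≥0) (q0 : ℝ≥0 × ℝ) (j a b : ℕ) :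
    Vd (gpt F q0 (j + 1) a b) (gpt F q0 j (a / 4) (b / 2)) ≤ (kap + 1) * (F : ℝ) ^ 2 * (1 / 2) ^ (j + 1) := by
  have hk := kap_pos
  have hpi := Real.pi_gt_three
  unfold Vd gpt
  simp only [NNReal.coe_add, NNReal.coe_mul, NNReal.coe_pow, NNReal.coe_div, NNReal.coe_natCast,
    NNReal.coe_ofNat]
  have ea : (a : ℝ) = 4 * ((a / 4 : ℕ) : ℝ) + ((a % 4 : ℕ) : ℝ) := by
    exact_mod_cast (Nat.div_add_mod a 4).symm
  have eb : (b : ℝ) = 2 * ((b / 2 : ℕ) : ℝ) + ((b % 2 : ℕ) : ℝ) := by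
    exact_mod_cast (Nat.div_add_mod b 2).symm
  have ra : ((a % 4 : ℕ) : ℝ) ≤ 3 := by
    exact_mod_cast Nat.le_of_lt_succ (Nat.mod_lt a (by norm_num))
  have rb : ((b % 2 : ℕ) : ℝ) ≤ 1 := by
    exact_mod_cast Nat.le_of_lt_succ (Nat.mod_lt b (by norm_num))
  have ra0 : (0:ℝ) ≤ ((a % 4 : ℕ) : ℝ) := by positivity
  have rb0 : (0:ℝ) ≤ ((b % 2 : ℕ) : ℝ) := by positivity
  have e1 : (q0.1 : ℝ) + (F:ℝ) ^ 4 * ((a:ℝ) / 4 ^ (j + 1)) -
      ((q0.1 : ℝ) + (F:ℝ) ^ 4 * (((a / 4 : ℕ) : ℝ) / 4 ^ j)) =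
      (F:ℝ) ^ 4 * (((a % 4 : ℕ) : ℝ) / 4 ^ (j + 1)) := by
    rw [ea, pow_succ]
    have h4 : (4:ℝ) ^ j ≠ 0 := by positivity
    generalize ((a / 4 : ℕ) : ℝ) = A
    generalize ((a % 4 : ℕ) : ℝ) = R
    field_simp
    ring
  have e2 : q0.2 + (F:ℝ) ^ 2 * ((b:ℝ) / 2 ^ (j + 1)) - (q0.2 + (F:ℝ) ^ 2 * (((b / 2 : ℕ) : ℝ) / 2 ^ j)) =
      (F:ℝ) ^ 2 * (((b % 2 : ℕ) : ℝ) / 2 ^ (j + 1)) := by
    rw [eb, pow_succ]
    have h4 : (2:ℝ) ^ j ≠ 0 := by positivity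
    generalize ((b / 2 : ℕ) : ℝ) = A
    generalize ((b % 2 : ℕ) : ℝ) = R
    field_simp
    ring
  rw [e1, e2, abs_of_nonneg (by positivity)]
  refine (Vf_le (by positivity) _).trans ?_
  rw [abs_of_nonneg (by positivity)]
  have h1 : Real.sqrt ((F:ℝ) ^ 4 * (((a % 4 : ℕ) : ℝ) / 4 ^ (j + 1))) / Real.sqrt Real.pi ≤
      (F:ℝ) ^ 2 * (1 / 2) ^ (j + 1) := by
    rw [← Real.sqrt_div (by positivity), Real.sqrt_le_left (by positivity)]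
    have e3 : ((F:ℝ) ^ 2 * (1 / 2) ^ (j + 1)) ^ 2 = (F:ℝ) ^ 4 / 4 ^ (j + 1) := by
      have h3 : ((1:ℝ) / 2) ^ (j + 1) * (1 / 2) ^ (j + 1) = (4 ^ (j + 1))⁻¹ := by
        rw [← mul_pow, ← inv_pow]; norm_num
      calc ((F:ℝ) ^ 2 * (1 / 2) ^ (j + 1)) ^ 2 = (F:ℝ) ^ 4 * ((1 / 2) ^ (j + 1) * (1 / 2) ^ (j + 1)) := by ring
        _ = _ := by rw [h3, div_eq_mul_inv]
    rw [e3, div_le_iff₀ (by positivity)]
    have h5 : (0:ℝ) ≤ (F:ℝ) ^ 4 / 4 ^ (j + 1) := by positivity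
    calc (F:ℝ) ^ 4 * (((a % 4 : ℕ) : ℝ) / 4 ^ (j + 1)) = (F:ℝ) ^ 4 / 4 ^ (j + 1) * ((a % 4 : ℕ) : ℝ) := by ring
      _ ≤ (F:ℝ) ^ 4 / 4 ^ (j + 1) * Real.pi := by
        apply mul_le_mul_of_nonneg_left _ h5; linarith
  have h2 : kap * ((F:ℝ) ^ 2 * (((b % 2 : ℕ) : ℝ) / 2 ^ (j + 1))) ≤ kap * (F:ℝ) ^ 2 * (1 / 2) ^ (j + 1) := by
    rw [one_div, inv_pow, ← mul_assoc]
    apply mul_le_mul_of_nonneg_left _ (by positivity)
    rw [div_eq_mul_inv]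
    exact mul_le_of_le_one_left (by positivity) rb
  calc _ ≤ kap * (F:ℝ) ^ 2 * (1 / 2) ^ (j + 1) + (F:ℝ) ^ 2 * (1 / 2) ^ (j + 1) := add_le_add h2 h1
    _ = _ := by ring

@[simp] lemma gpt_zero (F : ℝ≥0) (q0 : ℝ≥0 × ℝ) : gpt F q0 0 0 0 = q0 := by simp [gpt]

lemma alph_self {q0 : ℝ≥0 × ℝ} (h0 : 0 < Vq q0) : alph q0 q0 = 1 := by
  unfold alph; rw [KK_self]; exact div_self h0.ne'

/-- chaining functional of the residual field on the grid of a cell -/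
noncomputable def Sf (X : Fin d → ℝ≥0 × ℝ → Ω → ℝ) (F : ℝ≥0) (q0 : ℝ≥0 × ℝ) (i : Fin d) (ω : Ω) : ℝ≥0∞ :=
  chainS d (fun j a b => Yf X q0 i (gpt F q0 j a b) ω)

lemma aemeas_Yf {X : Fin d → ℝ≥0 × ℝ → Ω → ℝ} (h : GP X KK P) (q0 : ℝ≥0 × ℝ) (i : Fin d)
    (q : ℝ≥0 × ℝ) : AEMeasurable (Yf X q0 i q) P :=
  (h.comb (fun _ : Unit => cc q0 (some q))).aemeas i ()

lemma lintegral_Sf (hd : 7 ≤ d) {X : Fin d → ℝ≥0 × ℝ → Ω → ℝ} (h : GP X KK P) {q0 : ℝ≥0 × ℝ}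
    (h0 : 0 < Vq q0) (F : ℝ≥0) (i : Fin d) :
    ∫⁻ ω, Sf X F q0 i ω ∂P ≤ gaussMom d * ENNReal.ofReal (Real.sqrt (kap + 1) * F) ^ d * 20 := by
  have hk := kap_pos
  unfold Sf chainS
  have hm : ∀ j a b, AEMeasurable (fun ω => ‖Yf X q0 i (gpt F q0 (j + 1) a b) ω -
      Yf X q0 i (gpt F q0 j (a / 4) (b / 2)) ω‖ₑ ^ d) P := fun j a b =>
    (((aemeas_Yf h q0 i _).sub (aemeas_Yf h q0 i _)).enorm).pow_const d
  rw [lintegral_tsum]
  · have hterm : ∀ j : ℕ, ∫⁻ ω, ENNReal.ofReal ((25/24) ^ (j * d)) *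
        ∑ a ∈ Finset.range (4 ^ (j + 1)), ∑ b ∈ Finset.range (2 ^ (j + 1)),
        ‖Yf X q0 i (gpt F q0 (j + 1) a b) ω - Yf X q0 i (gpt F q0 j (a / 4) (b / 2)) ω‖ₑ ^ d ∂P ≤
        gaussMom d * ENNReal.ofReal (Real.sqrt (kap + 1) * F) ^ d * ENNReal.ofReal ((19/20) ^ (j + 1)) := by
      intro j
      rw [lintegral_const_mul'' _ (by
        refine Finset.aemeasurable_fun_sum _ fun a _ => Finset.aemeasurable_fun_sum _ fun b _ => hm j a b)]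
      rw [lintegral_finsetSum' _ (fun a _ => Finset.aemeasurable_fun_sum _ fun b _ => hm j a b)]
      have hb : ∀ a b, ∫⁻ ω, ‖Yf X q0 i (gpt F q0 (j + 1) a b) ω -
          Yf X q0 i (gpt F q0 j (a / 4) (b / 2)) ω‖ₑ ^ d ∂P ≤
          gaussMom d * ENNReal.ofReal (Real.sqrt (kap + 1) * F * Real.sqrt (1/2) ^ (j + 1)) ^ d := by
        intro a b
        refine (inc_moment h h0 i _ _ d).trans ?_
        gcongr
        refine Real.sqrt_le_iff.mpr ⟨by positivity, ?_⟩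
        refine (Vd_gpt_le F q0 j a b).trans (le_of_eq ?_)
        rw [mul_pow, mul_pow, Real.sq_sqrt (by positivity), ← pow_mul, mul_comm (j+1) 2, pow_mul,
          Real.sq_sqrt (by norm_num)]
      have hs : ∀ a, ∫⁻ ω, ∑ b ∈ Finset.range (2 ^ (j + 1)),
          ‖Yf X q0 i (gpt F q0 (j + 1) a b) ω - Yf X q0 i (gpt F q0 j (a / 4) (b / 2)) ω‖ₑ ^ d ∂P ≤
          2 ^ (j + 1) * (gaussMom d * ENNReal.ofReal (Real.sqrt (kap + 1) * F * Real.sqrt (1/2) ^ (j + 1)) ^ d) := by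
        intro a
        rw [lintegral_finsetSum' _ (fun b _ => hm j a b)]
        refine (Finset.sum_le_sum fun b _ => hb a b).trans (le_of_eq ?_)
        simp
      refine (mul_le_mul' le_rfl (Finset.sum_le_sum fun a _ => hs a)).trans ?_
      simp only [Finset.sum_const, Finset.card_range, nsmul_eq_mul, Nat.cast_pow, Nat.cast_ofNat]
      rw [ENNReal.ofReal_mul (by positivity), mul_pow]
      have h8 : (4:ℝ≥0∞) ^ (j + 1) * 2 ^ (j + 1) = ENNReal.ofReal (8 ^ (j + 1)) := by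
        rw [← mul_pow, ENNReal.ofReal_pow (by norm_num)]
        norm_num
      calc ENNReal.ofReal ((25 / 24) ^ (j * d)) * (4 ^ (j + 1) * (2 ^ (j + 1) *
            (gaussMom d * (ENNReal.ofReal (Real.sqrt (kap + 1) * F) ^ d *
              ENNReal.ofReal (Real.sqrt (1/2) ^ (j + 1)) ^ d))))
          = gaussMom d * ENNReal.ofReal (Real.sqrt (kap + 1) * F) ^ d *
            (ENNReal.ofReal ((25 / 24) ^ (j * d)) * ((4:ℝ≥0∞) ^ (j + 1) * 2 ^ (j + 1)) *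
              ENNReal.ofReal (Real.sqrt (1/2) ^ (j + 1)) ^ d) := by ring
        _ ≤ _ := by
          gcongr
          rw [h8, ← ENNReal.ofReal_pow (by positivity), ← ENNReal.ofReal_mul (by positivity),
            ← ENNReal.ofReal_mul (by positivity)]
          apply ENNReal.ofReal_le_ofReal
          have g := geom_ratio hd
          have e1 : (25/24 : ℝ) ^ (j * d) ≤ (25/24 : ℝ) ^ ((j + 1) * d) := by
            apply pow_le_pow_right₀ (by norm_num)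
            apply Nat.mul_le_mul_right; omega
          calc (25/24 : ℝ) ^ (j * d) * 8 ^ (j + 1) * (Real.sqrt (1/2) ^ (j + 1)) ^ d
              ≤ (25/24 : ℝ) ^ ((j + 1) * d) * 8 ^ (j + 1) * (Real.sqrt (1/2) ^ (j + 1)) ^ d := by gcongr
            _ = ((25/24 : ℝ) ^ d * 8 * (Real.sqrt (1/2)) ^ d) ^ (j + 1) := by
              rw [mul_pow, mul_pow, ← pow_mul, ← pow_mul, ← pow_mul, mul_comm d (j+1)]
            _ ≤ _ := by gcongr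
    refine (ENNReal.tsum_le_tsum hterm).trans ?_
    rw [ENNReal.tsum_mul_left]
    gcongr
    rw [← ENNReal.ofReal_tsum_of_nonneg (fun n => by positivity)
      ((summable_nat_add_iff 1).mpr (summable_geometric_of_lt_one (by norm_num) (by norm_num)))]
    have : ∑' n : ℕ, (19/20 : ℝ) ^ (n + 1) = 19 := by
      simp_rw [pow_succ]
      rw [tsum_mul_right, tsum_geometric_of_lt_one (by norm_num) (by norm_num)]
      norm_num
    rw [this]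
    norm_num
  · intro j
    refine AEMeasurable.const_mul ?_ _
    exact Finset.aemeasurable_fun_sum _ fun a _ => Finset.aemeasurable_fun_sum _ fun b _ => hm j a b

/-- half open space-time cell -/
def Cell (F : ℝ≥0) (q0 : ℝ≥0 × ℝ) : Set (ℝ≥0 × ℝ) :=
  {q | q0.1 ≤ q.1 ∧ q.1 < q0.1 + F ^ 4 ∧ q0.2 ≤ q.2 ∧ q.2 < q0.2 + (F : ℝ) ^ 2}

lemma Vd_cell_le {F : ℝ≥0} {q0 q : ℝ≥0 × ℝ} (hq : q ∈ Cell F q0) : Vd q q0 ≤ (kap + 1) * (F : ℝ) ^ 2 := by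
  have hk := kap_pos
  obtain ⟨h1, h2, h3, h4⟩ := hq
  have h1' : (q0.1 : ℝ) ≤ q.1 := by exact_mod_cast h1
  have h2' : (q.1 : ℝ) < q0.1 + (F : ℝ) ^ 4 := by exact_mod_cast h2
  unfold Vd
  refine (Vf_le (abs_nonneg _) _).trans ?_
  rw [abs_of_nonneg (by linarith), abs_of_nonneg (by linarith), ← Real.sqrt_div (by linarith)]
  have hpi := Real.pi_gt_three
  have e1 : Real.sqrt (((q.1 : ℝ) - q0.1) / Real.pi) ≤ (F : ℝ) ^ 2 := by
    rw [Real.sqrt_le_left (by positivity), div_le_iff₀ (by positivity)]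
    have : (0:ℝ) ≤ (F:ℝ) ^ 4 := by positivity
    nlinarith
  nlinarith

lemma alph_ge {F : ℝ≥0} {q0 q : ℝ≥0 × ℝ} (h0 : 0 < Vq q0) (hV : 3 * ((kap + 1) * (F : ℝ) ^ 2) ≤ Vq q0)
    (hq : q ∈ Cell F q0) : 1 / 2 ≤ alph q0 q := by
  have h1 := Vd_cell_le hq
  have h2 := KK_inc_abs_le q q0
  rw [abs_le] at h2
  unfold alph
  rw [le_div_iff₀ h0]
  linarith [h2.1]

lemma continuous_alph (q0 : ℝ≥0 × ℝ) : Continuous fun q => alph q0 q :=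
  (continuous_KK q0).div_const _

omit [MeasurableSpace Ω] in
lemma Yf_cell_bound (hd : d ≠ 0) {X : Fin d → ℝ≥0 × ℝ → Ω → ℝ} {F : ℝ≥0} (hF : 0 < F) {q0 q : ℝ≥0 × ℝ}
    (h0 : 0 < Vq q0) (i : Fin d) {ω : Ω} (hc : Continuous fun q => X i q ω) (hq : q ∈ Cell F q0) :
    ‖Yf X q0 i q ω‖ₑ ≤ 25 * (Sf X F q0 i ω) ^ ((d : ℝ)⁻¹) := by
  obtain ⟨h1, h2, h3, h4⟩ := hq
  set s : ℝ≥0 := (q.1 - q0.1) / F ^ 4 with hs
  set u : ℝ := (q.2 - q0.2) / (F : ℝ) ^ 2 with hu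
  have hF4 : 0 < F ^ 4 := by positivity
  have hF2 : (0:ℝ) < (F:ℝ) ^ 2 := by positivity
  have hs1 : s < 1 := by
    rw [hs, div_lt_one₀ hF4]
    exact (tsub_lt_iff_left h1).mpr h2
  have hu0 : 0 ≤ u := div_nonneg (by linarith) hF2.le
  have hu1 : u < 1 := by
    rw [hu, div_lt_one hF2]; linarith
  have hq1 : q.1 = q0.1 + F ^ 4 * s := by
    rw [hs, mul_div_cancel₀ _ hF4.ne', add_tsub_cancel_of_le h1]
  have hq2 : q.2 = q0.2 + (F : ℝ) ^ 2 * u := by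
    rw [hu, mul_div_cancel₀ _ hF2.ne']; ring
  have hY0 : Yf X q0 i (gpt F q0 0 0 0) ω = 0 := by
    rw [gpt_zero, Yf_eq, alph_self h0]; ring
  have hcY : Continuous fun q => Yf X q0 i q ω := by
    simp_rw [Yf_eq]
    exact hc.sub ((continuous_alph q0).mul continuous_const)
  have hlim : Tendsto (fun j : ℕ => gpt F q0 j ⌊(s : ℝ) * 4 ^ j⌋₊ ⌊u * 2 ^ j⌋₊) atTop (𝓝 q) := by
    have t4 : Tendsto (fun j : ℕ => (4 : ℝ) ^ j) atTop atTop :=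
      tendsto_pow_atTop_atTop_of_one_lt (by norm_num)
    have t2 : Tendsto (fun j : ℕ => (2 : ℝ) ^ j) atTop atTop :=
      tendsto_pow_atTop_atTop_of_one_lt (by norm_num)
    have l1 : Tendsto (fun j : ℕ => ((⌊(s : ℝ) * 4 ^ j⌋₊ : ℝ≥0)) / 4 ^ j) atTop (𝓝 s) := by
      rw [← NNReal.tendsto_coe]
      have := (tendsto_nat_floor_mul_div_atTop (R := ℝ) (a := (s : ℝ)) s.2).comp t4
      refine this.congr fun j => ?_
      simp
    have l2 : Tendsto (fun j : ℕ => ((⌊u * 2 ^ j⌋₊ : ℝ)) / 2 ^ j) atTop (𝓝 u) :=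
      (tendsto_nat_floor_mul_div_atTop (R := ℝ) (a := u) hu0).comp t2
    have : q = (q0.1 + F ^ 4 * s, q0.2 + (F : ℝ) ^ 2 * u) := by
      rw [← hq1, ← hq2]
    rw [this]
    unfold gpt
    exact (tendsto_const_nhds.add (tendsto_const_nhds.mul l1)).prodMk_nhds
      (tendsto_const_nhds.add (tendsto_const_nhds.mul l2))
  have hlimY : Tendsto (fun j : ℕ => ‖Yf X q0 i (gpt F q0 j ⌊(s : ℝ) * 4 ^ j⌋₊ ⌊u * 2 ^ j⌋₊) ω‖ₑ)
      atTop (𝓝 ‖Yf X q0 i q ω‖ₑ) :=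
    (continuous_enorm.tendsto _).comp ((hcY.tendsto q).comp hlim)
  refine le_of_tendsto hlimY (Eventually.of_forall fun j => ?_)
  refine chain_bound' hd (fun j a b => Yf X q0 i (gpt F q0 j a b) ω) hY0 j _ _ ?_ ?_
  · rw [Nat.floor_lt (by positivity)]
    push_cast
    exact mul_lt_of_lt_one_left (by positivity) (by exact_mod_cast hs1)
  · rw [Nat.floor_lt (by positivity)]
    push_cast
    exact mul_lt_of_lt_one_left (by positivity) hu1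

omit [MeasurableSpace Ω] in
lemma path_bound (hd : d ≠ 0) {X : Fin d → ℝ≥0 × ℝ → Ω → ℝ} {F : ℝ≥0} (hF : 0 < F) {q0 q : ℝ≥0 × ℝ}
    (h0 : 0 < Vq q0) (hV : 3 * ((kap + 1) * (F : ℝ) ^ 2) ≤ Vq q0) (i : Fin d) {ω : Ω}
    (hc : Continuous fun q => X i q ω) (hq : q ∈ Cell F q0) (hX : |X i q ω| ≤ F) :
    ‖X i q0 ω‖ₑ ≤ 2 * (F + 25 * (Sf X F q0 i ω) ^ ((d : ℝ)⁻¹)) := by
  have h1 := Yf_cell_bound hd hF h0 i hc hq
  have h2 := alph_ge h0 hV hq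
  have h3 : alph q0 q * X i q0 ω = X i q ω - Yf X q0 i q ω := by
    rw [Yf_eq]; ring
  have h4 : |X i q0 ω| ≤ 2 * (F + |Yf X q0 i q ω|) := by
    have h5 : |alph q0 q * X i q0 ω| ≤ |X i q ω| + |Yf X q0 i q ω| := by
      rw [h3]; exact abs_sub _ _
    rw [abs_mul, abs_of_nonneg (by linarith)] at h5
    have h6 : 1 / 2 * |X i q0 ω| ≤ alph q0 q * |X i q0 ω| :=
      mul_le_mul_of_nonneg_right h2 (abs_nonneg _)
    linarith
  have h7 : ‖X i q0 ω‖ₑ ≤ 2 * (F + ‖Yf X q0 i q ω‖ₑ) := by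
    rw [Real.enorm_eq_ofReal_abs, Real.enorm_eq_ofReal_abs]
    refine (ENNReal.ofReal_le_ofReal h4).trans (le_of_eq ?_)
    rw [ENNReal.ofReal_mul (by norm_num), ENNReal.ofReal_add (by positivity) (abs_nonneg _)]
    simp
  exact h7.trans (by gcongr)

end Pool.Agent.H99.Str
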