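import Pool.Agent.H99.StrCell

/-!
Small ball estimate on a space-time cell, probabilistic part.
-/

open MeasureTheory ProbabilityTheory Set Filter Topology
open scoped NNReal ENNReal Interval

namespace Pool.Agent.H99.Str

variable {Ω : Type*} [MeasurableSpace Ω] {P : Measure Ω} {d : ℕ}

lemma rpow_inv_le (hd : d ≠ 0) (x : ℝ≥0∞) : x ^ ((d : ℝ)⁻¹) ≤ 1 + x := by
  have hd0 : (0:ℝ) < (d : ℝ) := by exact_mod_cast Nat.pos_of_ne_zero hd
  have hd1 : (1:ℝ) ≤ (d : ℝ) := by exact_mod_cast Nat.pos_of_ne_zero hd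
  rcases le_total x 1 with hx | hx
  · refine (ENNReal.rpow_le_one hx (by positivity)).trans ?_
    exact le_self_add
  · have h := ENNReal.rpow_le_rpow_of_exponent_le hx (inv_le_one_of_one_le₀ hd1)
    rw [ENNReal.rpow_one] at h
    exact h.trans le_add_self

/-- constant of the cell bound -/
noncomputable def CE (d : ℕ) : ℝ≥0∞ :=
  2 * (1 + 25 * (1 + gaussMom d * ENNReal.ofReal (Real.sqrt (kap + 1)) ^ d * 20))

lemma CE_lt_top (d : ℕ) : CE d < ∞ := by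
  unfold CE
  have h1 := gaussMom_lt_top d
  have h2 : gaussMom d * ENNReal.ofReal (Real.sqrt (kap + 1)) ^ d * 20 < ∞ := by
    refine ENNReal.mul_lt_top (ENNReal.mul_lt_top h1 ?_) (by norm_num)
    exact ENNReal.pow_lt_top ENNReal.ofReal_lt_top
  have h3 : 1 + gaussMom d * ENNReal.ofReal (Real.sqrt (kap + 1)) ^ d * 20 < ∞ :=
    ENNReal.add_lt_top.mpr ⟨by norm_num, h2⟩
  have h4 : 1 + 25 * (1 + gaussMom d * ENNReal.ofReal (Real.sqrt (kap + 1)) ^ d * 20) < ∞ :=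
    ENNReal.add_lt_top.mpr ⟨by norm_num, ENNReal.mul_lt_top (by norm_num) h3⟩
  exact ENNReal.mul_lt_top (by norm_num) h4

lemma measurable_chainS (d : ℕ) {α : Type*} [MeasurableSpace α] {y : α → ℕ → ℕ → ℕ → ℝ}
    (hy : ∀ j a b, Measurable fun x => y x j a b) : Measurable fun x => chainS d (y x) := by
  unfold chainS
  refine Measurable.tsum fun j => ?_
  refine Measurable.const_mul ?_ _
  refine Finset.measurable_fun_sum _ fun a _ => Finset.measurable_fun_sum _ fun b _ => ?_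
  exact (((hy _ _ _).sub (hy _ _ _)).enorm).pow_const d

lemma aemeas_Sf {X : Fin d → ℝ≥0 × ℝ → Ω → ℝ} (h : GP X KK P) (F : ℝ≥0) (q0 : ℝ≥0 × ℝ) (i : Fin d) :
    AEMeasurable (Sf X F q0 i) P := by
  have h1 : Measurable fun z : ℕ × ℕ × ℕ → ℝ => chainS d (fun j a b => z (j, a, b)) :=
    measurable_chainS d fun j a b => by fun_prop
  have h2 : AEMeasurable (fun ω (p : ℕ × ℕ × ℕ) => Yf X q0 i (gpt F q0 p.1 p.2.1 p.2.2) ω) P := by
    rw [aemeasurable_pi_iff]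
    exact fun p => aemeas_Yf h q0 i _
  have e : Sf X F q0 i = (fun z : ℕ × ℕ × ℕ → ℝ => chainS d (fun j a b => z (j, a, b))) ∘
      (fun ω (p : ℕ × ℕ × ℕ) => Yf X q0 i (gpt F q0 p.1 p.2.1 p.2.2) ω) := by
    funext ω
    simp only [Sf, Function.comp]
  rw [e]
  exact h1.comp_aemeasurable h2

lemma Sf_root_le (hd : d ≠ 0) {F : ℝ≥0} (hF : 0 < F) (x : ℝ≥0∞) :
    x ^ ((d : ℝ)⁻¹) ≤ F * (1 + x / F ^ d) := by
  have hFd : (F : ℝ≥0∞) ^ d ≠ 0 := by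
    have : (F : ℝ≥0∞) ≠ 0 := by exact_mod_cast hF.ne'
    exact pow_ne_zero d this
  have hFt : (F : ℝ≥0∞) ^ d ≠ ∞ := ENNReal.pow_ne_top (by simp)
  have hd0 : (0:ℝ) < (d : ℝ) := by exact_mod_cast Nat.pos_of_ne_zero hd
  calc x ^ ((d : ℝ)⁻¹) = ((F : ℝ≥0∞) ^ d * (x / F ^ d)) ^ ((d : ℝ)⁻¹) := by
        rw [ENNReal.mul_div_cancel hFd hFt]
    _ = F * (x / F ^ d) ^ ((d : ℝ)⁻¹) := by
        rw [ENNReal.mul_rpow_of_nonneg _ _ (by positivity), ← ENNReal.rpow_natCast, ← ENNReal.rpow_mul,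
          mul_inv_cancel₀ hd0.ne', ENNReal.rpow_one]
    _ ≤ _ := by gcongr; exact rpow_inv_le hd _

lemma lintegral_bound (hd : 7 ≤ d) {X : Fin d → ℝ≥0 × ℝ → Ω → ℝ} (h : GP X KK P) {q0 : ℝ≥0 × ℝ}
    (h0 : 0 < Vq q0) {F : ℝ≥0} (hF : 0 < F) (i : Fin d) :
    ∫⁻ ω, 2 * (F + 25 * (Sf X F q0 i ω) ^ ((d : ℝ)⁻¹)) ∂P ≤ F * CE d := by
  have hprob := h.isProb
  have hd' : d ≠ 0 := by omega
  have hFd : (F : ℝ≥0∞) ^ d ≠ 0 := by
    have : (F : ℝ≥0∞) ≠ 0 := by exact_mod_cast hF.ne'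
    exact pow_ne_zero d this
  have hFt : (F : ℝ≥0∞) ^ d ≠ ∞ := ENNReal.pow_ne_top (by simp)
  have hS := aemeas_Sf h F q0 i
  calc ∫⁻ ω, 2 * (F + 25 * (Sf X F q0 i ω) ^ ((d : ℝ)⁻¹)) ∂P
      ≤ ∫⁻ ω, 2 * (F + 25 * (F * (1 + Sf X F q0 i ω / F ^ d))) ∂P := by
        refine lintegral_mono fun ω => ?_
        have := Sf_root_le hd' hF (Sf X F q0 i ω)
        gcongr
    _ = 2 * (F + 25 * (F * (1 + (∫⁻ ω, Sf X F q0 i ω ∂P) / F ^ d))) := by
        have m1 : AEMeasurable (fun ω => Sf X F q0 i ω / (F : ℝ≥0∞) ^ d) P := hS.div_const _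
        have m2 : AEMeasurable (fun ω => 1 + Sf X F q0 i ω / (F : ℝ≥0∞) ^ d) P := m1.const_add _
        have m3 : AEMeasurable (fun ω => (F : ℝ≥0∞) * (1 + Sf X F q0 i ω / (F : ℝ≥0∞) ^ d)) P :=
          m2.const_mul _
        have m4 : AEMeasurable (fun ω => 25 * ((F : ℝ≥0∞) * (1 + Sf X F q0 i ω / (F : ℝ≥0∞) ^ d))) P :=
          m3.const_mul _
        rw [lintegral_const_mul'' _ (m4.const_add _), lintegral_add_left' aemeasurable_const,
          lintegral_const_mul'' _ m3, lintegral_const_mul'' _ m2, lintegral_add_left' aemeasurable_const]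
        simp only [lintegral_const, measure_univ, mul_one, div_eq_mul_inv]
        rw [lintegral_mul_const'' _ hS]
    _ ≤ 2 * (F + 25 * (F * (1 + (gaussMom d * ENNReal.ofReal (Real.sqrt (kap + 1) * F) ^ d * 20) / F ^ d))) := by
        gcongr
        exact lintegral_Sf hd h h0 F i
    _ = F * CE d := by
        have e : (gaussMom d * ENNReal.ofReal (Real.sqrt (kap + 1) * F) ^ d * 20) / (F : ℝ≥0∞) ^ d =
            gaussMom d * ENNReal.ofReal (Real.sqrt (kap + 1)) ^ d * 20 := by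
          rw [ENNReal.ofReal_mul (by positivity), mul_pow, ENNReal.ofReal_coe_nnreal]
          rw [show gaussMom d * (ENNReal.ofReal (Real.sqrt (kap + 1)) ^ d * (F : ℝ≥0∞) ^ d) * 20 =
            gaussMom d * ENNReal.ofReal (Real.sqrt (kap + 1)) ^ d * 20 * (F : ℝ≥0∞) ^ d by ring]
          exact ENNReal.mul_div_cancel_right hFd hFt
        rw [e]
        unfold CE
        ring

lemma coord_bound (hd : 7 ≤ d) {X : Fin d → ℝ≥0 × ℝ → Ω → ℝ} (h : GP X KK P) {q0 : ℝ≥0 × ℝ}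
    (h0 : 0 < Vq q0) {F : ℝ≥0} (hF : 0 < F) (i : Fin d) :
    P {ω | ‖X i q0 ω‖ₑ ≤ 2 * (F + 25 * (Sf X F q0 i ω) ^ ((d : ℝ)⁻¹))} ≤
      F * CE d * ENNReal.ofReal (1 / Real.sqrt (Vq q0)) := by
  have hprob := h.isProb
  have hsq : 0 < Real.sqrt (Vq q0) := Real.sqrt_pos.mpr h0
  have hG := h.comb (cc q0)
  have hind := hG.indep_of_cov (S := Unit) (T := ℕ × ℕ × ℕ) (fun _ => none)
    (fun p => some (gpt F q0 p.1 p.2.1 p.2.2)) (fun _ p => BK_res_zero h0 _)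
  have hind2 : IndepFun (fun ω => X i q0 ω)
      (fun ω (p : ℕ × ℕ × ℕ) => Yf X q0 i (gpt F q0 p.1 p.2.1 p.2.2) ω) P := by
    have m1 : Measurable (fun f : Fin d × Unit → ℝ => f (i, ())) := measurable_pi_apply _
    have m2 : Measurable (fun (f : Fin d × (ℕ × ℕ × ℕ) → ℝ) (p : ℕ × ℕ × ℕ) => f (i, p)) :=
      measurable_pi_lambda _ fun p => measurable_pi_apply _
    have := hind.comp m1 m2
    refine this.congr (Eventually.of_forall fun ω => ?_) (Eventually.of_forall fun ω => rfl)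
    simp [cc]
  have hm1 : Measurable fun z : ℕ × ℕ × ℕ → ℝ => chainS d (fun j a b => z (j, a, b)) :=
    measurable_chainS d fun j a b => by fun_prop
  set S : Set (ℝ × (ℕ × ℕ × ℕ → ℝ)) :=
    {p | ‖p.1‖ₑ ≤ 2 * (F + 25 * (chainS d (fun j a b => p.2 (j, a, b))) ^ ((d : ℝ)⁻¹))} with hS
  have hSm : MeasurableSet S := by
    refine measurableSet_le (by fun_prop) ?_
    exact (((hm1.comp measurable_snd).pow_const _).const_mul _ |>.const_add _).const_mul _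
  have hZm : AEMeasurable (fun ω (p : ℕ × ℕ × ℕ) => Yf X q0 i (gpt F q0 p.1 p.2.1 p.2.2) ω) P := by
    rw [aemeasurable_pi_iff]
    exact fun p => aemeas_Yf h q0 i _
  have e1 : {ω | ‖X i q0 ω‖ₑ ≤ 2 * (F + 25 * (Sf X F q0 i ω) ^ ((d : ℝ)⁻¹))} =
      {ω | (X i q0 ω, fun (p : ℕ × ℕ × ℕ) => Yf X q0 i (gpt F q0 p.1 p.2.1 p.2.2) ω) ∈ S} := rfl
  rw [e1, indep_prod hind2 (h.aemeas i q0) hZm hSm]
  have hCG := h.cg i q0
  rw [KK_self] at hCG
  have hbd : ∀ ω, P {ω' | (X i q0 ω', fun (p : ℕ × ℕ × ℕ) => Yf X q0 i (gpt F q0 p.1 p.2.1 p.2.2) ω) ∈ S}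
      ≤ 2 * (F + 25 * (Sf X F q0 i ω) ^ ((d : ℝ)⁻¹)) * ENNReal.ofReal (1 / Real.sqrt (Vq q0)) := by
    intro ω
    have e2 : {ω' | (X i q0 ω', fun (p : ℕ × ℕ × ℕ) => Yf X q0 i (gpt F q0 p.1 p.2.1 p.2.2) ω) ∈ S} =
        {ω' | ‖X i q0 ω'‖ₑ ≤ 2 * (F + 25 * (Sf X F q0 i ω) ^ ((d : ℝ)⁻¹))} := rfl
    rw [e2]
    generalize 2 * ((F : ℝ≥0∞) + 25 * (Sf X F q0 i ω) ^ ((d : ℝ)⁻¹)) = a
    rcases eq_or_ne a ∞ with rfl | ha
    · rw [ENNReal.top_mul]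
      · exact le_top
      · simpa using hsq
    · have h1 := hCG.anti h0 0 (ENNReal.toReal_nonneg (a := a))
      simp only [zero_add] at h1
      have e3 : {ω' | ‖X i q0 ω'‖ₑ ≤ a} = {ω' | |X i q0 ω'| ≤ a.toReal} := by
        ext ω'
        simp only [mem_ofPred_eq]
        rw [Real.enorm_eq_ofReal_abs, ENNReal.ofReal_le_iff_le_toReal ha]
      rw [e3]
      refine h1.trans (le_of_eq ?_)
      rw [div_eq_mul_one_div, ENNReal.ofReal_mul ENNReal.toReal_nonneg, ENNReal.ofReal_toReal ha]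
  refine (lintegral_mono hbd).trans ?_
  have m : AEMeasurable (fun ω => 2 * ((F : ℝ≥0∞) + 25 * (Sf X F q0 i ω) ^ ((d : ℝ)⁻¹))) P :=
    ((((aemeas_Sf h F q0 i).pow_const _).const_mul _).const_add _).const_mul _
  rw [lintegral_mul_const'' _ m]
  gcongr
  exact lintegral_bound hd h h0 hF i

/-- The cell bound. -/
lemma cell_bound (hd : 7 ≤ d) {X : Fin d → ℝ≥0 × ℝ → Ω → ℝ} (h : GP X KK P)
    (hc : ∀ i, ∀ᵐ ω ∂P, Continuous fun q => X i q ω) {q0 : ℝ≥0 × ℝ}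
    (h0 : 0 < Vq q0) {F : ℝ≥0} (hF : 0 < F) (hV : 3 * ((kap + 1) * (F : ℝ) ^ 2) ≤ Vq q0) :
    P {ω | ∃ q ∈ Cell F q0, ∀ i, |X i q ω| ≤ F} ≤
      (CE d * ENNReal.ofReal (F / Real.sqrt (Vq q0))) ^ d := by
  have hd' : d ≠ 0 := by omega
  have hm1 : Measurable fun f : ℝ≥0 × ℝ → ℝ => chainS d (fun j a b =>
      f (gpt F q0 j a b) - alph q0 (gpt F q0 j a b) * f q0) :=
    measurable_chainS d fun j a b => by fun_prop
  set B : Set (ℝ≥0 × ℝ → ℝ) := {f | ‖f q0‖ₑ ≤ 2 * (F + 25 * (chainS d (fun j a b =>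
      f (gpt F q0 j a b) - alph q0 (gpt F q0 j a b) * f q0)) ^ ((d : ℝ)⁻¹))} with hB
  have hBm : MeasurableSet B := by
    refine measurableSet_le (by fun_prop) ?_
    exact ((hm1.pow_const _).const_mul _ |>.const_add _).const_mul _
  have hsub : ({ω | ∃ q ∈ Cell F q0, ∀ i, |X i q ω| ≤ F} : Set Ω) ≤ᵐ[P]
      (⋂ i ∈ (Finset.univ : Finset (Fin d)), (fun ω q => X i q ω) ⁻¹' B : Set Ω) := by
    have hc' : ∀ᵐ ω ∂P, ∀ i, Continuous fun q => X i q ω := ae_all_iff.mpr hc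
    filter_upwards [hc'] with ω hω
    rintro ⟨q, hq, hX⟩
    show ω ∈ (⋂ i ∈ (Finset.univ : Finset (Fin d)), (fun ω q => X i q ω) ⁻¹' B : Set Ω)
    simp only [mem_iInter]
    intro i _
    have := path_bound hd' hF h0 hV i (hω i) hq (hX i)
    simp only [mem_preimage, hB, mem_ofPred_eq]
    refine this.trans (le_of_eq ?_)
    unfold Sf
    simp_rw [Yf_eq]
  refine (measure_mono_ae hsub).trans ?_
  rw [h.iIndep_coord.measure_inter_preimage_eq_mul Finset.univ (fun i _ => hBm)]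
  refine (Finset.prod_le_prod' (g := fun _ => CE d * ENNReal.ofReal (F / Real.sqrt (Vq q0))) fun i _ => ?_).trans
    (by simp)
  have h1 := coord_bound hd h h0 hF i
  have e : (fun ω q => X i q ω) ⁻¹' B =
      {ω | ‖X i q0 ω‖ₑ ≤ 2 * (F + 25 * (Sf X F q0 i ω) ^ ((d : ℝ)⁻¹))} := by
    ext ω
    simp only [mem_preimage, hB, mem_ofPred_eq]
    unfold Sf
    simp_rw [Yf_eq]
  rw [e]
  refine h1.trans (le_of_eq ?_)
  rw [div_eq_mul_one_div (F : ℝ), ENNReal.ofReal_mul (by positivity), ENNReal.ofReal_coe_nnreal]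
  ring

end Pool.Agent.H99.Str
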