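import Pool.Agent.H99.StrCell2

/-!
Block bound: one dyadic time block.
-/

open MeasureTheory ProbabilityTheory Set Filter Topology
open scoped NNReal ENNReal Interval

namespace Pool.Agent.H99.Str

variable {Ω : Type*} [MeasurableSpace Ω] {P : Measure Ω} {d : ℕ}

/-- lower constant for the variance -/
noncomputable def cV : ℝ := min kap (1 / Real.sqrt Real.pi) / 2

lemma cV_pos : 0 < cV := by
  unfold cV
  have := kap_pos
  have := Real.pi_pos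
  positivity

lemma cV_le (q : ℝ≥0 × ℝ) : cV * (|q.2| + Real.sqrt q.1) ≤ Vq q := by
  have h := Vf_two q.1.coe_nonneg q.2
  have hk := kap_pos
  unfold Vq cV
  have h1 : min kap (1 / Real.sqrt Real.pi) ≤ kap := min_le_left _ _
  have h2 : min kap (1 / Real.sqrt Real.pi) ≤ 1 / Real.sqrt Real.pi := min_le_right _ _
  generalize min kap (1 / Real.sqrt Real.pi) = m at h1 h2
  have h3 : m * |q.2| ≤ kap * |q.2| := mul_le_mul_of_nonneg_right h1 (abs_nonneg _)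
  have h4 : m * Real.sqrt q.1 ≤ Real.sqrt q.1 / Real.sqrt Real.pi := by
    rw [show Real.sqrt q.1 / Real.sqrt Real.pi = (1 / Real.sqrt Real.pi) * Real.sqrt q.1 by ring]
    exact mul_le_mul_of_nonneg_right h2 (Real.sqrt_nonneg _)
  have h5 : m / 2 * (|q.2| + Real.sqrt q.1) = (m * |q.2| + m * Real.sqrt q.1) / 2 := by ring
  rw [h5]
  linarith

/-- constant of the block bound -/
noncomputable def CB (d : ℕ) : ℝ := ((CE d).toReal / Real.sqrt cV) ^ d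

lemma CB_nonneg (d : ℕ) : 0 ≤ CB d := by
  unfold CB
  have := cV_pos
  positivity

/-- corner of the cell with index `(a, j)` -/
noncomputable def crn (F L : ℝ≥0) (a : ℕ) (j : ℤ) : ℝ≥0 × ℝ := (L ^ 4 + a * F ^ 4, j * (F : ℝ) ^ 2)

lemma crn_V {F L : ℝ≥0} (a : ℕ) {j : ℤ} {n : ℕ} (hj : (n : ℝ) ≤ |(j : ℝ)|) :
    cV * (n * (F : ℝ) ^ 2 + (L : ℝ) ^ 2) ≤ Vq (crn F L a j) := by
  refine le_trans ?_ (cV_le _)
  have h := cV_pos
  apply mul_le_mul_of_nonneg_left _ h.le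
  have h1 : (n : ℝ) * (F : ℝ) ^ 2 ≤ |(crn F L a j).2| := by
    unfold crn
    simp only
    rw [abs_mul, abs_of_nonneg (show (0:ℝ) ≤ (F:ℝ) ^ 2 by positivity)]
    gcongr
  have h2 : (L : ℝ) ^ 2 ≤ Real.sqrt (crn F L a j).1 := by
    apply Real.le_sqrt_of_sq_le
    unfold crn
    push_cast
    have : (0:ℝ) ≤ a * (F : ℝ) ^ 4 := by positivity
    nlinarith
  linarith

lemma cell_prob (hd : 7 ≤ d) {X : Fin d → ℝ≥0 × ℝ → Ω → ℝ} (h : GP X KK P)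
    (hc : ∀ i, ∀ᵐ ω ∂P, Continuous fun q => X i q ω) {F L : ℝ≥0} (hF : 0 < F) (hL : 0 < L)
    (hFL : 3 * ((kap + 1) * (F : ℝ) ^ 2) ≤ cV * (L : ℝ) ^ 2) (a : ℕ) {j : ℤ} {n : ℕ}
    (hj : (n : ℝ) ≤ |(j : ℝ)|) :
    P {ω | ∃ q ∈ Cell F (crn F L a j), ∀ i, |X i q ω| ≤ F} ≤
      ENNReal.ofReal (CB d * (F : ℝ) ^ d / (L : ℝ) ^ (d - 4)) *
        ENNReal.ofReal (1 / (n * (F : ℝ) ^ 2 + (L : ℝ) ^ 2) ^ 2) := by
  have hcv := cV_pos
  have hV := crn_V (F := F) (L := L) a hj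
  set A : ℝ := n * (F : ℝ) ^ 2 + (L : ℝ) ^ 2 with hA
  have hL' : (0:ℝ) < L := by exact_mod_cast hL
  have hF' : (0:ℝ) < F := by exact_mod_cast hF
  have hAL : (L : ℝ) ^ 2 ≤ A := by
    rw [hA]; have : (0:ℝ) ≤ n * (F : ℝ) ^ 2 := by positivity
    linarith
  have hApos : 0 < A := lt_of_lt_of_le (by positivity) hAL
  have hV0 : 0 < Vq (crn F L a j) := lt_of_lt_of_le (by positivity) hV
  have hcond : 3 * ((kap + 1) * (F : ℝ) ^ 2) ≤ Vq (crn F L a j) := by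
    refine hFL.trans (le_trans ?_ hV)
    exact mul_le_mul_of_nonneg_left hAL hcv.le
  refine (cell_bound hd h hc hV0 hF hcond).trans ?_
  have hCE : CE d = ENNReal.ofReal (CE d).toReal := (ENNReal.ofReal_toReal (CE_lt_top d).ne).symm
  rw [hCE, ← ENNReal.ofReal_mul ENNReal.toReal_nonneg, ← ENNReal.ofReal_pow (by positivity),
    ← ENNReal.ofReal_mul (div_nonneg (mul_nonneg (CB_nonneg d) (by positivity)) (by positivity))]
  apply ENNReal.ofReal_le_ofReal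
  have hsA : (L : ℝ) ≤ Real.sqrt A := Real.le_sqrt_of_sq_le hAL
  have h1 : (F : ℝ) / Real.sqrt (Vq (crn F L a j)) ≤ F / (Real.sqrt cV * Real.sqrt A) := by
    rw [← Real.sqrt_mul hcv.le]
    gcongr
  have h2 : A ^ 2 * (L : ℝ) ^ (d - 4) ≤ (Real.sqrt A) ^ d := by
    obtain ⟨k, rfl⟩ := Nat.exists_eq_add_of_le (show 4 ≤ d by omega)
    rw [Nat.add_sub_cancel_left, pow_add]
    have : (Real.sqrt A) ^ 4 = A ^ 2 := by
      rw [show 4 = 2 * 2 by norm_num, pow_mul, Real.sq_sqrt hApos.le]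
    rw [this]
    gcongr
  have hsc : 0 < Real.sqrt cV := Real.sqrt_pos.mpr hcv
  have hsA0 : 0 < Real.sqrt A := Real.sqrt_pos.mpr hApos
  calc ((CE d).toReal * (F / Real.sqrt (Vq (crn F L a j)))) ^ d
      ≤ ((CE d).toReal * (F / (Real.sqrt cV * Real.sqrt A))) ^ d := by gcongr
    _ = CB d * (F : ℝ) ^ d / (Real.sqrt A) ^ d := by
        unfold CB
        rw [← mul_pow, ← div_pow]
        congr 1
        field_simp
    _ ≤ CB d * (F : ℝ) ^ d / (A ^ 2 * (L : ℝ) ^ (d - 4)) := by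
        have := CB_nonneg d
        gcongr
    _ = _ := by field_simp

lemma tele_sum {F L : ℝ} (hF : 0 < F) (hFL : F ≤ L) (N : ℕ) :
    ∑ n ∈ Finset.range N, 1 / (n * F ^ 2 + L ^ 2) ^ 2 ≤
      2 / (F ^ 2 * L ^ 2) - 2 / (F ^ 2 * (N * F ^ 2 + L ^ 2)) := by
  have hL : 0 < L := lt_of_lt_of_le hF hFL
  induction N with
  | zero => simp
  | succ N ih =>
    rw [Finset.sum_range_succ]
    set A : ℝ := N * F ^ 2 + L ^ 2 with hA
    have hA0 : 0 < A := by positivity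
    have hAF : F ^ 2 ≤ A := by
      have : F ^ 2 ≤ L ^ 2 := by gcongr
      have : (0:ℝ) ≤ N * F ^ 2 := by positivity
      linarith
    have e : ((N + 1 : ℕ) : ℝ) * F ^ 2 + L ^ 2 = A + F ^ 2 := by push_cast; rw [hA]; ring
    rw [e]
    have h1 : 1 / A ^ 2 ≤ 2 / (F ^ 2 * A) - 2 / (F ^ 2 * (A + F ^ 2)) := by
      have e2 : 2 / (F ^ 2 * A) - 2 / (F ^ 2 * (A + F ^ 2)) = 2 / (A * (A + F ^ 2)) := by
        field_simp
        ring
      rw [e2, div_le_div_iff₀ (by positivity) (by positivity)]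
      nlinarith
    linarith

lemma tsum_le {F L : ℝ} (hF : 0 < F) (hFL : F ≤ L) :
    ∑' n : ℕ, ENNReal.ofReal (1 / (n * F ^ 2 + L ^ 2) ^ 2) ≤ ENNReal.ofReal (2 / (F ^ 2 * L ^ 2)) := by
  refine ENNReal.tsum_le_of_sum_range_le fun N => ?_
  rw [← ENNReal.ofReal_sum_of_nonneg (fun n _ => by positivity)]
  apply ENNReal.ofReal_le_ofReal
  refine (tele_sum hF hFL N).trans ?_
  have hL : 0 < L := lt_of_lt_of_le hF hFL
  have : 0 ≤ 2 / (F ^ 2 * (N * F ^ 2 + L ^ 2)) := by positivity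
  linarith

lemma mem_cell {F L : ℝ≥0} (hF : 0 < F) {q : ℝ≥0 × ℝ} (hq : L ^ 4 ≤ q.1) :
    q ∈ Cell F (crn F L ⌊((q.1 : ℝ) - (L : ℝ) ^ 4) / (F : ℝ) ^ 4⌋₊ ⌊q.2 / (F : ℝ) ^ 2⌋) := by
  have hF' : (0:ℝ) < F := by exact_mod_cast hF
  have hq' : (L : ℝ) ^ 4 ≤ q.1 := by exact_mod_cast hq
  have h0 : 0 ≤ ((q.1 : ℝ) - (L : ℝ) ^ 4) / (F : ℝ) ^ 4 := div_nonneg (by linarith) (by positivity)
  have h1 := Nat.floor_le h0
  have h2 := Nat.lt_floor_add_one (((q.1 : ℝ) - (L : ℝ) ^ 4) / (F : ℝ) ^ 4)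
  have h3 := Int.floor_le (q.2 / (F : ℝ) ^ 2)
  have h4 := Int.lt_floor_add_one (q.2 / (F : ℝ) ^ 2)
  have hF4 : (0:ℝ) < (F : ℝ) ^ 4 := by positivity
  have hF2 : (0:ℝ) < (F : ℝ) ^ 2 := by positivity
  rw [le_div_iff₀ hF4] at h1
  rw [div_lt_iff₀ hF4] at h2
  rw [le_div_iff₀ hF2] at h3
  rw [div_lt_iff₀ hF2] at h4
  unfold crn Cell
  refine ⟨?_, ?_, ?_, ?_⟩
  · simp only
    rw [← NNReal.coe_le_coe]
    push_cast
    linarith
  · simp only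
    rw [← NNReal.coe_lt_coe]
    push_cast
    linarith
  · simp only; linarith
  · simp only; linarith

/-- Block bound. -/
lemma block_bound (hd : 7 ≤ d) {X : Fin d → ℝ≥0 × ℝ → Ω → ℝ} (h : GP X KK P)
    (hc : ∀ i, ∀ᵐ ω ∂P, Continuous fun q => X i q ω) {F L : ℝ≥0} (hF : 0 < F) (hFL1 : F ≤ L)
    (hFL : 3 * ((kap + 1) * (F : ℝ) ^ 2) ≤ cV * (L : ℝ) ^ 2) :
    P {ω | ∃ q : ℝ≥0 × ℝ, L ^ 4 ≤ q.1 ∧ q.1 ≤ 16 * L ^ 4 ∧ ∀ i, |X i q ω| ≤ F} ≤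
      ENNReal.ofReal (64 * CB d * ((F : ℝ) / L) ^ (d - 6)) := by
  have hL : 0 < L := lt_of_lt_of_le hF hFL1
  have hL' : (0:ℝ) < L := by exact_mod_cast hL
  have hF' : (0:ℝ) < F := by exact_mod_cast hF
  have hFL1' : (F : ℝ) ≤ L := by exact_mod_cast hFL1
  set N : ℕ := ⌊15 * (L : ℝ) ^ 4 / (F : ℝ) ^ 4⌋₊ + 1 with hN
  set E : ℕ → ℤ → Set Ω := fun a j => {ω | ∃ q ∈ Cell F (crn F L a j), ∀ i, |X i q ω| ≤ F} with hE
  have hsub : {ω | ∃ q : ℝ≥0 × ℝ, L ^ 4 ≤ q.1 ∧ q.1 ≤ 16 * L ^ 4 ∧ ∀ i, |X i q ω| ≤ F} ⊆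
      ⋃ a ∈ Finset.range N, ((⋃ n : ℕ, E a (n : ℤ)) ∪ ⋃ n : ℕ, E a (Int.negSucc n)) := by
    rintro ω ⟨q, hq1, hq2, hq⟩
    have hm := mem_cell hF hq1
    have hq2' : (q.1 : ℝ) ≤ 16 * (L : ℝ) ^ 4 := by exact_mod_cast hq2
    simp only [mem_iUnion]
    refine ⟨⌊((q.1 : ℝ) - (L : ℝ) ^ 4) / (F : ℝ) ^ 4⌋₊, ?_, ?_⟩
    · rw [Finset.mem_range, hN, Nat.lt_succ_iff]
      apply Nat.floor_mono
      gcongr
      linarith
    · rcases hj : ⌊q.2 / (F : ℝ) ^ 2⌋ with n | n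
      · left
        rw [hj] at hm
        exact mem_iUnion.mpr ⟨n, q, hm, hq⟩
      · right
        rw [hj] at hm
        exact mem_iUnion.mpr ⟨n, q, hm, hq⟩
  refine (measure_mono hsub).trans ((measure_biUnion_finset_le _ _).trans ?_)
  have hone : ∀ a, P ((⋃ n : ℕ, E a (n : ℤ)) ∪ ⋃ n : ℕ, E a (Int.negSucc n)) ≤
      ENNReal.ofReal (CB d * (F : ℝ) ^ d / (L : ℝ) ^ (d - 4)) *
        ENNReal.ofReal (2 / ((F:ℝ) ^ 2 * (L:ℝ) ^ 2)) +
      ENNReal.ofReal (CB d * (F : ℝ) ^ d / (L : ℝ) ^ (d - 4)) *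
        ENNReal.ofReal (2 / ((F:ℝ) ^ 2 * (L:ℝ) ^ 2)) := by
    intro a
    refine (measure_union_le _ _).trans (add_le_add ?_ ?_)
    · refine (measure_iUnion_le _).trans ?_
      refine (ENNReal.tsum_le_tsum fun n => cell_prob hd h hc hF hL hFL a (n := n) (by simp)).trans ?_
      rw [ENNReal.tsum_mul_left]
      gcongr
      exact tsum_le hF' hFL1'
    · refine (measure_iUnion_le _).trans ?_
      refine (ENNReal.tsum_le_tsum fun n => cell_prob hd h hc hF hL hFL a (n := n) (by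
        simp only [Int.cast_negSucc]
        rw [abs_neg, abs_of_nonneg (by positivity)]
        push_cast; linarith)).trans ?_
      rw [ENNReal.tsum_mul_left]
      gcongr
      exact tsum_le hF' hFL1'
  refine (Finset.sum_le_sum fun a _ => hone a).trans ?_
  rw [Finset.sum_const, Finset.card_range, nsmul_eq_mul, ← ENNReal.ofReal_natCast,
    ← ENNReal.ofReal_mul (div_nonneg (mul_nonneg (CB_nonneg d) (by positivity)) (by positivity)),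
    ← ENNReal.ofReal_add (mul_nonneg (div_nonneg (mul_nonneg (CB_nonneg d) (by positivity)) (by positivity)) (by positivity))
      (mul_nonneg (div_nonneg (mul_nonneg (CB_nonneg d) (by positivity)) (by positivity)) (by positivity)),
    ← ENNReal.ofReal_mul (by positivity)]
  apply ENNReal.ofReal_le_ofReal
  have hNle : (N : ℝ) ≤ 16 * (L : ℝ) ^ 4 / (F : ℝ) ^ 4 := by
    rw [hN]
    push_cast
    have h1 := Nat.floor_le (show 0 ≤ 15 * (L : ℝ) ^ 4 / (F : ℝ) ^ 4 by positivity)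
    have h2 : 1 ≤ (L : ℝ) ^ 4 / (F : ℝ) ^ 4 := by
      rw [one_le_div (by positivity)]
      gcongr
    calc _ ≤ 15 * (L : ℝ) ^ 4 / (F : ℝ) ^ 4 + (L : ℝ) ^ 4 / (F : ℝ) ^ 4 := add_le_add h1 h2
      _ = _ := by ring
  have hCB := CB_nonneg d
  obtain ⟨k, rfl⟩ := Nat.exists_eq_add_of_le (show 6 ≤ d by omega)
  have e1 : 6 + k - 4 = 2 + k := by omega
  have e2 : 6 + k - 6 = k := by omega
  rw [e1, e2]
  calc (N : ℝ) * (CB (6 + k) * (F : ℝ) ^ (6 + k) / (L : ℝ) ^ (2 + k) * (2 / ((F:ℝ) ^ 2 * (L:ℝ) ^ 2)) +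
        CB (6 + k) * (F : ℝ) ^ (6 + k) / (L : ℝ) ^ (2 + k) * (2 / ((F:ℝ) ^ 2 * (L:ℝ) ^ 2)))
      ≤ (16 * (L : ℝ) ^ 4 / (F : ℝ) ^ 4) * (CB (6 + k) * (F : ℝ) ^ (6 + k) / (L : ℝ) ^ (2 + k) *
          (2 / ((F:ℝ) ^ 2 * (L:ℝ) ^ 2)) +
        CB (6 + k) * (F : ℝ) ^ (6 + k) / (L : ℝ) ^ (2 + k) * (2 / ((F:ℝ) ^ 2 * (L:ℝ) ^ 2))) := by gcongr
    _ = 64 * CB (6 + k) * ((F : ℝ) / L) ^ k := by
        rw [pow_add, pow_add, div_pow]
        field_simp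
        ring

end Pool.Agent.H99.Str
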