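import Pool.Agent.H99.StrD

/-!
Convergence half, by the first Borel-Cantelli lemma.
-/

open MeasureTheory ProbabilityTheory Set Filter Topology
open scoped NNReal ENNReal Interval

namespace Pool.Agent.H99.Str

variable {Ω : Type*} [MeasurableSpace Ω] {P : Measure Ω} {d : ℕ}

lemma ennreal_pow_tendsto_zero {k : ℕ} (hk : k ≠ 0) {r : ℕ → ℝ} (hr : ∀ n, 0 ≤ r n)
    (hs : ∑' n, ENNReal.ofReal (r n ^ k) ≠ ∞) : Tendsto r atTop (𝓝 0) := by
  have h1 := ENNReal.tendsto_atTop_zero_of_tsum_ne_top hs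
  have h2 : Tendsto (fun n => r n ^ k) atTop (𝓝 0) := by
    have := (ENNReal.tendsto_toReal ENNReal.zero_ne_top).comp h1
    simp only [ENNReal.toReal_zero] at this
    refine this.congr fun n => ?_
    simp only [Function.comp]
    rw [ENNReal.toReal_ofReal (pow_nonneg (hr n) k)]
  have h3 := h2.rpow_const (p := (k : ℝ)⁻¹) (Or.inr (by positivity))
  rw [Real.zero_rpow (by positivity)] at h3
  refine h3.congr fun n => ?_
  rw [← Real.rpow_natCast, ← Real.rpow_mul (hr n), mul_inv_cancel₀ (by exact_mod_cast hk), Real.rpow_one]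

lemma norm_coord_le (v : EuclideanSpace ℝ (Fin d)) (i : Fin d) : |v i| ≤ ‖v‖ := by
  have := PiLp.norm_apply_le v i
  simpa using this

lemma IsPinnedString.cont {U : ℝ≥0 → ℝ → Ω → EuclideanSpace ℝ (Fin d)} (h : IsPinnedString d U P)
    (i : Fin d) : ∀ᵐ ω ∂P, Continuous fun q : ℝ≥0 × ℝ => U q.1 q.2 ω i := by
  filter_upwards [h.continuous_paths] with ω hω
  exact (EuclideanSpace.proj (𝕜 := ℝ) i).continuous.comp hω

/-- Convergence half for one multiplicative constant. -/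
lemma conv_one (hd : 7 ≤ d) {U : ℝ≥0 → ℝ → Ω → EuclideanSpace ℝ (Fin d)} (h : IsPinnedString d U P)
    {f : ℝ → ℝ} (hf : MonotoneOn f (Ioi 0)) (hf0 : ∀ t, 0 < t → 0 < f t)
    (hs : ∑' n : ℕ, ENNReal.ofReal ((f (16 ^ (n + 1)) / 2 ^ n) ^ (d - 6)) ≠ ∞) {K : ℝ} (hK : 0 < K) :
    ∀ᵐ ω ∂P, ∀ᶠ t : ℝ≥0 in atTop, K * f t ≤ ⨅ x : ℝ, ‖U t x ω‖ := by
  have hcv := cV_pos
  have hkp := kap_pos
  set r : ℕ → ℝ := fun n => f (16 ^ (n + 1)) / 2 ^ n with hr
  have hr0 : ∀ n, 0 < r n := fun n => div_pos (hf0 _ (by positivity)) (by positivity)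
  have hrt : Tendsto r atTop (𝓝 0) := ennreal_pow_tendsto_zero (by omega) (fun n => (hr0 n).le) hs
  have hKrt : Tendsto (fun n => K * r n) atTop (𝓝 0) := by
    have := hrt.const_mul K
    simpa using this
  have hev1 : ∀ᶠ n in atTop, K * r n ≤ 1 := hKrt.eventually_le_const one_pos
  have hev2 : ∀ᶠ n in atTop, 3 * ((kap + 1) * (K * r n) ^ 2) ≤ cV := by
    have : Tendsto (fun n => 3 * ((kap + 1) * (K * r n) ^ 2)) atTop (𝓝 (3 * ((kap + 1) * 0 ^ 2))) :=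
      ((hKrt.pow 2).const_mul _).const_mul _
    rw [show 3 * ((kap + 1) * (0:ℝ) ^ 2) = 0 by ring] at this
    exact this.eventually_le_const hcv
  obtain ⟨n0, hn0⟩ := eventually_atTop.mp (hev1.and hev2)
  set X : Fin d → ℝ≥0 × ℝ → Ω → ℝ := fun i q ω => U q.1 q.2 ω i with hX
  set F : ℕ → ℝ≥0 := fun n => Real.toNNReal (K * f (16 ^ (n + 1))) with hF
  have hFc : ∀ n, (F n : ℝ) = K * f (16 ^ (n + 1)) := fun n =>
    Real.coe_toNNReal _ (mul_nonneg hK.le (hf0 _ (by positivity)).le)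
  have hFr : ∀ n, (F n : ℝ) = K * r n * 2 ^ n := fun n => by
    rw [hFc, hr]; field_simp
  set L : ℕ → ℝ≥0 := fun n => 2 ^ n with hL
  set E : ℕ → Set Ω := fun n => {ω | ∃ q : ℝ≥0 × ℝ, (L n) ^ 4 ≤ q.1 ∧ q.1 ≤ 16 * (L n) ^ 4 ∧
    ∀ i, |X i q ω| ≤ F n} with hE
  have hPE : ∀ n, n0 ≤ n → P (E n) ≤ ENNReal.ofReal (64 * CB d * K ^ (d - 6)) *
      ENNReal.ofReal (r n ^ (d - 6)) := by
    intro n hn
    obtain ⟨h1, h2⟩ := hn0 n hn
    have hFpos : 0 < F n := by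
      rw [← NNReal.coe_pos, hFc]
      exact mul_pos hK (hf0 _ (by positivity))
    have hLc : (L n : ℝ) = 2 ^ n := by simp [hL]
    refine (block_bound hd h.gp (fun i => h.cont i) (F := F n) (L := L n) hFpos ?_ ?_).trans ?_
    · rw [← NNReal.coe_le_coe, hFr, hLc]
      exact mul_le_of_le_one_left (by positivity) h1
    · rw [hFr, hLc]
      calc 3 * ((kap + 1) * (K * r n * 2 ^ n) ^ 2) = 3 * ((kap + 1) * (K * r n) ^ 2) * (2 ^ n) ^ 2 := by ring
        _ ≤ cV * (2 ^ n) ^ 2 := by gcongr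
    · have hCB := CB_nonneg d
      rw [← ENNReal.ofReal_mul (by positivity)]
      apply ENNReal.ofReal_le_ofReal
      rw [hFr, hLc, mul_div_assoc, div_self (by positivity), mul_one, mul_pow]
      exact le_of_eq (by ring)
  have hsum : ∑' n, P (E (n + n0)) ≠ ∞ := by
    refine ne_top_of_le_ne_top ?_ (ENNReal.tsum_le_tsum fun n => hPE (n + n0) (by omega))
    rw [ENNReal.tsum_mul_left]
    refine ENNReal.mul_ne_top ENNReal.ofReal_ne_top ?_
    refine ne_top_of_le_ne_top hs ?_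
    exact ENNReal.tsum_comp_le_tsum_of_injective (add_left_injective n0)
      (fun n => ENNReal.ofReal (r n ^ (d - 6)))
  filter_upwards [ae_eventually_notMem hsum] with ω hω
  obtain ⟨n1, hn1⟩ := eventually_atTop.mp hω
  rw [eventually_atTop]
  refine ⟨16 ^ (n1 + n0 + 1), fun t ht => ?_⟩
  have ht' : (16:ℝ) ^ (n1 + n0 + 1) ≤ t := by exact_mod_cast ht
  have ht1 : (1:ℝ) ≤ t := (one_le_pow₀ (by norm_num)).trans ht'
  obtain ⟨n, hn, hn'⟩ := exists_nat_pow_near ht1 (show (1:ℝ) < 16 by norm_num)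
  have hnn : n1 + n0 ≤ n := by
    have h1 : (16:ℝ) ^ (n1 + n0 + 1) < 16 ^ (n + 1) := lt_of_le_of_lt ht' hn'
    have := (pow_lt_pow_iff_right₀ (show (1:ℝ) < 16 by norm_num)).mp h1
    omega
  have hnE : ω ∉ E n := by
    have := hn1 (n - n0) (by omega)
    rwa [Nat.sub_add_cancel (by omega)] at this
  refine le_ciInf fun x => ?_
  by_contra hcon
  push Not at hcon
  apply hnE
  refine ⟨(t, x), ?_, ?_, fun i => ?_⟩
  · rw [← NNReal.coe_le_coe]
    simp only [hL, NNReal.coe_pow, NNReal.coe_ofNat]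
    rw [← pow_mul, mul_comm, pow_mul]
    norm_num
    exact hn
  · rw [← NNReal.coe_le_coe]
    simp only [hL, NNReal.coe_mul, NNReal.coe_pow, NNReal.coe_ofNat]
    rw [← pow_mul, mul_comm n 4, pow_mul]
    norm_num
    rw [pow_succ] at hn'
    linarith
  · refine (norm_coord_le _ i).trans (hcon.le.trans ?_)
    rw [hFc]
    apply mul_le_mul_of_nonneg_left _ hK.le
    apply hf
    · show (0:ℝ) < t; linarith
    · show (0:ℝ) < 16 ^ (n + 1); positivity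
    · exact hn'.le

/-- Convergence half. -/
theorem conv_half (hd : 7 ≤ d) {U : ℝ≥0 → ℝ → Ω → EuclideanSpace ℝ (Fin d)} (h : IsPinnedString d U P)
    {f : ℝ → ℝ} (hf : MonotoneOn f (Ioi 0)) (hf0 : ∀ t, 0 < t → 0 < f t)
    (hs : ∑' n : ℕ, ENNReal.ofReal ((f (16 ^ (n + 1)) / 2 ^ n) ^ (d - 6)) ≠ ∞) :
    ∀ᵐ ω ∂P, liminf (fun t : ℝ≥0 => (((⨅ x : ℝ, ‖U t x ω‖) / f t : ℝ) : EReal)) atTop = ⊤ := by
  have h1 : ∀ᵐ ω ∂P, ∀ K : ℕ, ∀ᶠ t : ℝ≥0 in atTop, ((K:ℝ) + 1) * f t ≤ ⨅ x : ℝ, ‖U t x ω‖ :=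
    ae_all_iff.mpr fun K => conv_one hd h hf hf0 hs (by positivity)
  filter_upwards [h1] with ω hω
  apply Tendsto.liminf_eq
  rw [EReal.tendsto_nhds_top_iff_real]
  intro x
  obtain ⟨K, hK⟩ := exists_nat_gt x
  filter_upwards [hω K, eventually_gt_atTop 0] with t ht ht0
  have hft : 0 < f t := hf0 _ (by exact_mod_cast ht0)
  rw [EReal.coe_lt_coe_iff, lt_div_iff₀ hft]
  nlinarith

end Pool.Agent.H99.Str
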