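import Mathlib

/-!
Definitions for the stationary pinned string (problem MP_e113db_pr).
-/

open MeasureTheory ProbabilityTheory Set
open scoped NNReal ENNReal

namespace Pool.Agent.H99.Str

/-- The heat kernel `G_t(x) = (4 π t)^{-1/2} exp(-x^2/(4t))` (for `t > 0`; it is `0` for `t ≤ 0`). -/
noncomputable def heatKernel (t x : ℝ) : ℝ :=
  Real.exp (-(x ^ 2) / (4 * t)) / Real.sqrt (4 * Real.pi * t)

/-- The deterministic kernel against which the initial noise is integrated to give the contribution
of the initial profile to `U_t(x)`. For `t = 0` it is `G_r(x - z) - G_r(z)`, the kernel of `U_0(x)`;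
for `t > 0` it is the spatial convolution of `G_t` with the kernels of `U_0`, i.e. the kernel of
`∫ G_t(x - y) U_0(y) dy`. -/
noncomputable def initKernel (t x r z : ℝ) : ℝ :=
  if t = 0 then heatKernel r (x - z) - heatKernel r z
  else ∫ y : ℝ, heatKernel t (x - y) * (heatKernel r (y - z) - heatKernel r z)

/-- The deterministic kernel of the stochastic convolution `∫_0^t ∫ G_{t-r}(x - z) W(dz dr)`. -/
noncomputable def noiseKernel (t x r z : ℝ) : ℝ :=
  if r < t then heatKernel (t - r) (x - z) else 0

/-- Covariance of one coordinate of the stationary pinned string between the space-time points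
`(t, x)` and `(s, y)`, given by the isometry of the two independent white noises. -/
noncomputable def stringCov (t x s y : ℝ) : ℝ :=
  (∫ r in Ioi (0 : ℝ), ∫ z : ℝ, initKernel t x r z * initKernel s y r z) +
    ∫ r in Ioi (0 : ℝ), ∫ z : ℝ, noiseKernel t x r z * noiseKernel s y r z

/-- `U` is (a version with almost surely continuous paths of) the stationary pinned string in
`ℝ^d`: a jointly Gaussian centred field whose coordinates are uncorrelated (hence independent), each
coordinate having the covariance `stringCov`. -/
structure IsPinnedString {Ω : Type*} [MeasurableSpace Ω] (d : ℕ)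
    (U : ℝ≥0 → ℝ → Ω → EuclideanSpace ℝ (Fin d)) (P : Measure Ω) : Prop where
  gaussian : IsGaussianProcess (fun (q : Fin d × ℝ≥0 × ℝ) ω => U q.2.1 q.2.2 ω q.1) P
  centered : ∀ i t x, ∫ ω, U t x ω i ∂P = 0
  covariance_eq : ∀ i j t x s y, ∫ ω, U t x ω i * U s y ω j ∂P =
    if i = j then stringCov t x s y else 0
  continuous_paths : ∀ᵐ ω ∂P, Continuous fun q : ℝ≥0 × ℝ => U q.1 q.2 ω

end Pool.Agent.H99.Str
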