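import Mathlib

/-!
A deterministic dyadic chaining lemma.
-/

open MeasureTheory Set Filter Topology
open scoped NNReal ENNReal

namespace Pool.Agent.H99.Str

/-- chaining functional -/
noncomputable def chainS (d : ℕ) (y : ℕ → ℕ → ℕ → ℝ) : ℝ≥0∞ :=
  ∑' j : ℕ, ENNReal.ofReal ((25/24) ^ (j * d)) *
    ∑ a ∈ Finset.range (4 ^ (j + 1)), ∑ b ∈ Finset.range (2 ^ (j + 1)),
      ‖y (j + 1) a b - y j (a / 4) (b / 2)‖ₑ ^ d

lemma chain_inc {d : ℕ} (hd : d ≠ 0) (y : ℕ → ℕ → ℕ → ℝ) (J a b : ℕ) (ha : a < 4 ^ (J + 1))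
    (hb : b < 2 ^ (J + 1)) :
    ‖y (J + 1) a b - y J (a / 4) (b / 2)‖ₑ ≤
      ENNReal.ofReal ((24/25) ^ J) * (chainS d y) ^ ((d : ℝ)⁻¹) := by
  have h1 : ‖y (J + 1) a b - y J (a / 4) (b / 2)‖ₑ ^ d ≤
      ∑ a ∈ Finset.range (4 ^ (J + 1)), ∑ b ∈ Finset.range (2 ^ (J + 1)),
      ‖y (J + 1) a b - y J (a / 4) (b / 2)‖ₑ ^ d := by
    refine le_trans ?_ (Finset.single_le_sum
      (f := fun a => ∑ b ∈ Finset.range (2 ^ (J + 1)), ‖y (J + 1) a b - y J (a / 4) (b / 2)‖ₑ ^ d)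
      (fun _ _ => zero_le) (Finset.mem_range.mpr ha))
    exact Finset.single_le_sum (f := fun b => ‖y (J + 1) a b - y J (a / 4) (b / 2)‖ₑ ^ d)
      (fun _ _ => zero_le) (Finset.mem_range.mpr hb)
  have h2 : ENNReal.ofReal ((25/24) ^ (J * d)) * ‖y (J + 1) a b - y J (a / 4) (b / 2)‖ₑ ^ d ≤
      chainS d y := by
    refine (mul_le_mul' le_rfl h1).trans ?_
    exact ENNReal.le_tsum (f := fun j => ENNReal.ofReal ((25/24) ^ (j * d)) *
      ∑ a ∈ Finset.range (4 ^ (j + 1)), ∑ b ∈ Finset.range (2 ^ (j + 1)),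
      ‖y (j + 1) a b - y j (a / 4) (b / 2)‖ₑ ^ d) J
  have h3 : ‖y (J + 1) a b - y J (a / 4) (b / 2)‖ₑ ^ d ≤
      ENNReal.ofReal ((24/25) ^ (J * d)) * chainS d y := by
    calc _ = ENNReal.ofReal ((24/25) ^ (J * d)) * (ENNReal.ofReal ((25/24) ^ (J * d)) *
          ‖y (J + 1) a b - y J (a / 4) (b / 2)‖ₑ ^ d) := by
            rw [← mul_assoc, ← ENNReal.ofReal_mul (by positivity), ← mul_pow]
            norm_num
      _ ≤ _ := mul_le_mul' le_rfl h2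
  have hd' : (0:ℝ) ≤ (d : ℝ)⁻¹ := by positivity
  have h4 := ENNReal.rpow_le_rpow h3 hd'
  rw [ENNReal.mul_rpow_of_nonneg _ _ hd', ← ENNReal.rpow_natCast, ← ENNReal.rpow_mul,
    mul_inv_cancel₀ (by exact_mod_cast hd), ENNReal.rpow_one] at h4
  refine h4.trans (le_of_eq ?_)
  congr 1
  rw [ENNReal.ofReal_rpow_of_nonneg (by positivity) hd', pow_mul, ← Real.rpow_natCast _ d,
    ← Real.rpow_mul (by positivity), mul_inv_cancel₀ (by exact_mod_cast hd), Real.rpow_one]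

lemma chain_bound {d : ℕ} (hd : d ≠ 0) (y : ℕ → ℕ → ℕ → ℝ) (h0 : y 0 0 0 = 0) :
    ∀ J a b : ℕ, a < 4 ^ J → b < 2 ^ J →
    ‖y J a b‖ₑ ≤ ENNReal.ofReal (25 * (1 - (24/25) ^ J)) * (chainS d y) ^ ((d : ℝ)⁻¹) := by
  intro J
  induction J with
  | zero =>
    intro a b ha hb
    have ha' : a = 0 := by simpa using ha
    have hb' : b = 0 := by simpa using hb
    subst ha' hb'
    simp [h0]
  | succ J ih =>
    intro a b ha hb
    have h1 := ih (a / 4) (b / 2) (by rw [pow_succ] at ha; omega) (by rw [pow_succ] at hb; omega)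
    have h2 := chain_inc hd y J a b ha hb
    have h3 : ‖y (J + 1) a b‖ₑ ≤ ‖y J (a / 4) (b / 2)‖ₑ + ‖y (J + 1) a b - y J (a / 4) (b / 2)‖ₑ := by
      have := enorm_add_le (y J (a / 4) (b / 2)) (y (J + 1) a b - y J (a / 4) (b / 2))
      simpa using this
    refine h3.trans ((add_le_add h1 h2).trans (le_of_eq ?_))
    have hp : (24/25 : ℝ) ^ J ≤ 1 := pow_le_one₀ (by norm_num) (by norm_num)
    rw [← add_mul, ← ENNReal.ofReal_add (by nlinarith) (by positivity)]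
    congr 2
    rw [pow_succ]; ring

lemma chain_bound' {d : ℕ} (hd : d ≠ 0) (y : ℕ → ℕ → ℕ → ℝ) (h0 : y 0 0 0 = 0)
    (J a b : ℕ) (ha : a < 4 ^ J) (hb : b < 2 ^ J) :
    ‖y J a b‖ₑ ≤ 25 * (chainS d y) ^ ((d : ℝ)⁻¹) := by
  refine (chain_bound hd y h0 J a b ha hb).trans ?_
  gcongr
  rw [show (25 : ℝ≥0∞) = ENNReal.ofReal 25 by norm_num]
  apply ENNReal.ofReal_le_ofReal
  have : (0:ℝ) ≤ (24/25) ^ J := by positivity
  linarith

/-- the geometric series of the chaining argument converges -/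
lemma geom_ratio {d : ℕ} (hd : 7 ≤ d) :
    (25/24 : ℝ) ^ d * 8 * (Real.sqrt (1/2)) ^ d ≤ 19/20 := by
  have hs : Real.sqrt (1/2) ≤ 0.70711 := by
    rw [Real.sqrt_le_left (by norm_num)]; norm_num
  have hs0 : 0 ≤ Real.sqrt (1/2) := Real.sqrt_nonneg _
  have key : ∀ k : ℕ, (25/24 : ℝ) ^ (7 + k) * 8 * (Real.sqrt (1/2)) ^ (7 + k) ≤ 19/20 := by
    intro k
    induction k with
    | zero =>
      have : (Real.sqrt (1/2)) ^ 7 ≤ 0.70711 ^ 7 := by gcongr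
      calc _ ≤ (25/24 : ℝ) ^ 7 * 8 * 0.70711 ^ 7 := by
            rw [add_zero]; gcongr
        _ ≤ 19/20 := by norm_num
    | succ k ih =>
      have e : (25/24 : ℝ) ^ (7 + (k + 1)) * 8 * (Real.sqrt (1/2)) ^ (7 + (k + 1)) =
          ((25/24 : ℝ) ^ (7 + k) * 8 * (Real.sqrt (1/2)) ^ (7 + k)) * (25/24 * Real.sqrt (1/2)) := by
        rw [show 7 + (k + 1) = (7 + k) + 1 by ring, pow_succ, pow_succ]; ring
      rw [e]
      have h1 : 25/24 * Real.sqrt (1/2) ≤ 1 := by nlinarith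
      have h2 : 0 ≤ (25/24 : ℝ) ^ (7 + k) * 8 * (Real.sqrt (1/2)) ^ (7 + k) := by positivity
      nlinarith [mul_le_mul_of_nonneg_left h1 h2]
  obtain ⟨k, rfl⟩ := Nat.exists_eq_add_of_le hd
  exact key k

end Pool.Agent.H99.Str
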