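import Pool.Agent.H99.StrP

/-!
Two point small ball estimate.
-/

open MeasureTheory ProbabilityTheory Set Filter Topology
open scoped NNReal ENNReal Interval

namespace Pool.Agent.H99.Str

variable {Ω : Type*} [MeasurableSpace Ω] {P : Measure Ω} {d : ℕ} {Q Q' : Type*}

lemma indep_prod {α β : Type*} [MeasurableSpace α] [MeasurableSpace β] [IsProbabilityMeasure P]
    {X : Ω → α} {Y : Ω → β} (hXY : IndepFun X Y P) (hX : AEMeasurable X P) (hY : AEMeasurable Y P)
    {S : Set (α × β)} (hS : MeasurableSet S) :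
    P {ω | (X ω, Y ω) ∈ S} = ∫⁻ ω, P {ω' | (X ω', Y ω) ∈ S} ∂P := by
  have h1 := (indepFun_iff_map_prod_eq_prod_map_map hX hY).mp hXY
  have : IsProbabilityMeasure (P.map X) := Measure.isProbabilityMeasure_map hX
  have : IsProbabilityMeasure (P.map Y) := Measure.isProbabilityMeasure_map hY
  have h2 : P {ω | (X ω, Y ω) ∈ S} = (P.map fun ω => (X ω, Y ω)) S := by
    rw [Measure.map_apply_of_aemeasurable (hX.prodMk hY) hS]; rfl
  rw [h2, h1, Measure.prod_apply_symm hS]
  have h3 : Measurable fun y => (P.map X) ((fun x => (x, y)) ⁻¹' S) := measurable_measure_prodMk_right hS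
  rw [lintegral_map' h3.aemeasurable hY]
  refine lintegral_congr fun ω => ?_
  rw [Measure.map_apply_of_aemeasurable hX (measurable_prodMk_right hS)]
  rfl

namespace GP

variable {X : Fin d → Q → Ω → ℝ} {K : Q → Q → ℝ}

lemma two_point_coord (h : GP X K P) {q r : Q} (hq : 0 < K q q)
    (hD : 0 < K q q * K r r - K q r ^ 2) (hsym : K q r = K r q) {a b : ℝ} (ha : 0 ≤ a) (hb : 0 ≤ b)
    (i : Fin d) :
    P {ω | |X i q ω| ≤ a ∧ |X i r ω| ≤ b} ≤
      ENNReal.ofReal (a * b / Real.sqrt (K q q * K r r - K q r ^ 2)) := by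
  have hprob := h.isProb
  set c : Bool → Q →₀ ℝ := fun t => if t then Finsupp.single q 1
    else Finsupp.single r 1 - (K q r / K q q) • Finsupp.single q 1 with hc
  have hG := h.comb c
  have hcov : BK K (c true) (c false) = 0 := by
    simp only [hc, if_true, Bool.false_eq_true, if_false, map_sub, map_smul, BK_single_single,
      smul_eq_mul]
    field_simp
    ring
  have hvar : BK K (c false) (c false) = (K q q * K r r - K q r ^ 2) / K q q := by
    simp only [hc, Bool.false_eq_true, if_false, map_sub, map_smul, BK_single_single,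
      smul_eq_mul, LinearMap.sub_apply, LinearMap.smul_apply]
    rw [← hsym]
    field_simp
    ring
  have hind := hG.indep_of_cov (S := Unit) (T := Unit) (fun _ => true) (fun _ => false)
    (fun _ _ => hcov)
  have hind2 : IndepFun (fun ω => lc (fun q => X i q ω) (c true))
      (fun ω => lc (fun q => X i q ω) (c false)) P := by
    exact hind.comp (φ := fun f : Fin d × Unit → ℝ => f (i, ()))
      (ψ := fun f : Fin d × Unit → ℝ => f (i, ())) (by fun_prop) (by fun_prop)
  set Y : Ω → ℝ := fun ω => lc (fun q => X i q ω) (c false) with hY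
  have hXt : ∀ ω, lc (fun q => X i q ω) (c true) = X i q ω := by intro ω; simp [hc]
  simp_rw [hXt] at hind2
  have hYr : ∀ ω, X i r ω = (K q r / K q q) * X i q ω + Y ω := by
    intro ω
    simp only [hY, hc, Bool.false_eq_true, if_false, lc_sub, lc_smul, lc_single]
    ring
  set S : Set (ℝ × ℝ) := {p | |p.2| ≤ a ∧ |(K q r / K q q) * p.2 + p.1| ≤ b} with hS
  have hSm : MeasurableSet S := by
    have h1 : Measurable fun p : ℝ × ℝ => |p.2| := by fun_prop
    have h2 : Measurable fun p : ℝ × ℝ => |(K q r / K q q) * p.2 + p.1| := by fun_prop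
    exact (h1 measurableSet_Iic).inter (h2 measurableSet_Iic)
  have hYm : AEMeasurable Y P := hG.aemeas i false
  have e1 : {ω | |X i q ω| ≤ a ∧ |X i r ω| ≤ b} = {ω | (Y ω, X i q ω) ∈ S} := by
    ext ω; simp only [mem_ofPred_eq, hS, hYr]
  rw [e1, indep_prod hind2.symm hYm (h.aemeas i q) hSm]
  have hCG : CG Y ((K q q * K r r - K q r ^ 2) / K q q) P := by
    have := hG.cg i false
    rw [hvar] at this
    exact this
  have hvpos : 0 < (K q q * K r r - K q r ^ 2) / K q q := div_pos hD hq
  set β := ENNReal.ofReal (b / Real.sqrt ((K q q * K r r - K q r ^ 2) / K q q)) with hβ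
  have hbd : ∀ ω, P {ω' | (Y ω', X i q ω) ∈ S} ≤ {ω | |X i q ω| ≤ a}.indicator (fun _ => β) ω := by
    intro ω
    by_cases hω : |X i q ω| ≤ a
    · rw [indicator_of_mem (by exact hω)]
      refine (measure_mono ?_).trans (hCG.anti hvpos ((K q r / K q q) * X i q ω) hb)
      intro ω' hω'
      exact hω'.2
    · rw [indicator_of_notMem (by exact hω)]
      have : {ω' | (Y ω', X i q ω) ∈ S} = ∅ := by
        ext ω'; simp only [mem_ofPred_eq, hS, mem_empty_iff_false, iff_false]
        intro hh; exact hω hh.1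
      rw [this]; simp
  refine (lintegral_mono hbd).trans ?_
  have hnull : NullMeasurableSet {ω | |X i q ω| ≤ a} P := by
    have : AEMeasurable (fun ω => |X i q ω|) P := (h.aemeas i q).abs
    exact this.nullMeasurableSet_preimage measurableSet_Iic
  rw [lintegral_indicator_const₀ hnull]
  have h1 := (h.cg i q).anti hq 0 ha
  simp only [zero_add] at h1
  calc β * P {ω | |X i q ω| ≤ a} ≤ β * ENNReal.ofReal (a / Real.sqrt (K q q)) := by gcongr
    _ = _ := by
      rw [hβ, ← ENNReal.ofReal_mul (by positivity)]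
      congr 1
      rw [Real.sqrt_div hD.le]
      have h3 : Real.sqrt (K q q) ≠ 0 := by positivity
      have h4 : Real.sqrt (K q q * K r r - K q r ^ 2) ≠ 0 := by positivity
      field_simp

/-- Two point small ball upper bound. -/
lemma two_point_le (h : GP X K P) {q r : Q} (hq : 0 < K q q)
    (hD : 0 < K q q * K r r - K q r ^ 2) (hsym : K q r = K r q) {a b : ℝ} (ha : 0 ≤ a) (hb : 0 ≤ b) :
    P ({ω | ∀ i, |X i q ω| ≤ a} ∩ {ω | ∀ i, |X i r ω| ≤ b}) ≤
      ENNReal.ofReal (a * b / Real.sqrt (K q q * K r r - K q r ^ 2)) ^ d := by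
  have hm : MeasurableSet {f : Q → ℝ | |f q| ≤ a ∧ |f r| ≤ b} := by
    have h1 : Measurable fun f : Q → ℝ => |f q| := by fun_prop
    have h2 : Measurable fun f : Q → ℝ => |f r| := by fun_prop
    exact (h1 measurableSet_Iic).inter (h2 measurableSet_Iic)
  have e : ({ω | ∀ i, |X i q ω| ≤ a} ∩ {ω | ∀ i, |X i r ω| ≤ b}) =
      ⋂ i ∈ (Finset.univ : Finset (Fin d)),
      (fun ω (q : Q) => X i q ω) ⁻¹' {f : Q → ℝ | |f q| ≤ a ∧ |f r| ≤ b} := by
    ext ω; simp [forall_and]
  rw [e, h.iIndep_coord.measure_inter_preimage_eq_mul Finset.univ (fun i _ => hm)]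
  refine (Finset.prod_le_prod' (g := fun _ => ENNReal.ofReal (a * b /
    Real.sqrt (K q q * K r r - K q r ^ 2))) fun i _ => ?_).trans (by simp)
  exact h.two_point_coord hq hD hsym ha hb i

end GP

end Pool.Agent.H99.Str
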