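import Pool.Agent.H99.StrC
import Pool.Agent.H99.StrT
import Pool.Agent.H99.StrH

/-!
The kernel of the string, as a Gaussian field.
-/

open MeasureTheory ProbabilityTheory Set Filter Topology
open scoped NNReal ENNReal Interval

namespace Pool.Agent.H99.Str

/-- variance at a point -/
noncomputable def Vq (q : ℝ≥0 × ℝ) : ℝ := Vf q.1 q.2

/-- variance of an increment -/
noncomputable def Vd (q r : ℝ≥0 × ℝ) : ℝ := Vf |(q.1 : ℝ) - r.1| (q.2 - r.2)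

/-- covariance kernel -/
noncomputable def KK (q r : ℝ≥0 × ℝ) : ℝ := (Vq q + Vq r - Vd q r) / 2

lemma Vq_nonneg (q : ℝ≥0 × ℝ) : 0 ≤ Vq q := Vf_nonneg q.1.2 _

lemma Vd_nonneg (q r : ℝ≥0 × ℝ) : 0 ≤ Vd q r := Vf_nonneg (abs_nonneg _) _

lemma Vd_comm (q r : ℝ≥0 × ℝ) : Vd q r = Vd r q := by
  unfold Vd
  rw [abs_sub_comm, ← Vf_neg]
  congr 1; ring

lemma Vd_self (q : ℝ≥0 × ℝ) : Vd q q = 0 := by
  unfold Vd; simp [Vf_zero_zero]

lemma KK_comm (q r : ℝ≥0 × ℝ) : KK q r = KK r q := by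
  unfold KK; rw [Vd_comm]; ring

lemma KK_self (q : ℝ≥0 × ℝ) : KK q q = Vq q := by
  unfold KK; rw [Vd_self]; ring

lemma KK_eq (q r : ℝ≥0 × ℝ) : KK q r = stringCov q.1 q.2 r.1 r.2 := by
  rw [stringCov_eq q.1.coe_nonneg r.1.coe_nonneg]; rfl

/-- general Lipschitz type bound for `Vf` -/
lemma Vf_lip {a b : ℝ} (ha : 0 ≤ a) (hb : 0 ≤ b) (z z' : ℝ) :
    |Vf a z - Vf b z'| ≤ Real.sqrt |a - b| / Real.sqrt Real.pi + kap * |z - z'| := by
  have h1 := Vf_time_lip ha hb z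
  have h2 := Vf_space_lip hb z z'
  have h3 : Vf a z - Vf b z' = (Vf a z - Vf b z) + (Vf b z - Vf b z') := by ring
  rw [h3]
  exact (abs_add_le _ _).trans (add_le_add h1 h2)

lemma Vf_two {τ : ℝ} (hτ : 0 ≤ τ) (z : ℝ) :
    Real.sqrt τ / Real.sqrt Real.pi + kap * |z| ≤ 2 * Vf τ z := by
  have h1 := Vf_ge_time hτ z
  have h2 := Vf_ge_space hτ z
  linarith

lemma Vq_lip (q r : ℝ≥0 × ℝ) : |Vq q - Vq r| ≤ 2 * Vd q r :=
  (Vf_lip q.1.2 r.1.2 _ _).trans (Vf_two (abs_nonneg _) _)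

lemma Vq_sub_Vd (q r : ℝ≥0 × ℝ) : |Vq q - Vd q r| ≤ 2 * Vq r := by
  unfold Vq Vd
  refine (Vf_lip q.1.2 (abs_nonneg _) _ _).trans ?_
  refine le_trans ?_ (Vf_two r.1.2 r.2)
  have h1 : abs ((q.1 : ℝ) - abs ((q.1 : ℝ) - r.1)) ≤ r.1 := by
    have hq := q.1.2
    have hr := r.1.2
    rw [abs_le]
    constructor
    · rcases abs_cases ((q.1 : ℝ) - r.1) with h | h <;> linarith [h.1]
    · rcases abs_cases ((q.1 : ℝ) - r.1) with h | h <;> linarith [h.1]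
  have h2 : q.2 - (q.2 - r.2) = r.2 := by ring
  rw [h2]
  gcongr
  exact h1

lemma KK_abs_le (q r : ℝ≥0 × ℝ) : |KK q r| ≤ (3/2) * Vq r := by
  unfold KK
  have h1 := Vq_sub_Vd q r
  have h2 := Vq_nonneg r
  rw [abs_le] at h1 ⊢
  constructor <;> linarith [h1.1, h1.2]

lemma KK_inc_abs_le (q r : ℝ≥0 × ℝ) : |KK q r - Vq r| ≤ (3/2) * Vd q r := by
  unfold KK
  have h1 := Vq_lip q r
  have h2 := Vd_nonneg q r
  rw [abs_le] at h1 ⊢
  constructor <;> linarith [h1.1, h1.2]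

lemma continuous_Vq : Continuous Vq := by
  rw [continuous_iff_continuousAt]
  intro q
  unfold ContinuousAt
  rw [tendsto_iff_norm_sub_tendsto_zero]
  have hg : Tendsto (fun r : ℝ≥0 × ℝ => Real.sqrt |(r.1 : ℝ) - q.1| / Real.sqrt Real.pi +
      kap * |r.2 - q.2|) (𝓝 q) (𝓝 0) := by
    have hc : Continuous (fun r : ℝ≥0 × ℝ => Real.sqrt |(r.1 : ℝ) - q.1| / Real.sqrt Real.pi +
      kap * |r.2 - q.2|) := by fun_prop
    have := hc.tendsto q
    simpa using this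
  refine squeeze_zero (fun _ => norm_nonneg _) (fun r => ?_) hg
  exact Vf_lip r.1.2 q.1.2 _ _

lemma continuous_Vd (r : ℝ≥0 × ℝ) : Continuous fun q => Vd q r := by
  have h : (fun q : ℝ≥0 × ℝ => Vd q r) =
      Vq ∘ (fun q : ℝ≥0 × ℝ => (‖(q.1 : ℝ) - r.1‖₊, q.2 - r.2)) := by
    funext q
    simp only [Vd, Vq, Function.comp, coe_nnnorm, Real.norm_eq_abs]
  rw [h]
  exact continuous_Vq.comp (by fun_prop)

lemma continuous_KK (r : ℝ≥0 × ℝ) : Continuous fun q => KK q r := by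
  unfold KK
  exact ((continuous_Vq.add continuous_const).sub (continuous_Vd r)).div_const 2

/-- the coordinate field of a pinned string -/
lemma IsPinnedString.gp {Ω : Type*} [MeasurableSpace Ω] {d : ℕ} {P : Measure Ω}
    {U : ℝ≥0 → ℝ → Ω → EuclideanSpace ℝ (Fin d)} (h : IsPinnedString d U P) :
    GP (fun i (q : ℝ≥0 × ℝ) ω => U q.1 q.2 ω i) KK P where
  gauss := h.gaussian
  mean i q := h.centered i q.1 q.2
  cov i j q r := by rw [h.covariance_eq, KK_eq]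

end Pool.Agent.H99.Str
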