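import Mathlib

/-!
Second moment lemma for finite families of events.
-/

open MeasureTheory ProbabilityTheory Set Filter Topology
open scoped NNReal ENNReal

namespace Pool.Agent.H99.Str

variable {Ω : Type*} [MeasurableSpace Ω] {P : Measure Ω}

lemma int_ind [IsProbabilityMeasure P] {A : Set Ω} (hA : NullMeasurableSet A P) :
    Integrable (A.indicator fun _ => (1:ℝ)) P := (integrable_const (1:ℝ)).indicator₀ hA

lemma integral_ind {A : Set Ω} (hA : NullMeasurableSet A P) :
    ∫ ω, A.indicator (fun _ => (1:ℝ)) ω ∂P = P.real A := by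
  rw [integral_indicator₀ hA]
  simp

lemma cov_ind [IsProbabilityMeasure P] {A B : Set Ω} (hA : NullMeasurableSet A P)
    (hB : NullMeasurableSet B P) :
    ∫ ω, (A.indicator (fun _ => (1:ℝ)) ω - P.real A) * (B.indicator (fun _ => (1:ℝ)) ω - P.real B) ∂P =
      P.real (A ∩ B) - P.real A * P.real B := by
  have hAB : NullMeasurableSet (A ∩ B) P := hA.inter hB
  have e : ∀ ω, (A.indicator (fun _ => (1:ℝ)) ω - P.real A) * (B.indicator (fun _ => (1:ℝ)) ω - P.real B) =
      (A ∩ B).indicator (fun _ => (1:ℝ)) ω - P.real B * A.indicator (fun _ => (1:ℝ)) ω -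
        P.real A * B.indicator (fun _ => (1:ℝ)) ω + P.real A * P.real B := by
    intro ω
    by_cases h1 : ω ∈ A <;> by_cases h2 : ω ∈ B <;>
      simp [h1, h2] <;> ring
  simp_rw [e]
  have i1 := int_ind hAB
  have i2 := (int_ind hA).const_mul (P.real B)
  have i3 := (int_ind hB).const_mul (P.real A)
  have j1 : Integrable (fun ω => (A ∩ B).indicator (fun _ => (1:ℝ)) ω -
      P.real B * A.indicator (fun _ => (1:ℝ)) ω) P := i1.sub i2
  have j2 : Integrable (fun ω => (A ∩ B).indicator (fun _ => (1:ℝ)) ω -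
      P.real B * A.indicator (fun _ => (1:ℝ)) ω - P.real A * B.indicator (fun _ => (1:ℝ)) ω) P :=
    j1.sub i3
  rw [integral_add j2 (integrable_const _), integral_sub j1 i3, integral_sub i1 i2, integral_const_mul, integral_const_mul, integral_ind hAB, integral_ind hA,
    integral_ind hB]
  simp
  ring

/-- second moment lemma -/
lemma second_moment [IsProbabilityMeasure P] {ι : Type*} (S : Finset ι) (A : ι → Set Ω)
    (hA : ∀ s, NullMeasurableSet (A s) P) :
    (∑ s ∈ S, P.real (A s)) ^ 2 * P.real (⋂ s ∈ S, (A s)ᶜ) ≤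
      ∑ s ∈ S, ∑ t ∈ S, (P.real (A s ∩ A t) - P.real (A s) * P.real (A t)) := by
  set f : ι → Ω → ℝ := fun s ω => (A s).indicator (fun _ => (1:ℝ)) ω - P.real (A s) with hf
  have hN : NullMeasurableSet (⋂ s ∈ S, (A s)ᶜ) P :=
    Finset.nullMeasurableSet_biInter S fun s _ => (hA s).compl
  have hfi : ∀ s, Integrable (f s) P := fun s => (int_ind (hA s)).sub (integrable_const _)
  have hff : ∀ s t, Integrable (fun ω => f s ω * f t ω) P := by
    intro s t
    refine (hfi s).mul_bdd (c := 1 + P.real (A t)) (hfi t).aestronglyMeasurable ?_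
    refine Eventually.of_forall fun ω => ?_
    simp only [hf]
    refine (norm_sub_le _ _).trans (add_le_add ?_ ?_)
    · by_cases h : ω ∈ A t <;> simp [h]
    · rw [Real.norm_of_nonneg measureReal_nonneg]
  have e1 : ∫ ω, (∑ s ∈ S, f s ω) ^ 2 ∂P =
      ∑ s ∈ S, ∑ t ∈ S, (P.real (A s ∩ A t) - P.real (A s) * P.real (A t)) := by
    have : ∀ ω, (∑ s ∈ S, f s ω) ^ 2 = ∑ s ∈ S, ∑ t ∈ S, f s ω * f t ω := by
      intro ω; rw [sq, Finset.sum_mul_sum]
    simp_rw [this]
    rw [integral_finsetSum _ fun s _ => integrable_finsetSum _ fun t _ => hff s t]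
    refine Finset.sum_congr rfl fun s _ => ?_
    rw [integral_finsetSum _ fun t _ => hff s t]
    refine Finset.sum_congr rfl fun t _ => ?_
    exact cov_ind (hA s) (hA t)
  rw [← e1]
  have hi : Integrable (fun ω => (∑ s ∈ S, f s ω) ^ 2) P := by
    have : (fun ω => (∑ s ∈ S, f s ω) ^ 2) = fun ω => ∑ s ∈ S, ∑ t ∈ S, f s ω * f t ω := by
      funext ω; rw [sq, Finset.sum_mul_sum]
    rw [this]
    exact integrable_finsetSum _ fun s _ => integrable_finsetSum _ fun t _ => hff s t
  rw [← integral_ind hN, ← integral_const_mul]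
  refine integral_mono ((int_ind hN).const_mul _) hi fun ω => ?_
  simp only
  by_cases h : ω ∈ ⋂ s ∈ S, (A s)ᶜ
  · rw [indicator_of_mem h]
    have h' : ∀ s ∈ S, ω ∉ A s := by simpa using h
    have : ∑ s ∈ S, f s ω = - ∑ s ∈ S, P.real (A s) := by
      rw [← Finset.sum_neg_distrib]
      refine Finset.sum_congr rfl fun s hs => ?_
      simp only [hf]
      rw [indicator_of_notMem (h' s hs)]; ring
    rw [this]; apply le_of_eq; ring
  · rw [indicator_of_notMem h, mul_zero]
    positivity

end Pool.Agent.H99.Str
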