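import Pool.Agent.H99.StrT

/-!
Sharp two point ratio bound.
-/

open MeasureTheory ProbabilityTheory Set Filter Topology
open scoped NNReal ENNReal Interval

namespace Pool.Agent.H99.Str

variable {Ω : Type*} [MeasurableSpace Ω] {P : Measure Ω} {d : ℕ} {Q Q' : Type*}

lemma gaussianPDFReal_abs_anti {v : ℝ≥0} {x y : ℝ} (h : |x| ≤ |y|) :
    gaussianPDFReal 0 v y ≤ gaussianPDFReal 0 v x := by
  simp only [gaussianPDFReal_def, sub_zero]
  have : x ^ 2 ≤ y ^ 2 := sq_le_sq.mpr h
  gcongr

lemma continuous_gaussianPDFReal' (v : ℝ≥0) : Continuous (gaussianPDFReal 0 v) := by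
  simp only [gaussianPDFReal_def]
  fun_prop

lemma gaussianReal_Icc_eq {v : ℝ≥0} (hv : v ≠ 0) {a b : ℝ} (hab : a ≤ b) :
    gaussianReal 0 v (Icc a b) = ENNReal.ofReal (∫ x in a..b, gaussianPDFReal 0 v x) := by
  rw [gaussianReal_apply_eq_integral _ hv, intervalIntegral.integral_of_le hab,
    integral_Icc_eq_integral_Ioc]

lemma anderson_real {v : ℝ≥0} {m a : ℝ} (hm : 0 ≤ m) (ha : 0 ≤ a) :
    ∫ x in (m - a)..(m + a), gaussianPDFReal 0 v x ≤ ∫ x in (-a)..a, gaussianPDFReal 0 v x := by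
  have hc := continuous_gaussianPDFReal' v
  have hi : ∀ s t : ℝ, IntervalIntegrable (gaussianPDFReal 0 v) volume s t := fun s t =>
    hc.intervalIntegrable s t
  have e1 := intervalIntegral.integral_add_adjacent_intervals (hi (-a) (m - a)) (hi (m - a) (m + a))
  have e2 := intervalIntegral.integral_add_adjacent_intervals (hi (-a) a) (hi a (m + a))
  have e3 : ∫ x in a..(m + a), gaussianPDFReal 0 v x =
      ∫ x in (-a)..(m - a), gaussianPDFReal 0 v (x + 2 * a) := by
    rw [intervalIntegral.integral_comp_add_right]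
    congr 1 <;> ring
  have e4 : ∫ x in (-a)..(m - a), gaussianPDFReal 0 v (x + 2 * a) ≤
      ∫ x in (-a)..(m - a), gaussianPDFReal 0 v x := by
    refine intervalIntegral.integral_mono_on (by linarith) ?_ (hi _ _) fun x hx => ?_
    · exact (hc.comp (continuous_id.add continuous_const)).intervalIntegrable _ _
    · apply gaussianPDFReal_abs_anti
      have hx1 := hx.1
      rw [abs_of_nonneg (show 0 ≤ x + 2 * a by linarith)]
      rw [abs_le]; constructor <;> linarith
  linarith

/-- Anderson's inequality in dimension one. -/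
lemma anderson {v : ℝ≥0} (hv : v ≠ 0) (m : ℝ) {a : ℝ} (ha : 0 ≤ a) :
    gaussianReal 0 v (Icc (m - a) (m + a)) ≤ gaussianReal 0 v (Icc (-a) a) := by
  rw [gaussianReal_Icc_eq hv (by linarith), gaussianReal_Icc_eq hv (by linarith)]
  apply ENNReal.ofReal_le_ofReal
  rcases le_total 0 m with hm | hm
  · exact anderson_real hm ha
  · have h1 := anderson_real (v := v) (m := -m) (by linarith) ha
    have h2 : ∫ x in (m - a)..(m + a), gaussianPDFReal 0 v x =
        ∫ x in (-m - a)..(-m + a), gaussianPDFReal 0 v x := by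
      have := intervalIntegral.integral_comp_neg (a := m - a) (b := m + a) (gaussianPDFReal 0 v)
      rw [show -(m + a) = -m - a by ring, show -(m - a) = -m + a by ring] at this
      rw [← this]
      refine intervalIntegral.integral_congr fun x _ => ?_
      simp [gaussianPDFReal_def]
    rw [h2]; exact h1

lemma CG.anderson {X : Ω → ℝ} {v : ℝ} (h : CG X v P) (hv : 0 < v) (m : ℝ) {a : ℝ} (ha : 0 ≤ a) :
    P {ω | |m + X ω| ≤ a} ≤ P {ω | |X ω| ≤ a} := by
  have hm := h.law.aemeasurable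
  have e : {ω | |m + X ω| ≤ a} = X ⁻¹' (Icc (-m - a) (-m + a)) := by
    ext ω
    simp only [mem_ofPred_eq, mem_preimage, mem_Icc, abs_le]
    constructor <;> rintro ⟨h1, h2⟩ <;> constructor <;> linarith
  have e2 : {ω | |X ω| ≤ a} = X ⁻¹' (Icc (-a) a) := by
    ext ω; simp only [mem_ofPred_eq, mem_preimage, mem_Icc, abs_le]
  rw [e, e2, ← Measure.map_apply_of_aemeasurable hm measurableSet_Icc,
    ← Measure.map_apply_of_aemeasurable hm measurableSet_Icc, h.map_eq]
  exact Str.anderson (by simpa using hv) _ ha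

/-- Comparison of small balls for two variances. -/
lemma CG.compare {X Y : Ω → ℝ} {v w : ℝ} (hX : CG X v P) (hY : CG Y w P) (hw : 0 < w) (hwv : w ≤ v)
    (a : ℝ) : P {ω | |Y ω| ≤ a} ≤ ENNReal.ofReal (Real.sqrt (v / w)) * P {ω | |X ω| ≤ a} := by
  have hv : 0 < v := lt_of_lt_of_le hw hwv
  have hv' : v.toNNReal ≠ 0 := by simpa using hv
  have hw' : w.toNNReal ≠ 0 := by simpa using hw
  have e1 : {ω | |Y ω| ≤ a} = Y ⁻¹' (Icc (-a) a) := by
    ext ω; simp only [mem_ofPred_eq, mem_preimage, mem_Icc, abs_le]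
  have e2 : {ω | |X ω| ≤ a} = X ⁻¹' (Icc (-a) a) := by
    ext ω; simp only [mem_ofPred_eq, mem_preimage, mem_Icc, abs_le]
  rw [e1, e2, ← Measure.map_apply_of_aemeasurable hY.law.aemeasurable measurableSet_Icc,
    ← Measure.map_apply_of_aemeasurable hX.law.aemeasurable measurableSet_Icc, hX.map_eq, hY.map_eq,
    gaussianReal_apply _ hv', gaussianReal_apply _ hw', ← lintegral_const_mul _ (measurable_gaussianPDF _ _)]
  refine lintegral_mono fun x => ?_
  simp only [gaussianPDF]
  rw [← ENNReal.ofReal_mul (Real.sqrt_nonneg _)]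
  apply ENNReal.ofReal_le_ofReal
  simp only [gaussianPDFReal_def, sub_zero, Real.coe_toNNReal _ hv.le, Real.coe_toNNReal _ hw.le]
  have hpi := Real.pi_pos
  have h1 : Real.exp (-x ^ 2 / (2 * w)) ≤ Real.exp (-x ^ 2 / (2 * v)) := by
    apply Real.exp_le_exp.mpr
    rw [neg_div, neg_div, neg_le_neg_iff]
    gcongr
  have h2 : Real.sqrt (v / w) * (Real.sqrt (2 * Real.pi * v))⁻¹ = (Real.sqrt (2 * Real.pi * w))⁻¹ := by
    have e5 : Real.sqrt (2 * Real.pi * v) = Real.sqrt (2 * Real.pi) * Real.sqrt v :=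
      Real.sqrt_mul (by positivity) _
    have e6 : Real.sqrt (2 * Real.pi * w) = Real.sqrt (2 * Real.pi) * Real.sqrt w :=
      Real.sqrt_mul (by positivity) _
    rw [Real.sqrt_div hv.le, e5, e6]
    have h3 : Real.sqrt v ≠ 0 := by positivity
    have h4 : Real.sqrt w ≠ 0 := by positivity
    have h5 : Real.sqrt (2 * Real.pi) ≠ 0 := by positivity
    field_simp
  calc (Real.sqrt (2 * Real.pi * w))⁻¹ * Real.exp (-x ^ 2 / (2 * w))
      ≤ (Real.sqrt (2 * Real.pi * w))⁻¹ * Real.exp (-x ^ 2 / (2 * v)) := by gcongr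
    _ = _ := by rw [← h2]; ring

namespace GP

variable {X : Fin d → Q → Ω → ℝ} {K : Q → Q → ℝ}

lemma two_point_coord' (h : GP X K P) {q r : Q} (hq : 0 < K q q)
    (hD : 0 < K q q * K r r - K q r ^ 2) (hsym : K q r = K r q) {a b : ℝ} (ha : 0 ≤ a) (hb : 0 ≤ b)
    (i : Fin d) :
    P {ω | |X i q ω| ≤ a ∧ |X i r ω| ≤ b} ≤
      ENNReal.ofReal (Real.sqrt (K q q * K r r / (K q q * K r r - K q r ^ 2))) *
        (P {ω | |X i q ω| ≤ a} * P {ω | |X i r ω| ≤ b}) := by
  have hprob := h.isProb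
  set c : Bool → Q →₀ ℝ := fun t => if t then Finsupp.single q 1
    else Finsupp.single r 1 - (K q r / K q q) • Finsupp.single q 1 with hc
  have hG := h.comb c
  have hcov : BK K (c true) (c false) = 0 := by
    simp only [hc, if_true, Bool.false_eq_true, if_false, map_sub, map_smul, BK_single_single,
      smul_eq_mul]
    field_simp
    ring
  have hvar : BK K (c false) (c false) = (K q q * K r r - K q r ^ 2) / K q q := by
    simp only [hc, Bool.false_eq_true, if_false, map_sub, map_smul, BK_single_single,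
      smul_eq_mul, LinearMap.sub_apply, LinearMap.smul_apply]
    rw [← hsym]
    field_simp
    ring
  have hind := hG.indep_of_cov (S := Unit) (T := Unit) (fun _ => true) (fun _ => false)
    (fun _ _ => hcov)
  have hind2 : IndepFun (fun ω => lc (fun q => X i q ω) (c true))
      (fun ω => lc (fun q => X i q ω) (c false)) P := by
    exact hind.comp (φ := fun f : Fin d × Unit → ℝ => f (i, ()))
      (ψ := fun f : Fin d × Unit → ℝ => f (i, ())) (by fun_prop) (by fun_prop)
  set Y : Ω → ℝ := fun ω => lc (fun q => X i q ω) (c false) with hY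
  have hXt : ∀ ω, lc (fun q => X i q ω) (c true) = X i q ω := by intro ω; simp [hc]
  simp_rw [hXt] at hind2
  have hYr : ∀ ω, X i r ω = (K q r / K q q) * X i q ω + Y ω := by
    intro ω
    simp only [hY, hc, Bool.false_eq_true, if_false, lc_sub, lc_smul, lc_single]
    ring
  set S : Set (ℝ × ℝ) := {p | |p.2| ≤ a ∧ |(K q r / K q q) * p.2 + p.1| ≤ b} with hS
  have hSm : MeasurableSet S := by
    have h1 : Measurable fun p : ℝ × ℝ => |p.2| := by fun_prop
    have h2 : Measurable fun p : ℝ × ℝ => |(K q r / K q q) * p.2 + p.1| := by fun_prop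
    exact (h1 measurableSet_Iic).inter (h2 measurableSet_Iic)
  have hYm : AEMeasurable Y P := hG.aemeas i false
  have e1 : {ω | |X i q ω| ≤ a ∧ |X i r ω| ≤ b} = {ω | (Y ω, X i q ω) ∈ S} := by
    ext ω; simp only [mem_ofPred_eq, hS, hYr]
  rw [e1, indep_prod hind2.symm hYm (h.aemeas i q) hSm]
  have hCG : CG Y ((K q q * K r r - K q r ^ 2) / K q q) P := by
    have := hG.cg i false
    rw [hvar] at this
    exact this
  have hvpos : 0 < (K q q * K r r - K q r ^ 2) / K q q := div_pos hD hq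
  set β := P {ω | |Y ω| ≤ b} with hβ
  have hbd : ∀ ω, P {ω' | (Y ω', X i q ω) ∈ S} ≤ {ω | |X i q ω| ≤ a}.indicator (fun _ => β) ω := by
    intro ω
    by_cases hω : |X i q ω| ≤ a
    · rw [indicator_of_mem (by exact hω)]
      refine (measure_mono ?_).trans (hCG.anderson hvpos ((K q r / K q q) * X i q ω) hb)
      intro ω' hω'
      exact hω'.2
    · rw [indicator_of_notMem (by exact hω)]
      have : {ω' | (Y ω', X i q ω) ∈ S} = ∅ := by
        ext ω'; simp only [mem_ofPred_eq, hS, mem_empty_iff_false, iff_false]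
        intro hh; exact hω hh.1
      rw [this]; simp
  refine (lintegral_mono hbd).trans ?_
  have hnull : NullMeasurableSet {ω | |X i q ω| ≤ a} P := by
    have : AEMeasurable (fun ω => |X i q ω|) P := (h.aemeas i q).abs
    exact this.nullMeasurableSet_preimage measurableSet_Iic
  rw [lintegral_indicator_const₀ hnull]
  have hle : (K q q * K r r - K q r ^ 2) / K q q ≤ K r r := by
    rw [div_le_iff₀ hq]; nlinarith [sq_nonneg (K q r)]
  have h2 := (h.cg i r).compare hCG hvpos hle b
  have e3 : K r r / ((K q q * K r r - K q r ^ 2) / K q q) =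
      K q q * K r r / (K q q * K r r - K q r ^ 2) := by
    field_simp
  rw [e3] at h2
  calc β * P {ω | |X i q ω| ≤ a} ≤ (ENNReal.ofReal (Real.sqrt (K q q * K r r /
        (K q q * K r r - K q r ^ 2))) * P {ω | |X i r ω| ≤ b}) * P {ω | |X i q ω| ≤ a} := by gcongr
    _ = _ := by ring

lemma meas_box (h : GP X K P) (q : Q) (a : ℝ) :
    P {ω | ∀ i, |X i q ω| ≤ a} = ∏ i, P {ω | |X i q ω| ≤ a} := by
  have hm : MeasurableSet {f : Q → ℝ | |f q| ≤ a} := by
    have : Measurable fun f : Q → ℝ => |f q| := by fun_prop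
    exact this measurableSet_Iic
  have e : {ω | ∀ i, |X i q ω| ≤ a} = ⋂ i ∈ (Finset.univ : Finset (Fin d)),
      (fun ω (q : Q) => X i q ω) ⁻¹' {f : Q → ℝ | |f q| ≤ a} := by
    ext ω; simp
  rw [e, h.iIndep_coord.measure_inter_preimage_eq_mul Finset.univ (fun i _ => hm)]
  rfl

/-- Two point ratio bound. -/
lemma two_point_ratio (h : GP X K P) {q r : Q} (hq : 0 < K q q)
    (hD : 0 < K q q * K r r - K q r ^ 2) (hsym : K q r = K r q) {a b : ℝ} (ha : 0 ≤ a) (hb : 0 ≤ b) :
    P ({ω | ∀ i, |X i q ω| ≤ a} ∩ {ω | ∀ i, |X i r ω| ≤ b}) ≤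
      ENNReal.ofReal (Real.sqrt (K q q * K r r / (K q q * K r r - K q r ^ 2))) ^ d *
        (P {ω | ∀ i, |X i q ω| ≤ a} * P {ω | ∀ i, |X i r ω| ≤ b}) := by
  have hm : MeasurableSet {f : Q → ℝ | |f q| ≤ a ∧ |f r| ≤ b} := by
    have h1 : Measurable fun f : Q → ℝ => |f q| := by fun_prop
    have h2 : Measurable fun f : Q → ℝ => |f r| := by fun_prop
    exact (h1 measurableSet_Iic).inter (h2 measurableSet_Iic)
  have e : ({ω | ∀ i, |X i q ω| ≤ a} ∩ {ω | ∀ i, |X i r ω| ≤ b}) =
      ⋂ i ∈ (Finset.univ : Finset (Fin d)),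
      (fun ω (q : Q) => X i q ω) ⁻¹' {f : Q → ℝ | |f q| ≤ a ∧ |f r| ≤ b} := by
    ext ω; simp [forall_and]
  rw [e, h.iIndep_coord.measure_inter_preimage_eq_mul Finset.univ (fun i _ => hm), h.meas_box,
    h.meas_box, ← Finset.prod_mul_distrib]
  refine (Finset.prod_le_prod' fun i _ => h.two_point_coord' hq hD hsym ha hb i).trans ?_
  rw [Finset.prod_mul_distrib]
  simp

end GP

end Pool.Agent.H99.Str
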