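import Mathlib

/-!
Summation lemmas for the weights of the divergence half.
-/

open Set Filter Topology

namespace Pool.Agent.H99.Str

lemma sum_shift_le {G : ℤ → ℝ} (hG : ∀ z, 0 ≤ G z) (hs : Summable G) (S : Finset ℕ) (n : ℕ) :
    ∑ m ∈ S, G ((n:ℤ) - m) ≤ ∑' z, G z := by
  classical
  have hinj : Function.Injective fun m : ℕ => (n:ℤ) - m := by
    intro a b h
    simp only at h
    omega
  rw [← Finset.sum_image (f := G) (g := fun m : ℕ => (n:ℤ) - m) (fun a _ b _ h => hinj h)]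
  exact hs.sum_le_tsum _ fun z _ => hG z

/-- one dimensional weight -/
noncomputable def wt (s : ℝ) (z : ℤ) : ℝ := ((1 + |(z:ℝ)|) / 2) ^ (-s)

lemma wt_nonneg (s : ℝ) (z : ℤ) : 0 ≤ wt s z := by
  unfold wt; positivity

lemma summable_wt {s : ℝ} (hs : 1 < s) : Summable (wt s) := by
  have h1 : Summable fun n : ℕ => ((1 + (n:ℝ)) / 2) ^ (-s) := by
    have h2 : Summable fun n : ℕ => ((n:ℝ)) ^ (-s) := Real.summable_nat_rpow.mpr (by linarith)
    have h3 : Summable fun n : ℕ => (((n + 1 : ℕ):ℝ)) ^ (-s) := (summable_nat_add_iff 1).mpr h2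
    refine (h3.mul_right ((1/2 : ℝ) ^ (-s))).congr fun n => ?_
    rw [← Real.mul_rpow (by positivity) (by norm_num)]
    congr 1
    push_cast; ring
  rw [summable_int_iff_summable_nat_and_neg]
  constructor
  · refine h1.congr fun n => ?_
    unfold wt; simp
  · refine h1.congr fun n => ?_
    unfold wt; simp

lemma wt_key {a b : ℤ} (h : ¬ (a = 0 ∧ b = 0)) :
    (1 / Real.sqrt (|(b:ℝ)| + Real.sqrt |(a:ℝ)|)) ^ 7 ≤ wt (9/8) a * wt (5/4) b := by
  set w : ℝ := |(b:ℝ)| + Real.sqrt |(a:ℝ)| with hw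
  have ha0 := abs_nonneg (a:ℝ)
  have hb0 := abs_nonneg (b:ℝ)
  have hs0 := Real.sqrt_nonneg |(a:ℝ)|
  have ha1 : a ≠ 0 → (1:ℝ) ≤ |(a:ℝ)| := fun h => by exact_mod_cast Int.one_le_abs h
  have hb1 : b ≠ 0 → (1:ℝ) ≤ |(b:ℝ)| := fun h => by exact_mod_cast Int.one_le_abs h
  have hw1 : 1 ≤ w := by
    by_cases hb : b = 0
    · have ha : a ≠ 0 := fun ha => h ⟨ha, hb⟩
      have : (1:ℝ) ≤ Real.sqrt |(a:ℝ)| := by
        rw [Real.one_le_sqrt]; exact ha1 ha
      linarith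
    · linarith [hb1 hb]
  have hwb : (1 + |(b:ℝ)|) / 2 ≤ w := by linarith
  have hwa : (1 + |(a:ℝ)|) / 2 ≤ w ^ 2 := by
    have h1 : |(a:ℝ)| ≤ w ^ 2 := by
      have := Real.sq_sqrt ha0
      nlinarith
    nlinarith
  have hw0 : 0 < w := by linarith
  have e1 : (1 / Real.sqrt w) ^ 7 = w ^ (-(7/2) : ℝ) := by
    rw [one_div, Real.sqrt_eq_rpow, ← Real.rpow_neg hw0.le, ← Real.rpow_natCast, ← Real.rpow_mul hw0.le]
    norm_num
  rw [e1]
  unfold wt
  have e2 : w ^ (-(7/2) : ℝ) = (w ^ 2) ^ (-(9/8) : ℝ) * w ^ (-(5/4) : ℝ) := by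
    rw [← Real.rpow_natCast w 2, ← Real.rpow_mul hw0.le, ← Real.rpow_add hw0]
    norm_num
  rw [e2]
  apply mul_le_mul
  · exact Real.rpow_le_rpow_of_nonpos (by positivity) hwa (by norm_num)
  · exact Real.rpow_le_rpow_of_nonpos (by positivity) hwb (by norm_num)
  · positivity
  · positivity

lemma one_le_wt_zero {s : ℝ} (hs : 0 ≤ s) : 1 ≤ wt s 0 := by
  unfold wt
  simp only [Int.cast_zero, abs_zero, add_zero]
  exact Real.one_le_rpow_of_pos_of_le_one_of_nonpos (by norm_num) (by norm_num) (by linarith)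

/-- total weight -/
noncomputable def Wtot : ℝ := (∑' z, wt (9/8) z) * ∑' z, wt (5/4) z

lemma Wtot_nonneg : 0 ≤ Wtot :=
  mul_nonneg (tsum_nonneg fun z => wt_nonneg _ z) (tsum_nonneg fun z => wt_nonneg _ z)

lemma sum_wt_le (A B : Finset ℕ) (a b : ℕ) :
    ∑ g ∈ A ×ˢ B, wt (9/8) ((a:ℤ) - g.1) * wt (5/4) ((b:ℤ) - g.2) ≤ Wtot := by
  rw [Finset.sum_product]
  simp only
  simp_rw [← Finset.mul_sum]
  rw [← Finset.sum_mul]
  unfold Wtot
  refine mul_le_mul ?_ ?_ ?_ ?_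
  · exact sum_shift_le (fun z => wt_nonneg _ z) (summable_wt (by norm_num)) A a
  · exact sum_shift_le (fun z => wt_nonneg _ z) (summable_wt (by norm_num)) B b
  · exact Finset.sum_nonneg fun _ _ => wt_nonneg _ _
  · exact tsum_nonneg fun z => wt_nonneg _ z

/-- geometric weight over the integers -/
lemma summable_geomZ : Summable fun z : ℤ => (1/2 : ℝ) ^ z.natAbs := by
  have h1 : Summable fun n : ℕ => (1/2 : ℝ) ^ n := summable_geometric_of_lt_one (by norm_num) (by norm_num)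
  rw [summable_int_iff_summable_nat_and_neg]
  constructor
  · exact h1.congr fun n => by simp
  · exact h1.congr fun n => by simp

lemma one_add_pow_le {s : ℝ} (hs : 0 ≤ s) (hs1 : s ≤ 1) (n : ℕ) : (1 + s) ^ n ≤ 1 + 2 ^ n * s := by
  have key : (1 + s) ^ n ≤ 1 + (2 ^ n - 1) * s := by
    induction n with
    | zero => simp
    | succ n ih =>
      have h2 : (1:ℝ) ≤ 2 ^ n := one_le_pow₀ (by norm_num)
      calc (1 + s) ^ (n + 1) = (1 + s) ^ n * (1 + s) := pow_succ _ _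
        _ ≤ (1 + (2 ^ n - 1) * s) * (1 + s) := by gcongr
        _ ≤ 1 + (2 ^ (n + 1) - 1) * s := by
          rw [pow_succ]
          nlinarith [mul_nonneg (sub_nonneg.mpr h2) (mul_nonneg hs (sub_nonneg.mpr hs1))]
  refine key.trans ?_
  nlinarith

end Pool.Agent.H99.Str
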