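import Pool.Agent.H99.StrD2
import Pool.Agent.H99.StrR
import Pool.Agent.H99.StrM
import Pool.Agent.H99.StrW

/-!
Grid estimates for the divergence half.
-/

open MeasureTheory ProbabilityTheory Set Filter Topology
open scoped NNReal ENNReal Interval

namespace Pool.Agent.H99.Str

variable {Ω : Type*} [MeasurableSpace Ω] {P : Measure Ω} {d : ℕ}

/-- size parameter of the grids -/
noncomputable def dl : ℝ := 1 / (4 * (kap + 1))

lemma dl_pos : 0 < dl := by have := kap_pos; unfold dl; positivity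

lemma dl_le : dl ≤ 1 / 4 := by
  have := kap_pos
  unfold dl
  apply div_le_div_of_nonneg_left <;> linarith

lemma dl_sq : (kap + 1) * dl ^ 2 ≤ 1 / 16 := by
  have := kap_pos
  unfold dl
  rw [div_pow, one_pow, mul_one_div, div_le_div_iff₀ (by positivity) (by positivity)]
  nlinarith

/-- number of grid points in one direction -/
noncomputable def NN (F L : ℝ≥0) : ℕ := ⌊(dl * L / F) ^ 2⌋₊

/-- grid points -/
noncomputable def gd (F L : ℝ≥0) (g : ℕ × ℕ) : ℝ≥0 × ℝ := (L ^ 4 + g.1 * F ^ 4, g.2 * (F : ℝ) ^ 2)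

/-- index box -/
noncomputable def Box (F L : ℝ≥0) : Finset (ℕ × ℕ) := Finset.range (NN F L ^ 2) ×ˢ Finset.range (NN F L)

section
variable {F L : ℝ≥0}

lemma NN_le (F L : ℝ≥0) : (NN F L : ℝ) ≤ (dl * L / F) ^ 2 := Nat.floor_le (by positivity)

lemma NN_ge (hF : 0 < F) (h : (F : ℝ) ≤ dl * L) : (dl * L / F) ^ 2 / 2 ≤ NN F L := by
  have hF' : (0:ℝ) < F := by exact_mod_cast hF
  have h1 : 1 ≤ dl * L / F := by rwa [one_le_div hF']
  have h2 : (1:ℝ) ≤ (dl * L / F) ^ 2 := one_le_pow₀ h1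
  have h3 := Nat.lt_floor_add_one ((dl * L / F) ^ 2)
  have h4 : (1:ℝ) ≤ NN F L := by
    have : 1 ≤ NN F L := by
      unfold NN
      rw [Nat.one_le_floor_iff]; exact h2
    exact_mod_cast this
  have h5 : (dl * L / F) ^ 2 < NN F L + 1 := h3
  linarith

lemma card_Box (F L : ℝ≥0) : ((Box F L).card : ℝ) = (NN F L : ℝ) ^ 3 := by
  unfold Box
  rw [Finset.card_product, Finset.card_range, Finset.card_range]
  push_cast; ring

lemma mem_Box {g : ℕ × ℕ} (hg : g ∈ Box F L) :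
    (g.1 : ℝ) ≤ (dl * L / F) ^ 4 ∧ (g.2 : ℝ) ≤ (dl * L / F) ^ 2 := by
  unfold Box at hg
  rw [Finset.mem_product, Finset.mem_range, Finset.mem_range] at hg
  have h1 : (g.1 : ℝ) ≤ (NN F L : ℝ) ^ 2 := by exact_mod_cast hg.1.le
  have h2 : (g.2 : ℝ) ≤ (NN F L : ℝ) := by exact_mod_cast hg.2.le
  have h3 := NN_le F L
  refine ⟨h1.trans ?_, h2.trans h3⟩
  calc (NN F L : ℝ) ^ 2 ≤ ((dl * L / F) ^ 2) ^ 2 := by gcongr
    _ = _ := by ring

lemma gd_bounds (hF : 0 < F) {g : ℕ × ℕ} (hg : g ∈ Box F L) :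
    ((g.1 : ℝ) * (F : ℝ) ^ 4 ≤ (dl * L) ^ 4) ∧ ((g.2 : ℝ) * (F : ℝ) ^ 2 ≤ (dl * L) ^ 2) := by
  have hF' : (0:ℝ) < F := by exact_mod_cast hF
  obtain ⟨h1, h2⟩ := mem_Box hg
  constructor
  · calc (g.1 : ℝ) * (F : ℝ) ^ 4 ≤ (dl * L / F) ^ 4 * (F : ℝ) ^ 4 := by gcongr
      _ = _ := by rw [← mul_pow]; congr 1; field_simp
  · calc (g.2 : ℝ) * (F : ℝ) ^ 2 ≤ (dl * L / F) ^ 2 * (F : ℝ) ^ 2 := by gcongr
      _ = _ := by rw [← mul_pow]; congr 1; field_simp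

lemma Vd_ge (q r : ℝ≥0 × ℝ) : cV * (|q.2 - r.2| + Real.sqrt |(q.1 : ℝ) - r.1|) ≤ Vd q r := by
  have h := cV_le (‖(q.1 : ℝ) - r.1‖₊, q.2 - r.2)
  simpa [Vq, Vd] using h

lemma Vd_le (q r : ℝ≥0 × ℝ) : Vd q r ≤ kap * |q.2 - r.2| + Real.sqrt |(q.1 : ℝ) - r.1| / Real.sqrt Real.pi :=
  Vf_le (abs_nonneg _) _

lemma sqrt_pi_bounds : 1 ≤ Real.sqrt Real.pi ∧ Real.sqrt Real.pi ≤ 2 ∧ Real.sqrt 2 ≤ Real.sqrt Real.pi := by
  have h1 := Real.pi_gt_three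
  have h2 := Real.pi_lt_four
  refine ⟨Real.one_le_sqrt.mpr (by linarith), ?_, Real.sqrt_le_sqrt (by linarith)⟩
  rw [Real.sqrt_le_left (by norm_num)]; linarith

/-- (G1) -/
lemma Vq_gd_le (hF : 0 < F) {g : ℕ × ℕ} (hg : g ∈ Box F L) :
    Vq (gd F L g) ≤ (kap + 1) * (L : ℝ) ^ 2 := by
  obtain ⟨h1, h2⟩ := gd_bounds hF hg
  have hk := kap_pos
  have hd := dl_pos
  have hd4 := dl_le
  obtain ⟨p1, p2, p3⟩ := sqrt_pi_bounds
  refine (Vf_le (gd F L g).1.coe_nonneg _).trans ?_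
  have e1 : |(gd F L g).2| ≤ (L : ℝ) ^ 2 := by
    unfold gd; simp only
    rw [abs_of_nonneg (by positivity)]
    refine h2.trans ?_
    rw [mul_pow]
    exact mul_le_of_le_one_left (by positivity) (pow_le_one₀ hd.le (by linarith))
  have e2 : Real.sqrt (gd F L g).1 ≤ Real.sqrt 2 * (L : ℝ) ^ 2 := by
    rw [Real.sqrt_le_left (by positivity), mul_pow, Real.sq_sqrt (by norm_num)]
    unfold gd; push_cast
    have : (dl * L) ^ 4 ≤ (L : ℝ) ^ 4 := by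
      rw [mul_pow]
      exact mul_le_of_le_one_left (by positivity) (pow_le_one₀ hd.le (by linarith))
    nlinarith
  have e3 : Real.sqrt (gd F L g).1 / Real.sqrt Real.pi ≤ (L : ℝ) ^ 2 := by
    rw [div_le_iff₀ (by positivity)]
    refine e2.trans ?_
    rw [mul_comm]
    gcongr
  have e4 : kap * |(gd F L g).2| ≤ kap * (L : ℝ) ^ 2 := mul_le_mul_of_nonneg_left e1 hk.le
  linarith

/-- (G2) -/
lemma Vq_gd_ge (F L : ℝ≥0) (g : ℕ × ℕ) : (L : ℝ) ^ 2 / 2 ≤ Vq (gd F L g) := by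
  refine le_trans ?_ (Vf_ge_time (gd F L g).1.coe_nonneg _)
  obtain ⟨p1, p2, p3⟩ := sqrt_pi_bounds
  have h2 : (L : ℝ) ^ 2 ≤ Real.sqrt (gd F L g).1 := by
    apply Real.le_sqrt_of_sq_le
    unfold gd
    push_cast
    have : (0:ℝ) ≤ g.1 * (F : ℝ) ^ 4 := by positivity
    nlinarith
  gcongr

/-- the event -/
def Aev (X : Fin d → ℝ≥0 × ℝ → Ω → ℝ) (F L : ℝ≥0) (g : ℕ × ℕ) : Set Ω :=
  {ω | ∀ i, |X i (gd F L g) ω| ≤ F}

lemma null_Aev {X : Fin d → ℝ≥0 × ℝ → Ω → ℝ} (h : GP X KK P) (F L : ℝ≥0) (g : ℕ × ℕ) :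
    NullMeasurableSet (Aev X F L g) P := by
  have e : Aev X F L g = ⋂ i, {ω | |X i (gd F L g) ω| ≤ F} := by
    ext ω; simp [Aev]
  rw [e]
  refine NullMeasurableSet.iInter fun i => ?_
  exact ((h.aemeas i _).abs).nullMeasurableSet_preimage measurableSet_Iic

/-- constant of the lower bound -/
noncomputable def cF : ℝ := 1 / (3 * Real.sqrt (kap + 1))

lemma cF_pos : 0 < cF := by have := kap_pos; unfold cF; positivity

/-- (G3) -/
lemma prob_ge {X : Fin d → ℝ≥0 × ℝ → Ω → ℝ} (h : GP X KK P) (hF : 0 < F) (hFL : (F : ℝ) ≤ dl * L)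
    {g : ℕ × ℕ} (hg : g ∈ Box F L) : (cF * (F / L)) ^ d ≤ P.real (Aev X F L g) := by
  have hprob := h.isProb
  have hk := kap_pos
  have hF' : (0:ℝ) < F := by exact_mod_cast hF
  have hL' : (0:ℝ) < L := by
    rcases L.2.lt_or_eq with hh | hh
    · exact hh
    · exfalso
      have : (L : ℝ) = 0 := hh.symm
      rw [this] at hFL; linarith
  have h1 := Vq_gd_le hF hg
  have h2 := Vq_gd_ge F L g
  have h3 : 0 < Vq (gd F L g) := lt_of_lt_of_le (by positivity) h2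
  have hFV : (F : ℝ) ≤ Real.sqrt (Vq (gd F L g)) := by
    apply Real.le_sqrt_of_sq_le
    refine le_trans ?_ h2
    have hd := dl_pos
    have hd4 := dl_le
    have : (F : ℝ) ≤ 1/4 * L := hFL.trans (by gcongr)
    nlinarith
  have h4 := h.one_point_ge (q := gd F L g) (by rw [KK_self]; exact h3) hF'.le (by rw [KK_self]; exact hFV)
  rw [KK_self, ← ENNReal.ofReal_pow (by positivity), ENNReal.ofReal_le_iff_le_toReal (measure_ne_top _ _)] at h4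
  refine le_trans ?_ h4
  have h5 : Real.sqrt (Vq (gd F L g)) ≤ Real.sqrt (kap + 1) * L := by
    rw [Real.sqrt_le_left (by positivity), mul_pow, Real.sq_sqrt (by positivity)]
    exact h1
  have h6 : 0 < Real.sqrt (Vq (gd F L g)) := Real.sqrt_pos.mpr h3
  have h7 : cF * (F / L) ≤ 1 / 3 * ((F:ℝ) / Real.sqrt (Vq (gd F L g))) := by
    unfold cF
    have h8 : (F:ℝ) / (Real.sqrt (kap + 1) * L) ≤ (F:ℝ) / Real.sqrt (Vq (gd F L g)) := by gcongr
    calc 1 / (3 * Real.sqrt (kap + 1)) * ((F:ℝ) / L) = 1 / 3 * ((F:ℝ) / (Real.sqrt (kap + 1) * L)) := by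
          field_simp
      _ ≤ _ := by gcongr
  have := cF_pos
  gcongr

/-- (G4) -/
lemma prob_le {X : Fin d → ℝ≥0 × ℝ → Ω → ℝ} (h : GP X KK P) (hL : 0 < L)
    (g : ℕ × ℕ) : P.real (Aev X F L g) ≤ (2 * (F / L)) ^ d := by
  have hprob := h.isProb
  have hL' : (0:ℝ) < L := by exact_mod_cast hL
  have h2 := Vq_gd_ge F L g
  have h3 : 0 < Vq (gd F L g) := lt_of_lt_of_le (by positivity) h2
  have h4 := h.one_point_le (q := gd F L g) (by rw [KK_self]; exact h3) F.coe_nonneg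
  rw [KK_self, ← ENNReal.ofReal_pow (by positivity)] at h4
  refine (ENNReal.toReal_le_of_le_ofReal (by positivity) h4).trans ?_
  have h5 : (L : ℝ) / 2 ≤ Real.sqrt (Vq (gd F L g)) := by
    apply Real.le_sqrt_of_sq_le
    nlinarith
  have h7 : (F:ℝ) / Real.sqrt (Vq (gd F L g)) ≤ 2 * (F / L) := by
    calc (F:ℝ) / Real.sqrt (Vq (gd F L g)) ≤ F / ((L:ℝ) / 2) := by gcongr
      _ = _ := by field_simp
  gcongr

/-- (G5) -/
lemma Vd_gd_ge (F L : ℝ≥0) (g g' : ℕ × ℕ) :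
    cV * (F : ℝ) ^ 2 * (|(((g.2:ℤ) - g'.2 : ℤ) : ℝ)| + Real.sqrt |(((g.1:ℤ) - g'.1 : ℤ) : ℝ)|) ≤
      Vd (gd F L g) (gd F L g') := by
  refine le_trans (le_of_eq ?_) (Vd_ge _ _)
  unfold gd
  push_cast
  have e1 : (g.2 : ℝ) * (F:ℝ) ^ 2 - g'.2 * (F:ℝ) ^ 2 = ((g.2 : ℝ) - g'.2) * (F:ℝ) ^ 2 := by ring
  have e2 : (L:ℝ) ^ 4 + (g.1 : ℝ) * (F:ℝ) ^ 4 - ((L:ℝ) ^ 4 + g'.1 * (F:ℝ) ^ 4) =
      ((g.1 : ℝ) - g'.1) * (F:ℝ) ^ 4 := by ring
  rw [e1, e2, abs_mul, abs_mul, abs_of_nonneg (show (0:ℝ) ≤ (F:ℝ) ^ 2 by positivity),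
    abs_of_nonneg (show (0:ℝ) ≤ (F:ℝ) ^ 4 by positivity), Real.sqrt_mul (abs_nonneg _),
    show (F:ℝ) ^ 4 = ((F:ℝ) ^ 2) ^ 2 by ring, Real.sqrt_sq (by positivity)]
  ring

/-- (G6) -/
lemma Vd_gd_le (hF : 0 < F) {g g' : ℕ × ℕ} (hg : g ∈ Box F L) (hg' : g' ∈ Box F L) :
    Vd (gd F L g) (gd F L g') ≤ 1 / 16 * (L : ℝ) ^ 2 := by
  obtain ⟨h1, h2⟩ := gd_bounds hF hg
  obtain ⟨h1', h2'⟩ := gd_bounds hF hg'
  have hk := kap_pos
  have hd := dl_pos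
  obtain ⟨p1, p2, p3⟩ := sqrt_pi_bounds
  refine (Vd_le _ _).trans ?_
  have a1 : (0:ℝ) ≤ (g.1 : ℝ) * (F : ℝ) ^ 4 := by positivity
  have a2 : (0:ℝ) ≤ (g.2 : ℝ) * (F : ℝ) ^ 2 := by positivity
  have a1' : (0:ℝ) ≤ (g'.1 : ℝ) * (F : ℝ) ^ 4 := by positivity
  have a2' : (0:ℝ) ≤ (g'.2 : ℝ) * (F : ℝ) ^ 2 := by positivity
  have e1 : |(gd F L g).2 - (gd F L g').2| ≤ (dl * L) ^ 2 := by
    unfold gd; simp only
    rw [abs_le]; constructor <;> linarith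
  have e2 : |((gd F L g).1 : ℝ) - (gd F L g').1| ≤ (dl * L) ^ 4 := by
    unfold gd; push_cast
    rw [abs_le]; constructor <;> linarith
  have e3 : Real.sqrt |((gd F L g).1 : ℝ) - (gd F L g').1| / Real.sqrt Real.pi ≤ (dl * L) ^ 2 := by
    rw [div_le_iff₀ (by positivity)]
    have : Real.sqrt |((gd F L g).1 : ℝ) - (gd F L g').1| ≤ (dl * L) ^ 2 := by
      rw [Real.sqrt_le_left (by positivity)]
      refine e2.trans (le_of_eq ?_); ring
    have h0 : (0:ℝ) ≤ (dl * L) ^ 2 := by positivity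
    nlinarith
  have e4 : kap * |(gd F L g).2 - (gd F L g').2| ≤ kap * (dl * L) ^ 2 :=
    mul_le_mul_of_nonneg_left e1 hk.le
  have e5 : (kap + 1) * (dl * L) ^ 2 ≤ 1 / 16 * (L : ℝ) ^ 2 := by
    rw [mul_pow, ← mul_assoc]
    exact mul_le_mul_of_nonneg_right dl_sq (by positivity)
  linarith

/-- (G7) -/
lemma det_ge (hF : 0 < F) {g g' : ℕ × ℕ} (hg : g ∈ Box F L) (hg' : g' ∈ Box F L) :
    Vd (gd F L g) (gd F L g') * (L : ℝ) ^ 2 / 4 ≤
      KK (gd F L g) (gd F L g) * KK (gd F L g') (gd F L g') - KK (gd F L g) (gd F L g') ^ 2 := by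
  rw [KK_self, KK_self]
  unfold KK
  have h1 := Vd_gd_le hF hg hg'
  have h2 := Vq_gd_ge F L g
  have h3 := Vq_gd_ge F L g'
  have h4 := Vq_lip (gd F L g) (gd F L g')
  have h5 := Vd_nonneg (gd F L g) (gd F L g')
  generalize Vd (gd F L g) (gd F L g') = D at *
  generalize Vq (gd F L g) = A at *
  generalize Vq (gd F L g') = B at *
  have h6 : (A - B) ^ 2 ≤ (2 * D) ^ 2 := by
    rw [← sq_abs (A - B)]
    gcongr
  have e : A * B - ((A + B - D) / 2) ^ 2 = D * ((A + B) / 2 - D / 4) - (A - B) ^ 2 / 4 := by ring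
  rw [e]
  have h7 : D * ((A + B) / 2 - D / 4) - (A - B) ^ 2 / 4 ≥ D * ((A + B) / 2 - D / 4 - D) := by
    nlinarith
  have h8 : (L:ℝ) ^ 2 / 4 ≤ (A + B) / 2 - D / 4 - D := by linarith
  have h9 : D * ((L:ℝ) ^ 2 / 4) ≤ D * ((A + B) / 2 - D / 4 - D) := mul_le_mul_of_nonneg_left h8 h5
  linarith

/-- constant of the two point bound -/
noncomputable def CF (d : ℕ) : ℝ := (2 / Real.sqrt cV) ^ d + 2 ^ d

lemma CF_nonneg (d : ℕ) : 0 ≤ CF d := by have := cV_pos; unfold CF; positivity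

/-- (G8) -/
lemma pair_le (hd : 7 ≤ d) {X : Fin d → ℝ≥0 × ℝ → Ω → ℝ} (h : GP X KK P) (hF : 0 < F) (hL : 0 < L)
    {g g' : ℕ × ℕ} (hg : g ∈ Box F L) (hg' : g' ∈ Box F L) :
    P.real (Aev X F L g ∩ Aev X F L g') ≤
      CF d * ((F:ℝ) / L) ^ d * (wt (9/8) ((g.1:ℤ) - g'.1) * wt (5/4) ((g.2:ℤ) - g'.2)) := by
  have hprob := h.isProb
  have hcv := cV_pos
  have hF' : (0:ℝ) < F := by exact_mod_cast hF
  have hL' : (0:ℝ) < L := by exact_mod_cast hL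
  have hu : (0:ℝ) ≤ ((F:ℝ) / L) ^ d := by positivity
  by_cases hgg : g = g'
  · subst hgg
    rw [inter_self, sub_self, sub_self]
    have h1 := prob_le h hL g (F := F)
    have h2 : (1:ℝ) ≤ wt (9/8) 0 * wt (5/4) 0 :=
      one_le_mul_of_one_le_of_one_le (one_le_wt_zero (by norm_num)) (one_le_wt_zero (by norm_num))
    calc P.real (Aev X F L g) ≤ (2 * ((F:ℝ) / L)) ^ d := h1
      _ = 2 ^ d * ((F:ℝ) / L) ^ d := mul_pow _ _ _
      _ ≤ CF d * ((F:ℝ) / L) ^ d := by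
        apply mul_le_mul_of_nonneg_right _ hu
        unfold CF
        have : 0 ≤ (2 / Real.sqrt cV) ^ d := by positivity
        linarith
      _ = CF d * ((F:ℝ) / L) ^ d * 1 := (mul_one _).symm
      _ ≤ _ := mul_le_mul_of_nonneg_left h2 (mul_nonneg (CF_nonneg d) hu)
  · have hne : ¬ (((g.1:ℤ) - g'.1) = 0 ∧ ((g.2:ℤ) - g'.2) = 0) := by
      rintro ⟨e1, e2⟩
      apply hgg
      ext
      · omega
      · omega
    have hkey := wt_key hne
    have hVd := Vd_gd_ge F L g g'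
    have hdet := det_ge hF hg hg'
    set w : ℝ := |(((g.2:ℤ) - g'.2 : ℤ) : ℝ)| + Real.sqrt |(((g.1:ℤ) - g'.1 : ℤ) : ℝ)| with hw
    have hw1 : 1 ≤ w := by
      have ha1 : (g.1:ℤ) - g'.1 ≠ 0 → (1:ℝ) ≤ |(((g.1:ℤ) - g'.1 : ℤ) : ℝ)| :=
        fun h => by exact_mod_cast Int.one_le_abs h
      have hb1 : (g.2:ℤ) - g'.2 ≠ 0 → (1:ℝ) ≤ |(((g.2:ℤ) - g'.2 : ℤ) : ℝ)| :=
        fun h => by exact_mod_cast Int.one_le_abs h
      by_cases hb : (g.2:ℤ) - g'.2 = 0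
      · have ha : (g.1:ℤ) - g'.1 ≠ 0 := fun ha => hne ⟨ha, hb⟩
        have h1 : (1:ℝ) ≤ Real.sqrt |(((g.1:ℤ) - g'.1 : ℤ) : ℝ)| := by
          rw [Real.one_le_sqrt]; exact ha1 ha
        have h2 := abs_nonneg (((g.2:ℤ) - g'.2 : ℤ) : ℝ)
        linarith
      · have h1 := Real.sqrt_nonneg |(((g.1:ℤ) - g'.1 : ℤ) : ℝ)|
        linarith [hb1 hb]
    have hw0 : 0 < w := by linarith
    set D := KK (gd F L g) (gd F L g) * KK (gd F L g') (gd F L g') - KK (gd F L g) (gd F L g') ^ 2 with hD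
    have hD1 : cV * (F:ℝ) ^ 2 * w * (L:ℝ) ^ 2 / 4 ≤ D := by
      refine le_trans ?_ hdet
      gcongr
    have hD0 : 0 < D := lt_of_lt_of_le (by positivity) hD1
    have hV1 : 0 < KK (gd F L g) (gd F L g) := by
      rw [KK_self]; exact lt_of_lt_of_le (by positivity) (Vq_gd_ge F L g)
    have h4 := h.two_point_le hV1 hD0 (KK_comm _ _) F.coe_nonneg F.coe_nonneg
    rw [← ENNReal.ofReal_pow (by positivity)] at h4
    refine (ENNReal.toReal_le_of_le_ofReal (by positivity) h4).trans ?_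
    have h5 : Real.sqrt cV * F * Real.sqrt w * L / 2 ≤ Real.sqrt D := by
      apply Real.le_sqrt_of_sq_le
      refine le_trans (le_of_eq ?_) hD1
      have e1 := Real.sq_sqrt hcv.le
      have e2 := Real.sq_sqrt hw0.le
      calc (Real.sqrt cV * F * Real.sqrt w * L / 2) ^ 2 =
            (Real.sqrt cV) ^ 2 * (F:ℝ) ^ 2 * (Real.sqrt w) ^ 2 * (L:ℝ) ^ 2 / 4 := by ring
        _ = _ := by rw [e1, e2]
    have hsw : 0 < Real.sqrt w := Real.sqrt_pos.mpr hw0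
    have hsc : 0 < Real.sqrt cV := Real.sqrt_pos.mpr hcv
    have h6 : (F:ℝ) * F / Real.sqrt D ≤ (2 / Real.sqrt cV) * ((F:ℝ) / L) * (1 / Real.sqrt w) := by
      calc (F:ℝ) * F / Real.sqrt D ≤ (F:ℝ) * F / (Real.sqrt cV * F * Real.sqrt w * L / 2) := by gcongr
        _ = _ := by field_simp
    have h7 : (1 / Real.sqrt w) ^ d ≤ (1 / Real.sqrt w) ^ 7 := by
      apply pow_le_pow_of_le_one (by positivity) _ hd
      rw [div_le_one hsw]
      exact Real.one_le_sqrt.mpr hw1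
    calc ((F:ℝ) * F / Real.sqrt D) ^ d ≤ ((2 / Real.sqrt cV) * ((F:ℝ) / L) * (1 / Real.sqrt w)) ^ d := by
          gcongr
      _ = (2 / Real.sqrt cV) ^ d * ((F:ℝ) / L) ^ d * (1 / Real.sqrt w) ^ d := by
          rw [mul_pow, mul_pow]
      _ ≤ CF d * ((F:ℝ) / L) ^ d * (1 / Real.sqrt w) ^ 7 := by
          have : (2 / Real.sqrt cV) ^ d ≤ CF d := by
            unfold CF
            have : (0:ℝ) ≤ 2 ^ d := by positivity
            linarith
          have := CF_nonneg d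
          gcongr
      _ ≤ _ := mul_le_mul_of_nonneg_left hkey (mul_nonneg (CF_nonneg d) hu)

/-- (G11) pointwise cross scale bound -/
lemma cross_le {X : Fin d → ℝ≥0 × ℝ → Ω → ℝ} (h : GP X KK P) {F' L' : ℝ≥0} (hF : 0 < F) (hL : 0 < L)
    (hL' : 0 < L')
    (hLL : 18 * (kap + 1) * (L : ℝ) ^ 2 ≤ (L' : ℝ) ^ 2)
    {g g' : ℕ × ℕ} (hg : g ∈ Box F L) :
    P.real (Aev X F L g ∩ Aev X F' L' g') - P.real (Aev X F L g) * P.real (Aev X F' L' g') ≤
      2 ^ d * (9 * (kap + 1) * (L : ℝ) ^ 2 / (L' : ℝ) ^ 2) * (P.real (Aev X F L g) * P.real (Aev X F' L' g')) := by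
  have hprob := h.isProb
  have hk := kap_pos
  have hL0 : (0:ℝ) < L := by exact_mod_cast hL
  have hL0' : (0:ℝ) < L' := by exact_mod_cast hL'
  have h1 := Vq_gd_le hF hg
  have h2 := Vq_gd_ge F L g
  have h3 := Vq_gd_ge F' L' g'
  have h4 := KK_abs_le (gd F' L' g') (gd F L g)
  rw [KK_comm] at h4
  set A := Vq (gd F L g) with hA
  set B := Vq (gd F' L' g') with hB
  set K := KK (gd F L g) (gd F' L' g') with hK
  have hA0 : 0 < A := lt_of_lt_of_le (by positivity) h2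
  have hB0 : 0 < B := lt_of_lt_of_le (by positivity) h3
  have hK2 : K ^ 2 ≤ 9 / 4 * A ^ 2 := by
    rw [← sq_abs]
    calc |K| ^ 2 ≤ (3 / 2 * A) ^ 2 := by gcongr
      _ = _ := by ring
  set y : ℝ := 9 * (kap + 1) * (L : ℝ) ^ 2 / (L' : ℝ) ^ 2 / 2 with hy
  have hy0 : 0 ≤ y := by positivity
  have hy1 : y ≤ 1 / 4 := by
    rw [hy, div_div, div_le_iff₀ (by positivity)]
    linarith
  have hyA : 9 / 4 * A ≤ y * B := by
    have e1 : y * B ≥ y * ((L':ℝ) ^ 2 / 2) := mul_le_mul_of_nonneg_left h3 hy0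
    have e2 : y * ((L':ℝ) ^ 2 / 2) = 9 / 4 * ((kap + 1) * (L:ℝ) ^ 2) := by
      rw [hy]; field_simp; norm_num
    linarith
  have hKy : K ^ 2 ≤ y * (A * B) := by
    calc K ^ 2 ≤ 9 / 4 * A ^ 2 := hK2
      _ = (9 / 4 * A) * A := by ring
      _ ≤ (y * B) * A := by gcongr
      _ = _ := by ring
  have hAB : 0 < A * B := by positivity
  have hD0 : 0 < A * B - K ^ 2 := by nlinarith
  have hratio : Real.sqrt (A * B / (A * B - K ^ 2)) ≤ 1 + 2 * y := by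
    rw [Real.sqrt_le_left (by positivity), div_le_iff₀ hD0]
    have e1 : (1 - y) * (A * B) ≤ A * B - K ^ 2 := by linarith
    have e2 : 1 ≤ (1 + 2 * y) ^ 2 * (1 - y) := by
      have e3 : (1 + 2 * y) ^ 2 * (1 - y) = 1 + y * (3 - 4 * y ^ 2) := by ring
      have e4 : 0 ≤ y * (3 - 4 * y ^ 2) := mul_nonneg hy0 (by nlinarith)
      linarith
    calc A * B = 1 * (A * B) := by ring
      _ ≤ ((1 + 2 * y) ^ 2 * (1 - y)) * (A * B) := by gcongr
      _ = (1 + 2 * y) ^ 2 * ((1 - y) * (A * B)) := by ring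
      _ ≤ _ := by gcongr
  have h5 := h.two_point_ratio (q := gd F L g) (r := gd F' L' g') (by rw [KK_self]; exact hA0)
    (by rw [KK_self, KK_self]; exact hD0) (KK_comm _ _) F.coe_nonneg F'.coe_nonneg
  rw [KK_self, KK_self, ← ENNReal.ofReal_pow (Real.sqrt_nonneg _)] at h5
  have h6 : P.real (Aev X F L g ∩ Aev X F' L' g') ≤
      (Real.sqrt (A * B / (A * B - K ^ 2))) ^ d * (P.real (Aev X F L g) * P.real (Aev X F' L' g')) := by
    have h7 := ENNReal.toReal_mono (by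
      refine ENNReal.mul_ne_top ENNReal.ofReal_ne_top (ENNReal.mul_ne_top (measure_ne_top _ _)
        (measure_ne_top _ _))) h5
    rw [ENNReal.toReal_mul, ENNReal.toReal_mul, ENNReal.toReal_ofReal (by positivity)] at h7
    exact h7
  have h8 : (Real.sqrt (A * B / (A * B - K ^ 2))) ^ d ≤ 1 + 2 ^ d * (2 * y) := by
    calc (Real.sqrt (A * B / (A * B - K ^ 2))) ^ d ≤ (1 + 2 * y) ^ d := by gcongr
      _ ≤ _ := one_add_pow_le (by positivity) (by linarith) d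
  have h9 : 0 ≤ P.real (Aev X F L g) * P.real (Aev X F' L' g') := by positivity
  have h10 := mul_le_mul_of_nonneg_right h8 h9
  have e : 2 * y = 9 * (kap + 1) * (L : ℝ) ^ 2 / (L' : ℝ) ^ 2 := by rw [hy]; ring
  rw [e] at h10
  linarith

end

end Pool.Agent.H99.Str
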