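import Mathlib

/-!
Elementary facts on centred real Gaussian random variables.
-/

open MeasureTheory ProbabilityTheory Set Filter Topology
open scoped NNReal ENNReal Interval

namespace Pool.Agent.H99.Str

variable {Ω : Type*} [MeasurableSpace Ω] {P : Measure Ω}

/-- `X` is a centred real Gaussian variable with variance `v`. -/
structure CG (X : Ω → ℝ) (v : ℝ) (P : Measure Ω) : Prop where
  law : HasGaussianLaw X P
  mean : ∫ ω, X ω ∂P = 0
  sq : ∫ ω, X ω * X ω ∂P = v

lemma CG.nonneg {X : Ω → ℝ} {v : ℝ} (h : CG X v P) : 0 ≤ v := by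
  rw [← h.sq]
  exact integral_nonneg fun ω => mul_self_nonneg _

lemma CG.map_eq {X : Ω → ℝ} {v : ℝ} (h : CG X v P) : P.map X = gaussianReal 0 v.toNNReal := by
  have hp : IsProbabilityMeasure P := h.law.isProbabilityMeasure
  rw [h.law.map_eq_gaussianReal, h.mean]
  congr 2
  rw [variance_eq_sub h.law.memLp_two, h.mean]
  have : ∫ ω, (X ^ 2) ω ∂P = v := by
    rw [← h.sq]
    refine integral_congr_ae (Eventually.of_forall fun ω => ?_)
    simp only [Pi.pow_apply]; ring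
  rw [this]; ring

lemma gaussianReal_Icc_le {v : ℝ} (hv : 0 < v) (a b : ℝ) :
    gaussianReal 0 v.toNNReal (Icc a b) ≤ ENNReal.ofReal ((b - a) / (2 * Real.sqrt v)) := by
  have hv' : v.toNNReal ≠ 0 := by simpa using hv
  rw [gaussianReal_apply _ hv']
  have hpi := Real.pi_gt_three
  have hs : 0 < Real.sqrt v := Real.sqrt_pos.mpr hv
  have hb : ∀ x, gaussianPDF 0 v.toNNReal x ≤ ENNReal.ofReal (1 / (2 * Real.sqrt v)) := by
    intro x
    unfold gaussianPDF
    apply ENNReal.ofReal_le_ofReal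
    rw [gaussianPDFReal_def]
    have h1 : Real.exp (-(x - 0) ^ 2 / (2 * v.toNNReal)) ≤ 1 := by
      apply Real.exp_le_one_iff.mpr
      apply div_nonpos_of_nonpos_of_nonneg
      · nlinarith [sq_nonneg (x - 0)]
      · positivity
    have h2 : 2 * Real.sqrt v ≤ Real.sqrt (2 * Real.pi * v.toNNReal) := by
      apply Real.le_sqrt_of_sq_le
      rw [mul_pow, Real.sq_sqrt hv.le, Real.coe_toNNReal _ hv.le]
      nlinarith
    have h3 : 0 < 2 * Real.sqrt v := by positivity
    calc _ ≤ (Real.sqrt (2 * Real.pi * v.toNNReal))⁻¹ * 1 := by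
          apply mul_le_mul_of_nonneg_left h1; positivity
      _ ≤ 1 / (2 * Real.sqrt v) := by
          rw [mul_one, one_div]
          gcongr
  calc ∫⁻ x in Icc a b, gaussianPDF 0 v.toNNReal x
      ≤ ∫⁻ _x in Icc a b, ENNReal.ofReal (1 / (2 * Real.sqrt v)) := lintegral_mono fun x => hb x
    _ = ENNReal.ofReal (1 / (2 * Real.sqrt v)) * ENNReal.ofReal (b - a) := by
        rw [setLIntegral_const, Real.volume_Icc]
    _ = _ := by
        rw [← ENNReal.ofReal_mul (by positivity)]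
        congr 1; ring

/-- Anti-concentration. -/
lemma CG.anti {X : Ω → ℝ} {v : ℝ} (h : CG X v P) (hv : 0 < v) (m : ℝ) {a : ℝ} (ha : 0 ≤ a) :
    P {ω | |m + X ω| ≤ a} ≤ ENNReal.ofReal (a / Real.sqrt v) := by
  have hm := h.law.aemeasurable
  have e : {ω | |m + X ω| ≤ a} = X ⁻¹' (Icc (-a - m) (a - m)) := by
    ext ω
    simp only [mem_ofPred_eq, mem_preimage, mem_Icc, abs_le]
    constructor <;> rintro ⟨h1, h2⟩ <;> constructor <;> linarith
  rw [e, ← Measure.map_apply_of_aemeasurable hm measurableSet_Icc, h.map_eq]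
  refine (gaussianReal_Icc_le hv _ _).trans (ENNReal.ofReal_le_ofReal (le_of_eq ?_))
  have : 0 < Real.sqrt v := Real.sqrt_pos.mpr hv
  field_simp
  ring

lemma gaussianReal_Icc_ge {v : ℝ} (hv : 0 < v) {a : ℝ} (ha : 0 ≤ a) (hav : a ≤ Real.sqrt v) :
    ENNReal.ofReal ((1 / 3) * (a / Real.sqrt v)) ≤ gaussianReal 0 v.toNNReal (Icc (-a) a) := by
  have hv' : v.toNNReal ≠ 0 := by simpa using hv
  rw [gaussianReal_apply _ hv']
  have hpi := Real.pi_lt_four
  have hpi0 := Real.pi_pos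
  have hs : 0 < Real.sqrt v := Real.sqrt_pos.mpr hv
  have hb : ∀ x ∈ Icc (-a) a, ENNReal.ofReal (1 / (6 * Real.sqrt v)) ≤ gaussianPDF 0 v.toNNReal x := by
    intro x hx
    unfold gaussianPDF
    apply ENNReal.ofReal_le_ofReal
    rw [gaussianPDFReal_def]
    have hx2 : x ^ 2 ≤ v := by
      have h1 : |x| ≤ Real.sqrt v := (abs_le.mpr hx).trans hav
      calc x ^ 2 = |x| ^ 2 := (sq_abs x).symm
        _ ≤ (Real.sqrt v) ^ 2 := by gcongr
        _ = v := Real.sq_sqrt hv.le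
    have h1 : (1:ℝ) / 2 ≤ Real.exp (-(x - 0) ^ 2 / (2 * v.toNNReal)) := by
      have h2 : -(1:ℝ)/2 ≤ -(x - 0) ^ 2 / (2 * v.toNNReal) := by
        rw [Real.coe_toNNReal _ hv.le, sub_zero, neg_div, neg_div, neg_le_neg_iff,
          div_le_div_iff₀ (by positivity) (by positivity)]
        linarith
      have h3 := Real.add_one_le_exp (-(1:ℝ)/2)
      have h4 := Real.exp_le_exp.mpr h2
      linarith
    have h2 : Real.sqrt (2 * Real.pi * v.toNNReal) ≤ 3 * Real.sqrt v := by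
      rw [Real.sqrt_le_left (by positivity), mul_pow, Real.sq_sqrt hv.le, Real.coe_toNNReal _ hv.le]
      nlinarith
    have h3 : 0 < Real.sqrt (2 * Real.pi * v.toNNReal) := by
      rw [Real.coe_toNNReal _ hv.le]; positivity
    calc 1 / (6 * Real.sqrt v) = (3 * Real.sqrt v)⁻¹ * (1 / 2) := by field_simp; norm_num
      _ ≤ (Real.sqrt (2 * Real.pi * v.toNNReal))⁻¹ * Real.exp (-(x - 0) ^ 2 / (2 * v.toNNReal)) := by
          gcongr
  calc ENNReal.ofReal ((1 / 3) * (a / Real.sqrt v))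
      = ENNReal.ofReal (1 / (6 * Real.sqrt v)) * ENNReal.ofReal (a - -a) := by
        rw [← ENNReal.ofReal_mul (by positivity)]
        congr 1
        field_simp; ring
    _ = ∫⁻ _x in Icc (-a) a, ENNReal.ofReal (1 / (6 * Real.sqrt v)) := by
        rw [setLIntegral_const, Real.volume_Icc]
    _ ≤ _ := setLIntegral_mono (measurable_gaussianPDF _ _) hb

/-- Lower bound for small balls. -/
lemma CG.lower {X : Ω → ℝ} {v : ℝ} (h : CG X v P) (hv : 0 < v) {a : ℝ} (ha : 0 ≤ a)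
    (hav : a ≤ Real.sqrt v) :
    ENNReal.ofReal ((1 / 3) * (a / Real.sqrt v)) ≤ P {ω | |X ω| ≤ a} := by
  have hm := h.law.aemeasurable
  have e : {ω | |X ω| ≤ a} = X ⁻¹' (Icc (-a) a) := by
    ext ω; simp only [mem_ofPred_eq, mem_preimage, mem_Icc, abs_le]
  rw [e, ← Measure.map_apply_of_aemeasurable hm measurableSet_Icc, h.map_eq]
  exact gaussianReal_Icc_ge hv ha hav

/-- absolute moments of the standard Gaussian -/
noncomputable def gaussMom (p : ℕ) : ℝ≥0∞ := ∫⁻ x, ‖x‖ₑ ^ p ∂(gaussianReal 0 1)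

lemma gaussMom_lt_top (p : ℕ) : gaussMom p < ∞ := by
  unfold gaussMom
  rcases Nat.eq_zero_or_pos p with rfl | hp
  · simp
  have h := memLp_id_gaussianReal (μ := 0) (v := 1) (p : ℝ≥0)
  have h2 := h.eLpNorm_lt_top
  rw [eLpNorm_lt_top_iff_lintegral_rpow_enorm_lt_top (by simpa using hp.ne') (by simp)] at h2
  simpa using h2

lemma CG.moment {X : Ω → ℝ} {v : ℝ} (h : CG X v P) (p : ℕ) :
    ∫⁻ ω, ‖X ω‖ₑ ^ p ∂P = gaussMom p * ENNReal.ofReal (Real.sqrt v) ^ p := by
  have hm := h.law.aemeasurable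
  have hv := h.nonneg
  have e1 : ∫⁻ ω, ‖X ω‖ₑ ^ p ∂P = ∫⁻ x, ‖x‖ₑ ^ p ∂(P.map X) := by
    rw [lintegral_map' (by fun_prop) hm]
  have e2 : gaussianReal 0 v.toNNReal = (gaussianReal 0 1).map (fun x => Real.sqrt v * x) := by
    rw [gaussianReal_map_const_mul]
    congr 1
    · simp
    · rw [mul_one]
      ext
      simp [Real.sq_sqrt hv, Real.coe_toNNReal _ hv]
  rw [e1, h.map_eq, e2, lintegral_map (by fun_prop) (by fun_prop)]
  unfold gaussMom
  rw [mul_comm, ← lintegral_const_mul _ (by fun_prop)]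
  refine lintegral_congr fun x => ?_
  rw [enorm_mul, mul_pow, Real.enorm_eq_ofReal (Real.sqrt_nonneg v)]

end Pool.Agent.H99.Str
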