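import Mathlib

/-!
Comparison of the escape integral with a series over geometric scales.
-/

open MeasureTheory Set Filter Topology
open scoped NNReal ENNReal

namespace Pool.Agent.H99.Str

/-- the integral `∫_1^∞ (f(t)/t^{1/4})^C dt/t` -/
noncomputable def escInt (f : ℝ → ℝ) (C : ℝ) : ℝ≥0∞ :=
  ∫⁻ t in Ioi (1:ℝ), ENNReal.ofReal ((f t / t ^ (1/4 : ℝ)) ^ C / t)

lemma fourth_le {L t : ℝ} (hL : 0 ≤ L) (h : L ^ 4 ≤ t) : L ≤ t ^ (1/4 : ℝ) := by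
  have h1 : (L ^ 4) ^ (1/4 : ℝ) = L := by
    have := Real.pow_rpow_inv_natCast hL (show (4:ℕ) ≠ 0 by norm_num)
    rw [one_div]
    exact_mod_cast this
  rw [← h1]
  exact Real.rpow_le_rpow (by positivity) h (by norm_num)

lemma le_fourth {L t : ℝ} (hL : 0 ≤ L) (ht : 0 ≤ t) (h : t ≤ L ^ 4) : t ^ (1/4 : ℝ) ≤ L := by
  have h1 : (L ^ 4) ^ (1/4 : ℝ) = L := by
    have := Real.pow_rpow_inv_natCast hL (show (4:ℕ) ≠ 0 by norm_num)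
    rw [one_div]
    exact_mod_cast this
  rw [← h1]
  exact Real.rpow_le_rpow ht h (by norm_num)

lemma escInt_le {f : ℝ → ℝ} (hf : MonotoneOn f (Ioi 0)) (hf0 : ∀ t, 0 < t → 0 < f t) {Λ : ℝ}
    (hΛ : 2 ≤ Λ) (k : ℕ) :
    escInt f k ≤ ∑' n : ℕ, ENNReal.ofReal ((f ((Λ ^ (n + 1)) ^ 4) / Λ ^ n) ^ k * Λ ^ 4) := by
  have hΛ0 : 0 < Λ := by linarith
  have hcover : Ioi (1:ℝ) ⊆ ⋃ n : ℕ, Ico ((Λ ^ n) ^ 4) ((Λ ^ (n + 1)) ^ 4) := by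
    intro t ht
    have ht1 : (1:ℝ) < t := ht
    have h16 : 1 < Λ ^ 4 := one_lt_pow₀ (by linarith) (by norm_num)
    obtain ⟨n, hn, hn'⟩ := exists_nat_pow_near ht1.le h16
    refine mem_iUnion.mpr ⟨n, ?_, ?_⟩
    · rw [← pow_mul, mul_comm, pow_mul]; exact hn
    · rw [← pow_mul, mul_comm, pow_mul]; exact hn'
  unfold escInt
  refine (lintegral_mono_set hcover).trans ((lintegral_iUnion_le _ _).trans ?_)
  refine ENNReal.tsum_le_tsum fun n => ?_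
  have hb : ∀ t ∈ Ico ((Λ ^ n) ^ 4) ((Λ ^ (n + 1)) ^ 4),
      ENNReal.ofReal ((f t / t ^ (1/4 : ℝ)) ^ (k : ℝ) / t) ≤
      ENNReal.ofReal ((f ((Λ ^ (n + 1)) ^ 4) / Λ ^ n) ^ k / (Λ ^ n) ^ 4) := by
    intro t ht
    have ht0 : 0 < t := lt_of_lt_of_le (by positivity) ht.1
    have hft := hf0 t ht0
    apply ENNReal.ofReal_le_ofReal
    rw [Real.rpow_natCast]
    have h1 : Λ ^ n ≤ t ^ (1/4 : ℝ) := fourth_le (by positivity) ht.1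
    have h2 : f t ≤ f ((Λ ^ (n + 1)) ^ 4) := hf ht0 (show 0 < (Λ ^ (n + 1)) ^ 4 by positivity) ht.2.le
    have h3 := ht.1
    have h5 : 0 < f ((Λ ^ (n + 1)) ^ 4) := hf0 _ (by positivity)
    gcongr
  refine (setLIntegral_mono' measurableSet_Ico hb).trans ?_
  rw [setLIntegral_const, Real.volume_Ico]
  have hfn : 0 < f ((Λ ^ (n + 1)) ^ 4) := hf0 _ (by positivity)
  rw [← ENNReal.ofReal_mul (by positivity)]
  apply ENNReal.ofReal_le_ofReal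
  calc (f ((Λ ^ (n + 1)) ^ 4) / Λ ^ n) ^ k / (Λ ^ n) ^ 4 * ((Λ ^ (n + 1)) ^ 4 - (Λ ^ n) ^ 4)
      ≤ (f ((Λ ^ (n + 1)) ^ 4) / Λ ^ n) ^ k / (Λ ^ n) ^ 4 * ((Λ ^ (n + 1)) ^ 4) := by
        apply mul_le_mul_of_nonneg_left _ (by positivity)
        have : 0 < (Λ ^ n) ^ 4 := by positivity
        linarith
    _ = _ := by
        rw [pow_succ Λ n, mul_pow]
        field_simp

lemma le_escInt {f : ℝ → ℝ} (hf : MonotoneOn f (Ioi 0)) (hf0 : ∀ t, 0 < t → 0 < f t) {Λ : ℝ}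
    (hΛ : 2 ≤ Λ) (k : ℕ) :
    ∑' n : ℕ, ENNReal.ofReal ((f ((Λ ^ n) ^ 4) / Λ ^ (n + 1)) ^ k * (1 / 2)) ≤ escInt f k := by
  have hΛ0 : 0 < Λ := by linarith
  have h16 : 2 ≤ Λ ^ 4 := by
    have : (2:ℝ) ^ 4 ≤ Λ ^ 4 := by gcongr
    linarith
  have hmono : Monotone fun n : ℕ => (Λ ^ n) ^ 4 := by
    intro a b hab
    simp only
    gcongr
    linarith
  have hdisj : Pairwise (Function.onFun Disjoint fun n : ℕ => Ico ((Λ ^ n) ^ 4) ((Λ ^ (n + 1)) ^ 4)) :=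
    hmono.pairwise_disjoint_on_Ico_succ
  have hsub : (⋃ n : ℕ, Ico ((Λ ^ n) ^ 4) ((Λ ^ (n + 1)) ^ 4)) ⊆ Ici (1:ℝ) := by
    intro t ht
    obtain ⟨n, hn⟩ := mem_iUnion.mp ht
    have h1 : (1:ℝ) ≤ Λ ^ n := one_le_pow₀ (by linarith)
    have h2 : (1:ℝ) ≤ (Λ ^ n) ^ 4 := one_le_pow₀ h1
    exact h2.trans hn.1
  unfold escInt
  rw [← setLIntegral_congr Ioi_ae_eq_Ici.symm]
  refine le_trans ?_ (lintegral_mono_set hsub)
  rw [lintegral_iUnion (fun n => measurableSet_Ico) hdisj]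
  refine ENNReal.tsum_le_tsum fun n => ?_
  have hb : ∀ t ∈ Ico ((Λ ^ n) ^ 4) ((Λ ^ (n + 1)) ^ 4),
      ENNReal.ofReal ((f ((Λ ^ n) ^ 4) / Λ ^ (n + 1)) ^ k / (Λ ^ (n + 1)) ^ 4) ≤
      ENNReal.ofReal ((f t / t ^ (1/4 : ℝ)) ^ (k : ℝ) / t) := by
    intro t ht
    have ht0 : 0 < t := lt_of_lt_of_le (by positivity) ht.1
    have hft := hf0 t ht0
    apply ENNReal.ofReal_le_ofReal
    rw [Real.rpow_natCast]
    have h1 : t ^ (1/4 : ℝ) ≤ Λ ^ (n + 1) := le_fourth (by positivity) ht0.le ht.2.le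
    have h2 : f ((Λ ^ n) ^ 4) ≤ f t := hf (show 0 < (Λ ^ n) ^ 4 by positivity) ht0 ht.1
    have h3 := ht.2.le
    have h4 : 0 < f ((Λ ^ n) ^ 4) := hf0 _ (by positivity)
    gcongr
  refine le_trans ?_ (setLIntegral_mono' measurableSet_Ico hb)
  rw [setLIntegral_const, Real.volume_Ico]
  have hfn : 0 < f ((Λ ^ n) ^ 4) := hf0 _ (by positivity)
  rw [← ENNReal.ofReal_mul (by positivity)]
  apply ENNReal.ofReal_le_ofReal
  calc (f ((Λ ^ n) ^ 4) / Λ ^ (n + 1)) ^ k * (1 / 2)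
      ≤ (f ((Λ ^ n) ^ 4) / Λ ^ (n + 1)) ^ k * (((Λ ^ (n + 1)) ^ 4 - (Λ ^ n) ^ 4) / (Λ ^ (n + 1)) ^ 4) := by
        apply mul_le_mul_of_nonneg_left _ (by positivity)
        rw [le_div_iff₀ (by positivity), pow_succ Λ n, mul_pow]
        have : 0 < (Λ ^ n) ^ 4 := by positivity
        nlinarith
    _ = _ := by ring

/-- finite integral implies a convergent series at scale `2` -/
lemma series_of_escInt {f : ℝ → ℝ} (hf : MonotoneOn f (Ioi 0)) (hf0 : ∀ t, 0 < t → 0 < f t) (k : ℕ)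
    (h : escInt f k ≠ ∞) : ∑' n : ℕ, ENNReal.ofReal ((f (16 ^ (n + 1)) / 2 ^ n) ^ k) ≠ ∞ := by
  have h1 := ne_top_of_le_ne_top h (le_escInt hf hf0 (le_refl (2:ℝ)) k)
  have h2 : ∑' n : ℕ, ENNReal.ofReal ((f (((2:ℝ) ^ (n + 1)) ^ 4) / 2 ^ (n + 1 + 1)) ^ k * (1 / 2)) ≠ ∞ := by
    refine ne_top_of_le_ne_top h1 ?_
    exact ENNReal.tsum_comp_le_tsum_of_injective (add_left_injective 1)
      (fun n => ENNReal.ofReal ((f (((2:ℝ) ^ n) ^ 4) / 2 ^ (n + 1)) ^ k * (1 / 2)))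
  have h3 : ∀ n : ℕ, ENNReal.ofReal ((f (16 ^ (n + 1)) / 2 ^ n) ^ k) = ENNReal.ofReal (4 ^ k * 2) *
      ENNReal.ofReal ((f (((2:ℝ) ^ (n + 1)) ^ 4) / 2 ^ (n + 1 + 1)) ^ k * (1 / 2)) := by
    intro n
    rw [← ENNReal.ofReal_mul (by positivity)]
    congr 1
    have e : ((2:ℝ) ^ (n + 1)) ^ 4 = 16 ^ (n + 1) := by
      rw [← pow_mul, mul_comm, pow_mul]; norm_num
    rw [e, pow_succ (2:ℝ) (n + 1), pow_succ (2:ℝ) n]
    calc (f (16 ^ (n + 1)) / 2 ^ n) ^ k = (4 * (f (16 ^ (n + 1)) / (2 ^ n * 2 * 2))) ^ k := by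
          congr 1; field_simp; norm_num
      _ = _ := by rw [mul_pow]; ring
  simp_rw [h3]
  rw [ENNReal.tsum_mul_left]
  exact ENNReal.mul_ne_top ENNReal.ofReal_ne_top h2

/-- infinite integral implies a divergent series at every scale -/
lemma series_of_escInt_top {f : ℝ → ℝ} (hf : MonotoneOn f (Ioi 0)) (hf0 : ∀ t, 0 < t → 0 < f t) (k : ℕ)
    (h : escInt f k = ∞) {Λ : ℝ} (hΛ : 2 ≤ Λ) :
    ∑' n : ℕ, ENNReal.ofReal ((f ((Λ ^ n) ^ 4) / Λ ^ n) ^ k) = ∞ := by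
  have hΛ0 : 0 < Λ := by linarith
  by_contra hcon
  have h1 := escInt_le hf hf0 hΛ k
  rw [h, top_le_iff] at h1
  apply hcon
  have h3 : ∀ n : ℕ, ENNReal.ofReal ((f ((Λ ^ (n + 1)) ^ 4) / Λ ^ n) ^ k * Λ ^ 4) =
      ENNReal.ofReal (Λ ^ k * Λ ^ 4) * ENNReal.ofReal ((f ((Λ ^ (n + 1)) ^ 4) / Λ ^ (n + 1)) ^ k) := by
    intro n
    rw [← ENNReal.ofReal_mul (by positivity)]
    congr 1
    calc (f ((Λ ^ (n + 1)) ^ 4) / Λ ^ n) ^ k * Λ ^ 4 =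
          (Λ * (f ((Λ ^ (n + 1)) ^ 4) / Λ ^ (n + 1))) ^ k * Λ ^ 4 := by
          congr 2; rw [pow_succ Λ n]; field_simp
      _ = _ := by rw [mul_pow]; ring
  simp_rw [h3] at h1
  rw [ENNReal.tsum_mul_left] at h1
  have h4 : ∑' n : ℕ, ENNReal.ofReal ((f ((Λ ^ (n + 1)) ^ 4) / Λ ^ (n + 1)) ^ k) ≤
      ∑' n : ℕ, ENNReal.ofReal ((f ((Λ ^ n) ^ 4) / Λ ^ n) ^ k) :=
    ENNReal.tsum_comp_le_tsum_of_injective (add_left_injective 1)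
      (fun n => ENNReal.ofReal ((f ((Λ ^ n) ^ 4) / Λ ^ n) ^ k))
  have h5 := ENNReal.mul_ne_top (ENNReal.ofReal_ne_top (r := Λ ^ k * Λ ^ 4))
    (ne_top_of_le_ne_top hcon h4)
  exact absurd h1 h5

end Pool.Agent.H99.Str
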