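import Pool.Agent.H99.StrG

/-!
Vector valued Gaussian fields with independent identically distributed coordinates.
-/

open MeasureTheory ProbabilityTheory Set Filter Topology
open scoped NNReal ENNReal Interval

namespace Pool.Agent.H99.Str

variable {Ω : Type*} [MeasurableSpace Ω] {P : Measure Ω} {d : ℕ} {Q Q' : Type*}

/-- A centred Gaussian field with `d` uncorrelated coordinates, each with covariance `K`. -/
structure GP (X : Fin d → Q → Ω → ℝ) (K : Q → Q → ℝ) (P : Measure Ω) : Prop where
  gauss : IsGaussianProcess (fun (p : Fin d × Q) ω => X p.1 p.2 ω) P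
  mean : ∀ i q, ∫ ω, X i q ω ∂P = 0
  cov : ∀ i j q q', ∫ ω, X i q ω * X j q' ω ∂P = if i = j then K q q' else 0

/-- linear combination of the values of a field -/
noncomputable def lc (f : Q → ℝ) (u : Q →₀ ℝ) : ℝ := Finsupp.linearCombination ℝ f u

/-- the bilinear form of a kernel -/
noncomputable def BK (K : Q → Q → ℝ) : (Q →₀ ℝ) →ₗ[ℝ] (Q →₀ ℝ) →ₗ[ℝ] ℝ :=
  Finsupp.linearCombination ℝ (fun q => (Finsupp.linearCombination ℝ (K q) : (Q →₀ ℝ) →ₗ[ℝ] ℝ))

@[simp] lemma BK_single_single (K : Q → Q → ℝ) (q r : Q) (a b : ℝ) :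
    BK K (Finsupp.single q a) (Finsupp.single r b) = a * b * K q r := by
  simp [BK, Finsupp.linearCombination_single]; ring

@[simp] lemma lc_single (f : Q → ℝ) (q : Q) (a : ℝ) : lc f (Finsupp.single q a) = a * f q := by
  simp [lc]

@[simp] lemma lc_zero (f : Q → ℝ) : lc f 0 = 0 := by simp [lc]

lemma lc_add (f : Q → ℝ) (u v : Q →₀ ℝ) : lc f (u + v) = lc f u + lc f v := by simp [lc]
lemma lc_sub (f : Q → ℝ) (u v : Q →₀ ℝ) : lc f (u - v) = lc f u - lc f v := by simp [lc]
lemma lc_smul (f : Q → ℝ) (a : ℝ) (u : Q →₀ ℝ) : lc f (a • u) = a * lc f u := by simp [lc]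

lemma lc_sum {ι : Type*} (f : Q → ℝ) (s : Finset ι) (u : ι → Q →₀ ℝ) :
    lc f (∑ i ∈ s, u i) = ∑ i ∈ s, lc f (u i) := by simp [lc]

namespace GP

variable {X : Fin d → Q → Ω → ℝ} {K : Q → Q → ℝ}

lemma isProb (h : GP X K P) : IsProbabilityMeasure P := h.gauss.isProbabilityMeasure

lemma aemeas (h : GP X K P) (i : Fin d) (q : Q) : AEMeasurable (X i q) P :=
  h.gauss.aemeasurable (i, q)

lemma memLp (h : GP X K P) (i : Fin d) (q : Q) : MemLp (X i q) 2 P :=
  (h.gauss.hasGaussianLaw_eval (i, q)).memLp_two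

lemma memLp_lc (h : GP X K P) (i : Fin d) (u : Q →₀ ℝ) :
    MemLp (fun ω => lc (fun q => X i q ω) u) 2 P := by
  induction u using Finsupp.induction_linear with
  | zero => simp
  | add u v hu hv => simp only [lc_add]; exact hu.add hv
  | single q a => simp only [lc_single]; exact (h.memLp i q).const_mul a

lemma integrable_mul_lc (h : GP X K P) (i j : Fin d) (u v : Q →₀ ℝ) :
    Integrable (fun ω => lc (fun q => X i q ω) u * lc (fun q => X j q ω) v) P :=
  (h.memLp_lc i u).integrable_mul (h.memLp_lc j v)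

lemma integral_lc (h : GP X K P) (i : Fin d) (u : Q →₀ ℝ) :
    ∫ ω, lc (fun q => X i q ω) u ∂P = 0 := by
  have := h.isProb
  induction u using Finsupp.induction_linear with
  | zero => simp
  | add u v hu hv =>
    simp only [lc_add]
    rw [integral_add ((h.memLp_lc i u).integrable one_le_two)
      ((h.memLp_lc i v).integrable one_le_two), hu, hv, add_zero]
  | single q a => simp only [lc_single]; rw [integral_const_mul, h.mean, mul_zero]

lemma integral_mul_lc (h : GP X K P) (i j : Fin d) (u v : Q →₀ ℝ) :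
    ∫ ω, lc (fun q => X i q ω) u * lc (fun q => X j q ω) v ∂P =
      if i = j then BK K u v else 0 := by
  induction u using Finsupp.induction_linear with
  | zero => simp
  | add u w hu hw =>
    simp only [lc_add, add_mul]
    rw [integral_add (h.integrable_mul_lc i j u v) (h.integrable_mul_lc i j w v), hu, hw]
    split_ifs <;> simp
  | single q a =>
    induction v using Finsupp.induction_linear with
    | zero => simp
    | add v w hv hw =>
      simp only [lc_add, mul_add]
      rw [integral_add (h.integrable_mul_lc i j _ v) (h.integrable_mul_lc i j _ w), hv, hw]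
      split_ifs <;> simp
    | single r b =>
      simp only [lc_single, BK_single_single]
      have e : ∀ ω, a * X i q ω * (b * X j r ω) = (a * b) * (X i q ω * X j r ω) := fun ω => by ring
      simp_rw [e]
      rw [integral_const_mul, h.cov]
      split_ifs <;> simp

/-- Linear combinations of the field form a field of the same kind. -/
lemma comb (h : GP X K P) (c : Q' → Q →₀ ℝ) :
    GP (fun i q' ω => lc (fun q => X i q ω) (c q')) (fun q' r' => BK K (c q') (c r')) P where
  gauss := by
    classical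
    refine h.gauss.of_isGaussianProcess fun s => ?_
    refine ⟨(c s.2).support.image (fun q => (s.1, q)),
      ∑ q : (c s.2).support, (c s.2 q) • ContinuousLinearMap.proj (R := ℝ)
        (φ := fun _ : (c s.2).support.image (fun q => (s.1, q)) => ℝ)
        (⟨(s.1, q), Finset.mem_image_of_mem _ q.2⟩), fun ω => ?_⟩
    rw [sum_apply]
    simp only [lc, Finsupp.linearCombination_apply, Finsupp.sum, smul_eq_mul]
    rw [← Finset.sum_coe_sort]
    rfl
  mean i q' := h.integral_lc i (c q')
  cov i j q' r' := h.integral_mul_lc i j (c q') (c r')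

lemma cg (h : GP X K P) (i : Fin d) (q : Q) : CG (X i q) (K q q) P where
  law := h.gauss.hasGaussianLaw_eval (i, q)
  mean := h.mean i q
  sq := by rw [h.cov]; simp

lemma cov_zero (h : GP X K P) {i j : Fin d} {q r : Q} (hK : i = j → K q r = 0) :
    cov[X i q, X j r; P] = 0 := by
  have := h.isProb
  rw [covariance_eq_sub (h.memLp i q) (h.memLp j r), h.mean, zero_mul, sub_zero]
  have := h.cov i j q r
  simp only [Pi.mul_apply]
  rw [this]
  split_ifs with hij
  · exact hK hij
  · rfl

lemma iIndep_coord (h : GP X K P) : iIndepFun (fun (i : Fin d) ω (q : Q) => X i q ω) P := by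
  refine IsGaussianProcess.iIndepFun_of_covariance_eq_zero (T := Fin d) (S := fun _ => Q)
    (X := fun i q => X i q) ?_ (fun i q => h.aemeas i q) ?_
  · exact h.gauss.comp_right (fun p : (_ : Fin d) × Q => (p.1, p.2))
  · intro i j hij q r
    exact h.cov_zero fun hh => absurd hh hij

lemma indep_of_cov (h : GP X K P) {S T : Type*} (f : S → Q) (g : T → Q)
    (hK : ∀ s t, K (f s) (g t) = 0) :
    IndepFun (fun ω (p : Fin d × S) => X p.1 (f p.2) ω) (fun ω (p : Fin d × T) => X p.1 (g p.2) ω) P := by
  refine IsGaussianProcess.indepFun_of_covariance_eq_zero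
    (X := fun (p : Fin d × S) => X p.1 (f p.2)) (Y := fun (p : Fin d × T) => X p.1 (g p.2))
    ?_ (fun p => h.aemeas _ _) (fun p => h.aemeas _ _) ?_
  · have e : Sum.elim (fun (p : Fin d × S) => X p.1 (f p.2)) (fun (p : Fin d × T) => X p.1 (g p.2)) =
        (fun (p : Fin d × Q) ω => X p.1 p.2 ω) ∘
          Sum.elim (fun p : Fin d × S => (p.1, f p.2)) (fun p : Fin d × T => (p.1, g p.2)) := by
      funext p
      rcases p with p | p <;> rfl
    rw [e]
    exact h.gauss.comp_right _
  · intro s t
    exact h.cov_zero fun _ => hK s.2 t.2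

lemma iIndep_of_cov (h : GP X K P) (hK : ∀ q r, q ≠ r → K q r = 0) :
    iIndepFun (fun (q : Q) ω (i : Fin d) => X i q ω) P := by
  refine IsGaussianProcess.iIndepFun_of_covariance_eq_zero (T := Q) (S := fun _ => Fin d)
    (X := fun q i => X i q) ?_ (fun q i => h.aemeas i q) ?_
  · exact h.gauss.comp_right (fun p : (_ : Q) × Fin d => (p.2, p.1))
  · intro q r hqr i j
    exact h.cov_zero fun _ => hK q r hqr

/-- One point small ball upper bound. -/
lemma one_point_le (h : GP X K P) {q : Q} (hq : 0 < K q q) {a : ℝ} (ha : 0 ≤ a) :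
    P {ω | ∀ i, |X i q ω| ≤ a} ≤ ENNReal.ofReal (a / Real.sqrt (K q q)) ^ d := by
  have hm : MeasurableSet {f : Q → ℝ | |f q| ≤ a} := by
    have : Measurable fun f : Q → ℝ => |f q| := by fun_prop
    exact this measurableSet_Iic
  have e : {ω | ∀ i, |X i q ω| ≤ a} = ⋂ i ∈ (Finset.univ : Finset (Fin d)),
      (fun ω (q : Q) => X i q ω) ⁻¹' {f : Q → ℝ | |f q| ≤ a} := by
    ext ω; simp
  rw [e, h.iIndep_coord.measure_inter_preimage_eq_mul Finset.univ (fun i _ => hm)]
  refine (Finset.prod_le_prod' (g := fun _ => ENNReal.ofReal (a / Real.sqrt (K q q))) fun i _ => ?_).trans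
    (by simp)
  have := (h.cg i q).anti hq 0 ha
  simpa using this

/-- One point small ball lower bound. -/
lemma one_point_ge (h : GP X K P) {q : Q} (hq : 0 < K q q) {a : ℝ} (ha : 0 ≤ a)
    (haq : a ≤ Real.sqrt (K q q)) :
    ENNReal.ofReal ((1/3) * (a / Real.sqrt (K q q))) ^ d ≤ P {ω | ∀ i, |X i q ω| ≤ a} := by
  have hm : MeasurableSet {f : Q → ℝ | |f q| ≤ a} := by
    have : Measurable fun f : Q → ℝ => |f q| := by fun_prop
    exact this measurableSet_Iic
  have e : {ω | ∀ i, |X i q ω| ≤ a} = ⋂ i ∈ (Finset.univ : Finset (Fin d)),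
      (fun ω (q : Q) => X i q ω) ⁻¹' {f : Q → ℝ | |f q| ≤ a} := by
    ext ω; simp
  rw [e, h.iIndep_coord.measure_inter_preimage_eq_mul Finset.univ (fun i _ => hm)]
  refine le_trans (by simp) (Finset.prod_le_prod'
    (f := fun _ => ENNReal.ofReal ((1/3) * (a / Real.sqrt (K q q)))) fun i _ => ?_)
  have := (h.cg i q).lower hq ha haq
  simpa using this

end GP

end Pool.Agent.H99.Str
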