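import Pool.Agent.H99.StrF

/-!
Sums over scales for the divergence half.
-/

open MeasureTheory ProbabilityTheory Set Filter Topology
open scoped NNReal ENNReal Interval

namespace Pool.Agent.H99.Str

variable {Ω : Type*} [MeasurableSpace Ω] {P : Measure Ω} {d : ℕ}

section
variable {F L : ℝ≥0}

lemma card_ge (hF : 0 < F) (hFL : (F : ℝ) ≤ dl * L) :
    dl ^ 6 / 8 / ((F:ℝ) / L) ^ 6 ≤ ((Box F L).card : ℝ) := by
  have hF' : (0:ℝ) < F := by exact_mod_cast hF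
  have hd := dl_pos
  have hL' : (0:ℝ) < L := by
    by_contra hh
    have : (L:ℝ) ≤ 0 := not_lt.mp hh
    nlinarith
  rw [card_Box]
  have h := NN_ge hF hFL
  calc dl ^ 6 / 8 / ((F:ℝ) / L) ^ 6 = ((dl * L / F) ^ 2 / 2) ^ 3 := by
        field_simp; norm_num
    _ ≤ _ := by gcongr

lemma card_le (hF : 0 < F) (hL : 0 < L) : ((Box F L).card : ℝ) ≤ 1 / ((F:ℝ) / L) ^ 6 := by
  have hF' : (0:ℝ) < F := by exact_mod_cast hF
  have hL' : (0:ℝ) < L := by exact_mod_cast hL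
  have hd := dl_pos
  have hd4 := dl_le
  rw [card_Box]
  have h := NN_le F L
  have h2 : dl * (L:ℝ) / F ≤ 1 * (L:ℝ) / F := by gcongr; linarith
  calc (NN F L : ℝ) ^ 3 ≤ ((dl * (L:ℝ) / F) ^ 2) ^ 3 := by gcongr
    _ ≤ ((1 * (L:ℝ) / F) ^ 2) ^ 3 := by gcongr
    _ = _ := by field_simp

lemma scale_lower (hd : 7 ≤ d) {X : Fin d → ℝ≥0 × ℝ → Ω → ℝ} (h : GP X KK P) (hF : 0 < F) (hL : 0 < L)
    (hFL : (F : ℝ) ≤ dl * L) :
    dl ^ 6 / 8 * cF ^ d * ((F:ℝ) / L) ^ (d - 6) ≤ ∑ g ∈ Box F L, P.real (Aev X F L g) := by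
  have hF' : (0:ℝ) < F := by exact_mod_cast hF
  have hL' : (0:ℝ) < L := by exact_mod_cast hL
  have hc := cF_pos
  have h1 : ∑ g ∈ Box F L, (cF * ((F:ℝ) / L)) ^ d ≤ ∑ g ∈ Box F L, P.real (Aev X F L g) :=
    Finset.sum_le_sum fun g hg => prob_ge h hF hFL hg
  rw [Finset.sum_const, nsmul_eq_mul] at h1
  refine le_trans ?_ h1
  have h2 := card_ge hF hFL
  obtain ⟨k, rfl⟩ := Nat.exists_eq_add_of_le (show 6 ≤ d by omega)
  have e2 : 6 + k - 6 = k := by omega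
  rw [e2]
  calc dl ^ 6 / 8 * cF ^ (6 + k) * ((F:ℝ) / L) ^ k
      = dl ^ 6 / 8 / ((F:ℝ) / L) ^ 6 * (cF * ((F:ℝ) / L)) ^ (6 + k) := by
        rw [mul_pow, pow_add ((F:ℝ) / L)]
        field_simp
    _ ≤ _ := by gcongr

lemma scale_upper (hd : 7 ≤ d) {X : Fin d → ℝ≥0 × ℝ → Ω → ℝ} (h : GP X KK P) (hF : 0 < F) (hL : 0 < L) :
    ∑ g ∈ Box F L, ∑ g' ∈ Box F L, P.real (Aev X F L g ∩ Aev X F L g') ≤
      CF d * Wtot * ((F:ℝ) / L) ^ (d - 6) := by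
  have hF' : (0:ℝ) < F := by exact_mod_cast hF
  have hL' : (0:ℝ) < L := by exact_mod_cast hL
  have hC := CF_nonneg d
  have hW := Wtot_nonneg
  have h1 : ∀ g ∈ Box F L, ∑ g' ∈ Box F L, P.real (Aev X F L g ∩ Aev X F L g') ≤
      CF d * ((F:ℝ) / L) ^ d * Wtot := by
    intro g hg
    refine (Finset.sum_le_sum fun g' hg' => pair_le hd h hF hL hg hg').trans ?_
    rw [← Finset.mul_sum]
    apply mul_le_mul_of_nonneg_left _ (by positivity)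
    exact sum_wt_le _ _ g.1 g.2
  refine (Finset.sum_le_sum h1).trans ?_
  rw [Finset.sum_const, nsmul_eq_mul]
  have h2 := card_le hF hL
  obtain ⟨k, rfl⟩ := Nat.exists_eq_add_of_le (show 6 ≤ d by omega)
  have e2 : 6 + k - 6 = k := by omega
  rw [e2]
  calc ((Box F L).card : ℝ) * (CF (6 + k) * ((F:ℝ) / L) ^ (6 + k) * Wtot)
      ≤ (1 / ((F:ℝ) / L) ^ 6) * (CF (6 + k) * ((F:ℝ) / L) ^ (6 + k) * Wtot) := by gcongr
    _ = _ := by rw [pow_add ((F:ℝ) / L)]; field_simp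

lemma scale_cross (hd : 7 ≤ d) {X : Fin d → ℝ≥0 × ℝ → Ω → ℝ} (h : GP X KK P) {F' L' : ℝ≥0}
    (hF : 0 < F) (hL : 0 < L) (hF' : 0 < F') (hL' : 0 < L') (hFL' : (F':ℝ) ≤ L')
    (hLL : 18 * (kap + 1) * (L : ℝ) ^ 2 ≤ (L' : ℝ) ^ 2) :
    ∑ g ∈ Box F L, ∑ g' ∈ Box F' L',
      (P.real (Aev X F L g ∩ Aev X F' L' g') - P.real (Aev X F L g) * P.real (Aev X F' L' g')) ≤
      2 ^ d * 9 * (kap + 1) * 4 ^ d * ((L : ℝ) ^ 2 / (L' : ℝ) ^ 2) * ((F:ℝ) / L) ^ (d - 6) := by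
  have hk := kap_pos
  have hF0 : (0:ℝ) < F := by exact_mod_cast hF
  have hL0 : (0:ℝ) < L := by exact_mod_cast hL
  have hF0' : (0:ℝ) < F' := by exact_mod_cast hF'
  have hL0' : (0:ℝ) < L' := by exact_mod_cast hL'
  set R : ℝ := (L : ℝ) ^ 2 / (L' : ℝ) ^ 2 with hR
  have hR0 : 0 ≤ R := by positivity
  have h1 : ∀ g ∈ Box F L, ∀ g' ∈ Box F' L',
      (P.real (Aev X F L g ∩ Aev X F' L' g') - P.real (Aev X F L g) * P.real (Aev X F' L' g')) ≤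
      2 ^ d * (9 * (kap + 1) * R) * ((2 * ((F:ℝ) / L)) ^ d * (2 * ((F':ℝ) / L')) ^ d) := by
    intro g hg g' _
    refine (cross_le h hF hL hL' hLL hg).trans ?_
    have p1 := prob_le h hL g (F := F)
    have p2 := prob_le h hL' g' (F := F')
    rw [hR]
    have e : 9 * (kap + 1) * (L : ℝ) ^ 2 / (L' : ℝ) ^ 2 = 9 * (kap + 1) * ((L : ℝ) ^ 2 / (L' : ℝ) ^ 2) := by
      ring
    rw [e]
    gcongr
  refine (Finset.sum_le_sum fun g hg => Finset.sum_le_sum fun g' hg' => h1 g hg g' hg').trans ?_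
  simp only [Finset.sum_const, nsmul_eq_mul]
  have c1 := card_le hF hL
  have c2 := card_le hF' hL'
  obtain ⟨k, rfl⟩ := Nat.exists_eq_add_of_le (show 6 ≤ d by omega)
  have e2 : 6 + k - 6 = k := by omega
  rw [e2]
  have hu' : ((F':ℝ) / L') ^ k ≤ 1 := pow_le_one₀ (by positivity) (by rw [div_le_one hL0']; exact hFL')
  calc ((Box F L).card : ℝ) * ((Box F' L').card * (2 ^ (6 + k) * (9 * (kap + 1) * R) *
        ((2 * ((F:ℝ) / L)) ^ (6 + k) * (2 * ((F':ℝ) / L')) ^ (6 + k))))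
      ≤ (1 / ((F:ℝ) / L) ^ 6) * ((1 / ((F':ℝ) / L') ^ 6) * (2 ^ (6 + k) * (9 * (kap + 1) * R) *
        ((2 * ((F:ℝ) / L)) ^ (6 + k) * (2 * ((F':ℝ) / L')) ^ (6 + k)))) := by gcongr
    _ = 2 ^ (6 + k) * 9 * (kap + 1) * (2 ^ (6 + k) * 2 ^ (6 + k)) * R * ((F:ℝ) / L) ^ k *
        ((F':ℝ) / L') ^ k := by
        rw [mul_pow, mul_pow, pow_add ((F:ℝ) / L), pow_add ((F':ℝ) / L')]
        field_simp
    _ ≤ 2 ^ (6 + k) * 9 * (kap + 1) * (2 ^ (6 + k) * 2 ^ (6 + k)) * R * ((F:ℝ) / L) ^ k * 1 := by gcongr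
    _ = _ := by rw [← mul_pow]; norm_num

end

/-- total constant -/
noncomputable def CT (d : ℕ) : ℝ := CF d * Wtot + 2 ^ d * 9 * (kap + 1) * 4 ^ d

lemma CT_nonneg (d : ℕ) : 0 ≤ CT d := by
  have := kap_pos
  have := CF_nonneg d
  have := Wtot_nonneg
  unfold CT; positivity

/-- lower constant -/
noncomputable def cT (d : ℕ) : ℝ := dl ^ 6 / 8 * cF ^ d

lemma cT_pos (d : ℕ) : 0 < cT d := by
  have := dl_pos
  have := cF_pos
  unfold cT; positivity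

/-- pair sum between scales -/
noncomputable def TT (P : Measure Ω) (X : Fin d → ℝ≥0 × ℝ → Ω → ℝ) (F L : ℕ → ℝ≥0) (n m : ℕ) : ℝ :=
  ∑ g ∈ Box (F n) (L n), ∑ g' ∈ Box (F m) (L m),
    (P.real (Aev X (F n) (L n) g ∩ Aev X (F m) (L m) g') -
      P.real (Aev X (F n) (L n) g) * P.real (Aev X (F m) (L m) g'))

lemma TT_comm (P : Measure Ω) (X : Fin d → ℝ≥0 × ℝ → Ω → ℝ) (F L : ℕ → ℝ≥0) (n m : ℕ) :
    TT P X F L n m = TT P X F L m n := by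
  unfold TT
  rw [Finset.sum_comm]
  refine Finset.sum_congr rfl fun g _ => Finset.sum_congr rfl fun g' _ => ?_
  rw [inter_comm, mul_comm]

lemma TT_lt (hd : 7 ≤ d) {X : Fin d → ℝ≥0 × ℝ → Ω → ℝ} (h : GP X KK P) {F L : ℕ → ℝ≥0}
    (hF : ∀ n, 0 < F n) (hFL : ∀ n, (F n : ℝ) ≤ dl * L n) {Λ : ℝ≥0} (hΛ : 18 * (kap + 1) ≤ (Λ:ℝ) ^ 2)
    (hLn : ∀ n, L n = Λ ^ n) {n m : ℕ} (hnm : n < m) :
    TT P X F L n m ≤ CT d * (1/2) ^ (m - n) * ((F n:ℝ) / L n) ^ (d - 6) := by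
  have hk := kap_pos
  have hΛ0 : (0:ℝ) < Λ := by
    by_contra hh
    have : (Λ:ℝ) = 0 := le_antisymm (not_lt.mp hh) Λ.coe_nonneg
    rw [this] at hΛ
    linarith
  have hL0 : ∀ n, 0 < L n := fun n => by
    rw [hLn]; have : 0 < Λ := by exact_mod_cast hΛ0
    positivity
  have hL0' : ∀ n, (0:ℝ) < L n := fun n => by exact_mod_cast hL0 n
  have hL : ∀ n, (L n : ℝ) = (Λ:ℝ) ^ n := fun n => by rw [hLn]; push_cast; rfl
  obtain ⟨j, rfl⟩ := Nat.exists_eq_add_of_lt hnm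
  have hΛ1 : (1:ℝ) ≤ (Λ:ℝ) ^ 2 := by linarith
  have hLL : 18 * (kap + 1) * (L n : ℝ) ^ 2 ≤ (L (n + j + 1) : ℝ) ^ 2 := by
    rw [hL, hL, pow_add, pow_add, pow_one]
    have h1 : (1:ℝ) ≤ ((Λ:ℝ) ^ j) ^ 2 := by
      rw [← pow_mul, mul_comm, pow_mul]; exact one_le_pow₀ hΛ1
    calc 18 * (kap + 1) * ((Λ:ℝ) ^ n) ^ 2 ≤ (Λ:ℝ) ^ 2 * ((Λ:ℝ) ^ n) ^ 2 := by gcongr
      _ ≤ (Λ:ℝ) ^ 2 * ((Λ:ℝ) ^ n) ^ 2 * ((Λ:ℝ) ^ j) ^ 2 := le_mul_of_one_le_right (by positivity) h1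
      _ = _ := by ring
  have hFL' : (F (n + j + 1) : ℝ) ≤ L (n + j + 1) := by
    refine (hFL _).trans ?_
    exact mul_le_of_le_one_left (hL0' _).le (by linarith [dl_le])
  refine (scale_cross hd h (hF n) (hL0 n) (hF _) (hL0 _) hFL' hLL).trans ?_
  have hR : (L n : ℝ) ^ 2 / (L (n + j + 1) : ℝ) ^ 2 ≤ (1/2) ^ (n + j + 1 - n) := by
    rw [show n + j + 1 - n = j + 1 by omega, hL, hL, div_le_iff₀ (by positivity)]
    have h1 : (1:ℝ) ≤ (1/2) ^ (j + 1) * ((Λ:ℝ) ^ (j + 1)) ^ 2 := by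
      rw [← pow_mul, mul_comm (j + 1) 2, pow_mul, ← mul_pow]
      apply one_le_pow₀
      linarith
    calc ((Λ:ℝ) ^ n) ^ 2 = 1 * ((Λ:ℝ) ^ n) ^ 2 := (one_mul _).symm
      _ ≤ ((1/2) ^ (j + 1) * ((Λ:ℝ) ^ (j + 1)) ^ 2) * ((Λ:ℝ) ^ n) ^ 2 := by gcongr
      _ = _ := by rw [show n + j + 1 = n + (j + 1) by ring, pow_add (Λ:ℝ) n]; ring
  have hC : 2 ^ d * 9 * (kap + 1) * 4 ^ d ≤ CT d := by
    unfold CT
    have := mul_nonneg (CF_nonneg d) Wtot_nonneg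
    linarith
  have hCT := CT_nonneg d
  have hu : 0 ≤ ((F n:ℝ) / L n) ^ (d - 6) := by positivity
  gcongr

lemma TT_le (hd : 7 ≤ d) {X : Fin d → ℝ≥0 × ℝ → Ω → ℝ} (h : GP X KK P) {F L : ℕ → ℝ≥0}
    (hF : ∀ n, 0 < F n) (hFL : ∀ n, (F n : ℝ) ≤ dl * L n) {Λ : ℝ≥0} (hΛ : 18 * (kap + 1) ≤ (Λ:ℝ) ^ 2)
    (hLn : ∀ n, L n = Λ ^ n) (n m : ℕ) :
    TT P X F L n m ≤ CT d * (1/2) ^ ((n:ℤ) - m).natAbs *
      (((F n:ℝ) / L n) ^ (d - 6) + ((F m:ℝ) / L m) ^ (d - 6)) := by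
  have hk := kap_pos
  have hCT := CT_nonneg d
  have hun : ∀ n, 0 ≤ ((F n:ℝ) / L n) ^ (d - 6) := fun n => by positivity
  have hΛ0 : (0:ℝ) < Λ := by
    by_contra hh
    have : (Λ:ℝ) = 0 := le_antisymm (not_lt.mp hh) Λ.coe_nonneg
    rw [this] at hΛ
    linarith
  have hL0 : ∀ n, 0 < L n := fun n => by
    rw [hLn]; have : 0 < Λ := by exact_mod_cast hΛ0
    positivity
  rcases lt_trichotomy n m with hnm | hnm | hnm
  · have h1 := TT_lt hd h hF hFL hΛ hLn hnm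
    have e : ((n:ℤ) - m).natAbs = m - n := by omega
    rw [e]
    refine h1.trans ?_
    have : 0 ≤ CT d * (1/2) ^ (m - n) := by positivity
    nlinarith [hun n, hun m, mul_nonneg this (hun m)]
  · subst hnm
    rw [sub_self, Int.natAbs_zero, pow_zero, mul_one]
    have h1 := scale_upper hd h (hF n) (hL0 n)
    have h2 : TT P X F L n n ≤ ∑ g ∈ Box (F n) (L n), ∑ g' ∈ Box (F n) (L n),
        P.real (Aev X (F n) (L n) g ∩ Aev X (F n) (L n) g') := by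
      unfold TT
      refine Finset.sum_le_sum fun g _ => Finset.sum_le_sum fun g' _ => ?_
      have : 0 ≤ P.real (Aev X (F n) (L n) g) * P.real (Aev X (F n) (L n) g') := by positivity
      linarith
    have h3 : CF d * Wtot ≤ CT d := by
      unfold CT
      have : 0 ≤ 2 ^ d * 9 * (kap + 1) * 4 ^ d := by positivity
      linarith
    have h4 : CF d * Wtot * ((F n:ℝ) / L n) ^ (d - 6) ≤ CT d * ((F n:ℝ) / L n) ^ (d - 6) :=
      mul_le_mul_of_nonneg_right h3 (hun n)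
    have h5 := mul_nonneg hCT (hun n)
    linarith
  · have h1 := TT_lt hd h hF hFL hΛ hLn hnm
    rw [TT_comm]
    have e : ((n:ℤ) - m).natAbs = n - m := by omega
    rw [e]
    refine h1.trans ?_
    have : 0 ≤ CT d * (1/2) ^ (n - m) := by positivity
    nlinarith [hun n, hun m, mul_nonneg this (hun n)]

/-- sum of geometric weights -/
noncomputable def GZ : ℝ := ∑' z : ℤ, (1/2 : ℝ) ^ z.natAbs

lemma GZ_nonneg : 0 ≤ GZ := tsum_nonneg fun z => by positivity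

lemma none_prob (hd : 7 ≤ d) {X : Fin d → ℝ≥0 × ℝ → Ω → ℝ} (h : GP X KK P) {F L : ℕ → ℝ≥0}
    (hF : ∀ n, 0 < F n) (hFL : ∀ n, (F n : ℝ) ≤ dl * L n) {Λ : ℝ≥0} (hΛ : 18 * (kap + 1) ≤ (Λ:ℝ) ^ 2)
    (hLn : ∀ n, L n = Λ ^ n) (I : Finset ℕ) :
    (cT d) ^ 2 * (∑ n ∈ I, ((F n:ℝ) / L n) ^ (d - 6)) ^ 2 *
      P.real (⋂ s ∈ I.sigma (fun n => Box (F n) (L n)), (Aev X (F s.1) (L s.1) s.2)ᶜ) ≤
      2 * CT d * GZ * ∑ n ∈ I, ((F n:ℝ) / L n) ^ (d - 6) := by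
  have hprob := h.isProb
  have hk := kap_pos
  have hCT := CT_nonneg d
  have hcT := cT_pos d
  have hun : ∀ n, 0 ≤ ((F n:ℝ) / L n) ^ (d - 6) := fun n => by positivity
  have hΛ0 : (0:ℝ) < Λ := by
    by_contra hh
    have : (Λ:ℝ) = 0 := le_antisymm (not_lt.mp hh) Λ.coe_nonneg
    rw [this] at hΛ
    linarith
  have hL0 : ∀ n, 0 < L n := fun n => by
    rw [hLn]; have : 0 < Λ := by exact_mod_cast hΛ0
    positivity
  have hsm := second_moment (P := P) (I.sigma (fun n => Box (F n) (L n)))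
    (fun s : (_ : ℕ) × (ℕ × ℕ) => Aev X (F s.1) (L s.1) s.2) (fun s => null_Aev h _ _ _)
  have hlow : cT d * ∑ n ∈ I, ((F n:ℝ) / L n) ^ (d - 6) ≤
      ∑ s ∈ I.sigma (fun n => Box (F n) (L n)), P.real (Aev X (F s.1) (L s.1) s.2) := by
    rw [Finset.sum_sigma, Finset.mul_sum]
    exact Finset.sum_le_sum fun n _ => scale_lower hd h (hF n) (hL0 n) (hFL n)
  have hup : ∑ s ∈ I.sigma (fun n => Box (F n) (L n)), ∑ t ∈ I.sigma (fun n => Box (F n) (L n)),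
      (P.real (Aev X (F s.1) (L s.1) s.2 ∩ Aev X (F t.1) (L t.1) t.2) -
        P.real (Aev X (F s.1) (L s.1) s.2) * P.real (Aev X (F t.1) (L t.1) t.2)) ≤
      2 * CT d * GZ * ∑ n ∈ I, ((F n:ℝ) / L n) ^ (d - 6) := by
    have e1 : ∑ s ∈ I.sigma (fun n => Box (F n) (L n)), ∑ t ∈ I.sigma (fun n => Box (F n) (L n)),
      (P.real (Aev X (F s.1) (L s.1) s.2 ∩ Aev X (F t.1) (L t.1) t.2) -
        P.real (Aev X (F s.1) (L s.1) s.2) * P.real (Aev X (F t.1) (L t.1) t.2)) =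
        ∑ n ∈ I, ∑ m ∈ I, TT P X F L n m := by
      rw [Finset.sum_sigma]
      refine Finset.sum_congr rfl fun n _ => ?_
      simp_rw [Finset.sum_sigma]
      rw [Finset.sum_comm]
      rfl
    rw [e1]
    have e2 : ∀ n ∈ I, ∀ m ∈ I, TT P X F L n m ≤
        CT d * ((1/2) ^ ((n:ℤ) - m).natAbs * ((F n:ℝ) / L n) ^ (d - 6)) +
        CT d * ((1/2) ^ ((m:ℤ) - n).natAbs * ((F m:ℝ) / L m) ^ (d - 6)) := by
      intro n _ m _
      refine (TT_le hd h hF hFL hΛ hLn n m).trans (le_of_eq ?_)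
      have : ((m:ℤ) - n).natAbs = ((n:ℤ) - m).natAbs := by omega
      rw [this]; ring
    refine (Finset.sum_le_sum fun n hn => Finset.sum_le_sum fun m hm => e2 n hn m hm).trans ?_
    simp_rw [Finset.sum_add_distrib]
    have e3 : ∑ n ∈ I, ∑ m ∈ I, CT d * ((1/2) ^ ((n:ℤ) - m).natAbs * ((F n:ℝ) / L n) ^ (d - 6)) ≤
        CT d * GZ * ∑ n ∈ I, ((F n:ℝ) / L n) ^ (d - 6) := by
      rw [Finset.mul_sum]
      refine Finset.sum_le_sum fun n _ => ?_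
      have e5 : ∑ m ∈ I, CT d * ((1/2) ^ ((n:ℤ) - m).natAbs * ((F n:ℝ) / L n) ^ (d - 6)) =
          CT d * (∑ m ∈ I, (1/2 : ℝ) ^ ((n:ℤ) - m).natAbs) * ((F n:ℝ) / L n) ^ (d - 6) := by
        rw [Finset.mul_sum, Finset.sum_mul]
        refine Finset.sum_congr rfl fun m _ => by ring
      rw [e5]
      have e6 : ∑ m ∈ I, (1/2 : ℝ) ^ ((n:ℤ) - m).natAbs ≤ GZ :=
        sum_shift_le (G := fun z : ℤ => (1/2 : ℝ) ^ z.natAbs) (fun z => by positivity) summable_geomZ I n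
      gcongr
    have e4 : ∑ n ∈ I, ∑ m ∈ I, CT d * ((1/2) ^ ((m:ℤ) - n).natAbs * ((F m:ℝ) / L m) ^ (d - 6)) ≤
        CT d * GZ * ∑ n ∈ I, ((F n:ℝ) / L n) ^ (d - 6) := by
      rw [Finset.sum_comm]
      exact e3
    linarith
  refine le_trans ?_ (hsm.trans hup)
  apply mul_le_mul_of_nonneg_right _ measureReal_nonneg
  rw [← mul_pow]
  have : 0 ≤ ∑ n ∈ I, ((F n:ℝ) / L n) ^ (d - 6) := Finset.sum_nonneg fun n _ => hun n
  gcongr

end Pool.Agent.H99.Str
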