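import Pool.Agent.H99.StrS
import Pool.Agent.H99.StrI

/-!
Divergence half and the final integral test.
-/

open MeasureTheory ProbabilityTheory Set Filter Topology
open scoped NNReal ENNReal Interval

namespace Pool.Agent.H99.Str

variable {Ω : Type*} [MeasurableSpace Ω] {P : Measure Ω} {d : ℕ}

lemma norm_le_of_coord {v : EuclideanSpace ℝ (Fin d)} {a : ℝ} (ha : 0 ≤ a) (h : ∀ i, |v i| ≤ a) :
    ‖v‖ ≤ Real.sqrt d * a := by
  rw [EuclideanSpace.norm_eq, Real.sqrt_le_left (by positivity), mul_pow, Real.sq_sqrt (by positivity)]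
  calc ∑ i, ‖v i‖ ^ 2 ≤ ∑ _i : Fin d, a ^ 2 := by
        refine Finset.sum_le_sum fun i _ => ?_
        rw [Real.norm_eq_abs]
        have := h i
        gcongr
    _ = _ := by simp

lemma not_summable_min {k : ℕ} (hk : k ≠ 0) {x : ℕ → ℝ} (hx : ∀ n, 0 < x n) {s D : ℝ} (hs : 0 < s)
    (hD : 0 < D) (h : ∑' n, ENNReal.ofReal (x n ^ k) = ∞) :
    ¬ Summable fun n => (min (x n / s) D) ^ k := by
  intro hsum
  have hm0 : ∀ n, 0 ≤ min (x n / s) D := fun n => le_min (div_nonneg (hx n).le hs.le) hD.le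
  have h1 : ∑' n, ENNReal.ofReal ((min (x n / s) D) ^ k) ≠ ∞ := hsum.tsum_ofReal_ne_top
  have h2 := ennreal_pow_tendsto_zero hk hm0 h1
  obtain ⟨n1, hn1⟩ := eventually_atTop.mp (h2.eventually_lt_const hD)
  have h3 : Summable fun n => (x (n + n1) / s) ^ k := by
    refine ((summable_nat_add_iff n1).mpr hsum).congr fun n => ?_
    have h4 := hn1 (n + n1) (by omega)
    have h5 : x (n + n1) / s < D := by
      rcases min_lt_iff.mp h4 with h | h
      · exact h
      · exact absurd h (lt_irrefl _)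
    rw [min_eq_left h5.le]
  have h6 : Summable fun n => (x n / s) ^ k := (summable_nat_add_iff n1).mp h3
  have h7 : Summable fun n => x n ^ k := by
    refine (h6.mul_left (s ^ k)).congr fun n => ?_
    rw [← mul_pow]
    congr 1
    field_simp
  exact h7.tsum_ofReal_ne_top h

lemma div_one (hd : 7 ≤ d) {U : ℝ≥0 → ℝ → Ω → EuclideanSpace ℝ (Fin d)} (h : IsPinnedString d U P)
    {f : ℝ → ℝ} (hf : MonotoneOn f (Ioi 0)) (hf0 : ∀ t, 0 < t → 0 < f t)
    (hI : escInt f ((d - 6 : ℕ) : ℝ) = ∞) :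
    ∀ᵐ ω ∂P, ∃ᶠ t : ℝ≥0 in atTop, ⨅ x : ℝ, ‖U t x ω‖ ≤ f t := by
  have hgp := h.gp
  have hprob := hgp.isProb
  have hk := kap_pos
  have hdl := dl_pos
  have hd0 : (0:ℝ) < d := by
    have : 0 < d := by omega
    exact_mod_cast this
  have hsd : 0 < Real.sqrt d := Real.sqrt_pos.mpr hd0
  -- ratio of the scales
  set Λ : ℝ≥0 := ⟨18 * (kap + 1), by positivity⟩ with hΛdef
  have hΛv : (Λ:ℝ) = 18 * (kap + 1) := rfl
  have hΛ : 18 * (kap + 1) ≤ (Λ:ℝ) ^ 2 := by rw [hΛv]; nlinarith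
  have hΛ2 : 2 ≤ (Λ:ℝ) := by rw [hΛv]; nlinarith
  have hΛ0 : 0 < Λ := by
    rw [← NNReal.coe_pos]; linarith
  set L : ℕ → ℝ≥0 := fun n => Λ ^ n with hL
  have hLc : ∀ n, (L n : ℝ) = (Λ:ℝ) ^ n := fun n => by simp [hL]
  have hL0 : ∀ n, (0:ℝ) < L n := fun n => by rw [hLc]; positivity
  set x : ℕ → ℝ := fun n => f (((Λ:ℝ) ^ n) ^ 4) / (Λ:ℝ) ^ n with hx
  have hx0 : ∀ n, 0 < x n := fun n => div_pos (hf0 _ (by positivity)) (by positivity)
  set F : ℕ → ℝ≥0 := fun n => Real.toNNReal (min (x n / Real.sqrt d) dl * L n) with hF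
  have hmin0 : ∀ n, 0 < min (x n / Real.sqrt d) dl := fun n => lt_min (div_pos (hx0 n) hsd) hdl
  have hFc : ∀ n, (F n : ℝ) = min (x n / Real.sqrt d) dl * L n := fun n =>
    Real.coe_toNNReal _ (mul_nonneg (hmin0 n).le (hL0 n).le)
  have hF0 : ∀ n, 0 < F n := fun n => by
    rw [← NNReal.coe_pos, hFc]; exact mul_pos (hmin0 n) (hL0 n)
  have hFL : ∀ n, (F n : ℝ) ≤ dl * L n := fun n => by
    rw [hFc]; exact mul_le_mul_of_nonneg_right (min_le_right _ _) (hL0 n).le
  have hFu : ∀ n, (F n : ℝ) / L n = min (x n / Real.sqrt d) dl := fun n => by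
    rw [hFc, mul_div_assoc, div_self (hL0 n).ne', mul_one]
  have hser := series_of_escInt_top hf hf0 (d - 6) hI hΛ2
  have hns : ¬ Summable fun n => ((F n:ℝ) / L n) ^ (d - 6) := by
    simp_rw [hFu]
    exact not_summable_min (by omega) hx0 hsd hdl hser
  set X : Fin d → ℝ≥0 × ℝ → Ω → ℝ := fun i q ω => U q.1 q.2 ω i with hX
  -- for every starting scale almost surely some event occurs
  have hmain : ∀ n0 : ℕ, ∀ᵐ ω ∂P, ∃ n, n0 ≤ n ∧ ∃ g ∈ Box (F n) (L n), ω ∈ Aev X (F n) (L n) g := by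
    intro n0
    set I : ℕ → Finset ℕ := fun N => Finset.Ico n0 (n0 + N) with hIdef
    set S : ℕ → ℝ := fun N => ∑ n ∈ I N, ((F n:ℝ) / L n) ^ (d - 6) with hS
    have hSt : Tendsto S atTop atTop := by
      have h1 : ¬ Summable fun n => ((F (n0 + n):ℝ) / L (n0 + n)) ^ (d - 6) := by
        intro hh
        apply hns
        refine (summable_nat_add_iff n0).mp (hh.congr fun n => ?_)
        rw [add_comm]
      rw [not_summable_iff_tendsto_nat_atTop_of_nonneg (fun n => by positivity)] at h1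
      refine h1.congr fun N => ?_
      rw [hS]
      simp only [hIdef]
      rw [Finset.sum_Ico_eq_sum_range, Nat.add_sub_cancel_left]
    set B : Set Ω := {ω | ¬ ∃ n, n0 ≤ n ∧ ∃ g ∈ Box (F n) (L n), ω ∈ Aev X (F n) (L n) g} with hB
    have hle : ∀ N, P.real B ≤ P.real (⋂ s ∈ (I N).sigma (fun n => Box (F n) (L n)),
        (Aev X (F s.1) (L s.1) s.2)ᶜ) := by
      intro N
      apply measureReal_mono
      · intro ω hω
        simp only [mem_iInter]
        intro s hs hmem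
        rw [Finset.mem_sigma] at hs
        apply hω
        refine ⟨s.1, ?_, s.2, hs.2, hmem⟩
        have := hs.1
        simp only [hIdef, Finset.mem_Ico] at this
        exact this.1
      · exact measure_ne_top _ _
    have hbound : ∀ᶠ N in atTop, P.real B ≤ (2 * CT d * GZ / (cT d) ^ 2) / S N := by
      filter_upwards [hSt.eventually_gt_atTop 0] with N hN
      refine (hle N).trans ?_
      have h1 := none_prob hd hgp hF0 hFL hΛ (fun n => rfl) (I N)
      have hcT := cT_pos d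
      rw [le_div_iff₀ hN, le_div_iff₀ (by positivity)]
      have h2 : (cT d) ^ 2 * (S N) ^ 2 * P.real (⋂ s ∈ (I N).sigma (fun n => Box (F n) (L n)),
        (Aev X (F s.1) (L s.1) s.2)ᶜ) ≤ 2 * CT d * GZ * S N := h1
      have h3 : (P.real (⋂ s ∈ (I N).sigma (fun n => Box (F n) (L n)),
        (Aev X (F s.1) (L s.1) s.2)ᶜ) * S N * (cT d) ^ 2) * S N ≤ (2 * CT d * GZ) * S N := by
        refine le_trans (le_of_eq ?_) h2
        ring
      exact le_of_mul_le_mul_right h3 hN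
    have hlim : Tendsto (fun N => (2 * CT d * GZ / (cT d) ^ 2) / S N) atTop (𝓝 0) :=
      hSt.const_div_atTop _
    have h0 : P.real B ≤ 0 := ge_of_tendsto hlim hbound
    have h1 : P B = 0 := by
      have h2 : P.real B = 0 := le_antisymm h0 measureReal_nonneg
      rwa [measureReal_eq_zero_iff] at h2
    exact h1
  have hall : ∀ᵐ ω ∂P, ∀ n0 : ℕ, ∃ n, n0 ≤ n ∧ ∃ g ∈ Box (F n) (L n), ω ∈ Aev X (F n) (L n) g :=
    ae_all_iff.mpr hmain
  filter_upwards [hall] with ω hω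
  rw [frequently_atTop]
  intro T
  obtain ⟨n0, hn0⟩ := pow_unbounded_of_one_lt (T:ℝ) (show (1:ℝ) < Λ by linarith)
  obtain ⟨n, hn, g, _, hA⟩ := hω n0
  have hge : (L n : ℝ) ^ 4 ≤ (gd (F n) (L n) g).1 := by
    unfold gd; push_cast
    have : (0:ℝ) ≤ g.1 * (F n : ℝ) ^ 4 := by positivity
    linarith
  have hL1 : (1:ℝ) ≤ L n := by rw [hLc]; exact one_le_pow₀ (by linarith)
  refine ⟨(gd (F n) (L n) g).1, ?_, ?_⟩
  · rw [← NNReal.coe_le_coe]
    refine hn0.le.trans (le_trans ?_ hge)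
    calc (Λ:ℝ) ^ n0 ≤ (Λ:ℝ) ^ n := pow_le_pow_right₀ (by linarith) hn
      _ = (L n : ℝ) := (hLc n).symm
      _ ≤ (L n : ℝ) ^ 4 := le_self_pow₀ hL1 (by norm_num)
  · have hbdd : BddBelow (range fun x : ℝ => ‖U (gd (F n) (L n) g).1 x ω‖) :=
      ⟨0, by rintro _ ⟨y, rfl⟩; exact norm_nonneg _⟩
    refine (ciInf_le hbdd (gd (F n) (L n) g).2).trans ?_
    have h1 := norm_le_of_coord (F n).coe_nonneg (v := U (gd (F n) (L n) g).1 (gd (F n) (L n) g).2 ω)
      (fun i => hA i)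
    refine h1.trans ?_
    have h2 : (F n : ℝ) ≤ x n / Real.sqrt d * L n := by
      rw [hFc]; exact mul_le_mul_of_nonneg_right (min_le_left _ _) (hL0 n).le
    calc Real.sqrt d * F n ≤ Real.sqrt d * (x n / Real.sqrt d * L n) := by gcongr
      _ = f ((L n : ℝ) ^ 4) := by
        rw [hx]; simp only; rw [hLc]; field_simp
      _ ≤ f (gd (F n) (L n) g).1 := by
        apply hf
        · show (0:ℝ) < (L n : ℝ) ^ 4
          have := hL0 n
          positivity
        · show (0:ℝ) < (gd (F n) (L n) g).1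
          have := hL0 n
          exact lt_of_lt_of_le (by positivity) hge
        · exact hge

/-- Divergence half. -/
theorem div_half (hd : 7 ≤ d) {U : ℝ≥0 → ℝ → Ω → EuclideanSpace ℝ (Fin d)} (h : IsPinnedString d U P)
    {f : ℝ → ℝ} (hf : MonotoneOn f (Ioi 0)) (hf0 : ∀ t, 0 < t → 0 < f t)
    (hI : escInt f ((d - 6 : ℕ) : ℝ) = ∞) :
    ∀ᵐ ω ∂P, liminf (fun t : ℝ≥0 => (((⨅ x : ℝ, ‖U t x ω‖) / f t : ℝ) : EReal)) atTop = 0 := by
  have h1 : ∀ K : ℕ, ∀ᵐ ω ∂P, ∃ᶠ t : ℝ≥0 in atTop, ⨅ x : ℝ, ‖U t x ω‖ ≤ 1 / ((K:ℝ) + 1) * f t := by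
    intro K
    have hK : (0:ℝ) < 1 / ((K:ℝ) + 1) := by positivity
    refine div_one hd h (f := fun t => 1 / ((K:ℝ) + 1) * f t) ?_ ?_ ?_
    · intro a ha b hb hab
      exact mul_le_mul_of_nonneg_left (hf ha hb hab) hK.le
    · intro t ht
      exact mul_pos hK (hf0 t ht)
    · unfold escInt at hI ⊢
      have e : ∀ t ∈ Ioi (1:ℝ), ENNReal.ofReal ((1 / ((K:ℝ) + 1) * f t / t ^ (1/4:ℝ)) ^ (((d - 6 : ℕ) : ℝ)) / t) =
          ENNReal.ofReal ((1 / ((K:ℝ) + 1)) ^ (d - 6)) *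
            ENNReal.ofReal ((f t / t ^ (1/4:ℝ)) ^ (((d - 6 : ℕ) : ℝ)) / t) := by
        intro t ht
        rw [← ENNReal.ofReal_mul (by positivity)]
        congr 1
        rw [Real.rpow_natCast, Real.rpow_natCast, mul_div_assoc, mul_pow, mul_div_assoc]
      rw [setLIntegral_congr_fun measurableSet_Ioi e]
      rw [lintegral_const_mul' _ _ ENNReal.ofReal_ne_top, hI]
      exact ENNReal.mul_top (by simpa using by positivity)
  filter_upwards [ae_all_iff.mpr h1] with ω hω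
  apply le_antisymm
  · have hle : ∀ K : ℕ, liminf (fun t : ℝ≥0 => (((⨅ x : ℝ, ‖U t x ω‖) / f t : ℝ) : EReal)) atTop ≤
        ((1 / ((K:ℝ) + 1) : ℝ) : EReal) := by
      intro K
      refine liminf_le_of_frequently_le' ?_
      refine ((hω K).and_eventually (eventually_gt_atTop 0)).mono ?_
      rintro t ⟨ht, ht0⟩
      have hft : 0 < f t := hf0 _ (by exact_mod_cast ht0)
      rw [EReal.coe_le_coe_iff, div_le_iff₀ hft]
      exact ht
    have hlim : Tendsto (fun K : ℕ => ((1 / ((K:ℝ) + 1) : ℝ) : EReal)) atTop (𝓝 ((0:ℝ) : EReal)) :=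
      (continuous_coe_real_ereal.tendsto 0).comp tendsto_one_div_add_atTop_nhds_zero_nat
    exact ge_of_tendsto' hlim hle
  · refine le_liminf_of_le (by isBoundedDefault) ?_
    filter_upwards [eventually_gt_atTop 0] with t ht
    have hft : 0 < f t := hf0 _ (by exact_mod_cast ht)
    rw [← EReal.coe_zero, EReal.coe_le_coe_iff]
    exact div_nonneg (Real.iInf_nonneg fun _ => norm_nonneg _) hft.le

end Pool.Agent.H99.Str
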